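import Pool.Agent.MP_7a723b_nt.Mg.PadicB

/-! A window lemma for products of consecutive integers with a large common factor. -/

namespace Pool.Agent.H41Fact

open PowerSeries Finset Nat Pool.Agent.H79Fact

lemma hensel2 {R : Type} [CommRing R] (L : Finset ℕ) (u : R) (d : ℕ → R)
    (hu : IsUnit u) (y y' : R) (hy : IsNilpotent y) (hy' : IsNilpotent y')
    (h : y * ∏ l ∈ L, (u + d l * y) = y' * ∏ l ∈ L, (u + d l * y')) : y = y' := by
  obtain ⟨w, hw⟩ := sub_dvd_prod_sub L (fun _ => u) d y y'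
  have h1 : IsUnit (∏ l ∈ L, (u + d l * y)) :=
    IsUnit.prod_iff.2 fun l _ =>
      ((Commute.all _ _).isNilpotent_mul_left hy).isUnit_add_left_of_commute hu (Commute.all _ _)
  have h2 : IsUnit (∏ l ∈ L, (u + d l * y) + y' * w) :=
    ((Commute.all _ _).isNilpotent_mul_right hy').isUnit_add_left_of_commute h1 (Commute.all _ _)
  have h3 : (y - y') * (∏ l ∈ L, (u + d l * y) + y' * w) = 0 := by
    linear_combination h - y' * hw
  exact sub_eq_zero.1 (h2.mul_left_eq_zero.1 h3)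

lemma red_id {S : Type} [CommRing S] [IsDomain S] (h20 : (2 : S) ≠ 0) {k j a δ' : ℕ} (hj : j < k)
    (d : ℕ → ℤ) (hd : ∀ l ∈ (range k).erase j, ((l : ℤ) - j) * d l = ((2 ^ a * δ' : ℕ) : ℤ))
    (y w B : S) (hy : y + (j : S) = 2 ^ a * w)
    (hB : ∏ l ∈ range k, (y + (l : S)) = 2 ^ (a * k) * B) :
    w * ∏ l ∈ (range k).erase j, ((δ' : S) + (d l : S) * w)
      = (∏ l ∈ (range k).erase j, (d l : S)) * B := by
  set L := (range k).erase j with hL
  have hcard : L.card = k - 1 := by rw [hL, card_erase_of_mem (mem_range.2 hj), card_range]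
  have h1 : ∀ l ∈ L, (d l : S) * (y + (l : S)) = 2 ^ a * ((δ' : S) + (d l : S) * w) := by
    intro l hl
    have := congrArg (Int.cast : ℤ → S) (hd l hl)
    push_cast at this
    linear_combination this + (d l : S) * hy
  have h2 : (∏ l ∈ L, (d l : S)) * ∏ l ∈ L, (y + (l : S))
      = (2 ^ a) ^ (k - 1) * ∏ l ∈ L, ((δ' : S) + (d l : S) * w) := by
    rw [← prod_mul_distrib, prod_congr rfl h1, prod_mul_distrib, prod_const, hcard]
  rw [← mul_prod_erase (range k) _ (mem_range.2 hj), ← hL, hy] at hB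
  have h3 : (2 : S) ^ (a * k) = 2 ^ a * (2 ^ a) ^ (k - 1) := by
    rw [← _root_.pow_succ', ← pow_mul]; congr 2; omega
  have h4 : (2 : S) ^ (a * k) ≠ 0 := pow_ne_zero _ h20
  apply mul_left_cancel₀ h4
  linear_combination (∏ l ∈ L, (d l : S)) * hB - 2 ^ a * w * h2
    + (w * ∏ l ∈ L, ((δ' : S) + (d l : S) * w)) * h3

lemma branch2 (k j N Nm : ℕ) (hj : j < k) (hN : N ≤ Nm) (hNm : 0 < Nm) :
    ∃ Y Z : ℤ⟦X⟧, (X ∣ Z ∧ Y + C (j : ℤ) = C ((k ! : ℕ) : ℤ) * Z) ∧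
      ∏ l ∈ range k, (Y + C (l : ℤ)) = C ((N * k ! ^ k : ℕ) : ℤ) * X ∧
      Maj (1 / ((6 * k * k ! ^ k * Nm : ℕ) : ℝ)) Y (2 * k) := by
  classical
  set δ : ℕ := k ! with hδ
  have hδ0 : 0 < δ := factorial_pos k
  have hk0 : 0 < k := by omega
  have hδR : (1 : ℝ) ≤ δ := by exact_mod_cast hδ0
  have hkR : (1 : ℝ) ≤ k := by exact_mod_cast hk0
  have hNmR : (1 : ℝ) ≤ Nm := by exact_mod_cast hNm
  set L := (range k).erase j with hL
  have hcard : L.card = k - 1 := by rw [hL, card_erase_of_mem (mem_range.2 hj), card_range]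
  set d : ℕ → ℤ := fun l => (δ : ℤ) / ((l : ℤ) - j) with hd
  have hdl : ∀ l ∈ L, ((l : ℤ) - j) * d l = δ := fun l hl =>
    Int.mul_ediv_cancel' (sub_dvd_fact hj hl)
  have hdle : ∀ l ∈ L, |(d l : ℝ)| ≤ δ := by
    intro l hl
    have : |d l| ≤ (δ : ℤ) := by
      have := Int.le_of_dvd (by exact_mod_cast hδ0 : (0 : ℤ) < δ)
        ((abs_dvd _ _).2 (Dvd.intro_left _ (hdl l hl)))
      exact this
    exact_mod_cast this
  have hq : (0 : ℝ) ≤ 1 / ((6 * k * δ ^ k * Nm : ℕ) : ℝ) := by positivity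
  obtain ⟨Z, hZX, hZ, hZM⟩ := exists_branch (D := δ) (ε := 1 / (3 * k * δ)) hq L d
    (N * ∏ l ∈ L, d l) hdle (by
      have e : (δ : ℝ) * (1 / (3 * k * δ)) = 1 / (3 * k) := by field_simp
      rw [e]
      have h1 : (1 + 1 / (3 * k) : ℝ) ≤ Real.exp (1 / (3 * k)) := by
        have := Real.add_one_le_exp (1 / (3 * k) : ℝ); linarith
      calc (1 + 1 / (3 * k) : ℝ) ^ L.card ≤ (1 + 1 / (3 * k) : ℝ) ^ k :=
            pow_le_pow_right₀ (by have : (0 : ℝ) ≤ 1 / (3 * k) := by positivity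
                                  linarith) (by omega)
        _ ≤ Real.exp (1 / (3 * k)) ^ k := pow_le_pow_left₀ (by positivity) h1 k
        _ = Real.exp (1 / 3) := by rw [← Real.exp_nat_mul]; congr 1; field_simp
        _ ≤ 3 / 2 := by
          have := Real.exp_bound_div_one_sub_of_interval (x := 1 / 3) (by norm_num) (by norm_num)
          linarith) (by
      have h1 : |((∏ l ∈ L, d l : ℤ) : ℝ)| ≤ (δ : ℝ) ^ (k - 1) := by
        rw [Int.cast_prod, abs_prod, ← hcard, ← prod_const]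
        exact prod_le_prod (fun _ _ => abs_nonneg _) hdle
      have h2 : (N : ℝ) ≤ Nm := by exact_mod_cast hN
      have h3 : (δ : ℝ) ^ k = δ * δ ^ (k - 1) := by
        rw [← _root_.pow_succ']; congr 1; omega
      rw [Int.cast_mul, abs_mul, Int.cast_natCast, Nat.abs_cast]
      push_cast
      rw [h3]
      calc (N : ℝ) * |∏ l ∈ L, (d l : ℝ)| * (1 / (6 * k * (δ * δ ^ (k - 1)) * Nm))
          ≤ Nm * δ ^ (k - 1) * (1 / (6 * k * (δ * δ ^ (k - 1)) * Nm)) := by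
            gcongr
            simpa using h1
        _ = 1 / (3 * k * δ) / 2 := by field_simp; norm_num)
  refine ⟨C (δ : ℤ) * Z - C (j : ℤ), Z, ⟨hZX, sub_add_cancel _ _⟩, ?_, ?_⟩
  · rw [← mul_prod_erase (range k) _ (mem_range.2 hj), sub_add_cancel, ← hL]
    have h1 : ∏ l ∈ L, (C (δ : ℤ) * Z - C (j : ℤ) + C (l : ℤ))
        = C (∏ l ∈ L, ((l : ℤ) - j)) * ∏ l ∈ L, (1 + C (d l) * Z) := by
      rw [map_prod, ← prod_mul_distrib]
      refine prod_congr rfl fun l hl => ?_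
      rw [← hdl l hl, map_mul, map_sub]; ring
    have h2 : (δ : ℤ) * (∏ l ∈ L, ((l : ℤ) - j)) * (N * ∏ l ∈ L, d l) = ((N * δ ^ k : ℕ) : ℤ) := by
      have : (∏ l ∈ L, ((l : ℤ) - j)) * ∏ l ∈ L, d l = (δ : ℤ) ^ (k - 1) := by
        rw [← prod_mul_distrib, prod_congr rfl hdl, prod_const, hcard]
      have h3 : (δ : ℤ) ^ k = δ * δ ^ (k - 1) := by
        rw [← _root_.pow_succ']; congr 1; omega
      push_cast
      rw [h3, ← this]; ring
    rw [h1, ← h2, map_mul, map_mul]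
    linear_combination (C (δ : ℤ) * C (∏ l ∈ L, ((l : ℤ) - j))) * hZ
  · refine (((maj_C _ (δ : ℤ)).mul hq hZM).sub hq (maj_C _ (j : ℤ))).mono ?_
    have e : (δ : ℝ) * (1 / (3 * k * δ)) = 1 / (3 * k) := by field_simp
    have h1 : (1 / (3 * k) : ℝ) ≤ 1 := by
      rw [div_le_one (by positivity)]; linarith
    have h2 : (j : ℝ) ≤ k := by exact_mod_cast hj.le
    simp only [Int.cast_natCast, Nat.abs_cast]
    rw [e]; linarith

lemma indep2 {k : ℕ} (c : ℤ) :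
    ∀ (r : ℕ) (y : Fin r → ℤ⟦X⟧) (N : Fin r → ℤ),
      (∀ i, ∏ l ∈ range k, (y i + C (l : ℤ)) = C c * X) →
      (∀ i, ∃ q v : ℕ, q.Prime ∧ ¬ (q : ℤ) ∣ c ∧ (q : ℤ) ^ v ∣ N i ∧ ¬ (q : ℤ) ^ (v + 1) ∣ N i ∧
        ∀ j, i < j → (q : ℤ) ^ (v + 1) ∣ N j) → ∀ a : (Fin r → Fin k) → ℤ,
      ∑ e : Fin r → Fin k, C (a e) * ∏ i, rescale (N i) (y i) ^ (e i : ℕ) = 0 → a = 0 := by
  intro r
  induction r with
  | zero =>
    intro y N _ _ a h
    funext e
    rw [Fintype.sum_unique] at h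
    simp only [univ_eq_empty, prod_empty, mul_one] at h
    rw [Subsingleton.elim e default]
    simpa using congrArg (coeff 0) h
  | succ r ih =>
    intro y N hy hN a h
    obtain ⟨p, v, hp, hc, ⟨u, hu⟩, hv, hlater⟩ := hN 0
    choose M hM using fun i : Fin r => hlater i.succ (Fin.succ_pos i)
    have hp0 : ((p : ℤ) ^ v) ≠ 0 := pow_ne_zero _ (by exact_mod_cast hp.ne_zero)
    have hpu : ¬ (p : ℤ) ∣ u := fun h' => hv (by
      rw [hu, _root_.pow_succ]; exact mul_dvd_mul_left _ h')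
    set B : Fin k → ℤ⟦X⟧ := fun b => ∑ e : Fin r → Fin k,
      C (a (Fin.cons b e)) * ∏ i, rescale (p * M i) (y i.succ) ^ (e i : ℕ) with hB
    have hBr : ∀ b, rescale ((p : ℤ) ^ v) (B b) = ∑ e : Fin r → Fin k,
        C (a (Fin.cons b e)) * ∏ i, rescale (N i.succ) (y i.succ) ^ (e i : ℕ) := by
      intro b
      rw [hB, map_sum]
      refine sum_congr rfl fun e _ => ?_
      rw [map_mul, map_prod, rescale_C']
      have : ∀ i : Fin r, (p : ℤ) * M i * (p : ℤ) ^ v = N i.succ := fun i => by rw [hM]; ring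
      simp only [map_pow, rescale_rescale, this]
    have h1 : rescale ((p : ℤ) ^ v) (∑ b : Fin k, B b * rescale u (y 0) ^ (b : ℕ)) = 0 := by
      rw [← h, ← (Fin.consEquiv fun _ : Fin (r + 1) => Fin k).sum_comp, Fintype.sum_prod_type,
        map_sum]
      refine sum_congr rfl fun b _ => ?_
      rw [map_mul, map_pow, hBr, sum_mul, rescale_rescale, mul_comm u, ← hu]
      refine sum_congr rfl fun e _ => ?_
      rw [Fin.prod_univ_succ]
      simp only [Fin.consEquiv, Equiv.coe_fn_mk, Fin.cons_zero, Fin.cons_succ]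
      ring
    have h2 : ∑ b : Fin k, B b * rescale u (y 0) ^ (b : ℕ) = 0 := by
      ext j
      have := congrArg (coeff j) h1
      rw [coeff_rescale, map_zero] at this
      rw [map_zero]
      exact (mul_eq_zero.1 this).resolve_left (pow_ne_zero _ hp0)
    have hy0 : ∏ l ∈ range k, (rescale u (y 0) + C (l : ℤ)) = C (c * u) * X := by
      have := congrArg (rescale u) (hy 0)
      rw [map_prod, map_mul, rescale_C', rescale_X] at this
      simp only [map_add, rescale_C'] at this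
      rw [this, map_mul, mul_assoc]
    have hcu : ¬ (p : ℤ) ∣ c * u := fun h' =>
      ((Nat.prime_iff_prime_int.1 hp).dvd_or_dvd h').elim hc hpu
    have h3 := int_step hp (rescale u (y 0)) (c * u) hcu hy0 B (fun b j => by
      have : B b = rescale (p : ℤ) (∑ e : Fin r → Fin k,
          C (a (Fin.cons b e)) * ∏ i, rescale (M i) (y i.succ) ^ (e i : ℕ)) := by
        rw [hB, map_sum]
        refine sum_congr rfl fun e _ => ?_
        rw [map_mul, map_prod, rescale_C']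
        simp only [map_pow, rescale_rescale, mul_comm (p : ℤ)]
      rw [this, coeff_rescale]
      exact Dvd.intro _ rfl) h2
    funext e
    have h4 := ih (fun i => y i.succ) (fun i => N i.succ) (fun i => hy _) (fun i => by
        obtain ⟨q, w, b1, b2, b3, b4, b5⟩ := hN i.succ
        exact ⟨q, w, b1, b2, b3, b4, fun j hj => b5 j.succ (Fin.succ_lt_succ_iff.2 hj)⟩)
      (fun e' => a (Fin.cons (e 0) e')) (by rw [← hBr, h3, map_zero])
    have := congrFun h4 (Fin.tail e)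
    simpa using this

lemma dvd2 {k r a v u δ' σ : ℕ} (hδ : k ! = 2 ^ a * δ') (hδ' : ¬ 2 ∣ δ') (hu : ¬ 2 ∣ u)
    (Y Z : Fin r → ℤ⟦X⟧) (N x j : Fin r → ℕ) (hj : ∀ i, j i < k)
    (hjx : ∀ i, 2 ^ (a + 1) ∣ x i + j i) (hZ : ∀ i, X ∣ Z i)
    (hYZ : ∀ i, Y i + C (j i : ℤ) = C ((k ! : ℕ) : ℤ) * Z i)
    (hY : ∀ i, ∏ l ∈ range k, (Y i + C (l : ℤ)) = C ((N i * k ! ^ k : ℕ) : ℤ) * X)
    (hx : ∀ i, ∏ l ∈ range k, (x i + l) = N i * (2 ^ (a * k) * (2 ^ v * u)))
    (c : (Fin r → Fin k) → ℤ)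
    (hc : ∑ e : Fin r → Fin k, c e * ∏ i, (x i : ℤ) ^ (e i : ℕ) = 0)
    (hσ : X ^ σ ∣ ∑ e : Fin r → Fin k, C (c e) * ∏ i, Y i ^ (e i : ℕ)) :
    ((2 ^ v : ℕ) : ℤ) ∣ coeff σ (∑ e : Fin r → Fin k, C (c e) * ∏ i, Y i ^ (e i : ℕ)) := by
  classical
  set n := 2 ^ (v * (σ + 1)) with hn
  have hpn : ((2 : ZMod n)) ^ (v * (σ + 1)) = 0 := by
    have : ((2 ^ (v * (σ + 1)) : ℕ) : ZMod n) = 0 := by rw [← hn, ZMod.natCast_self]
    rwa [Nat.cast_pow, Nat.cast_ofNat] at this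
  have hun : IsUnit ((δ' : ℕ) : ZMod n) := by
    rw [ZMod.isUnit_iff_coprime, hn]
    exact Nat.Coprime.pow_right _ ((Nat.Prime.coprime_iff_not_dvd Nat.prime_two).2 hδ').symm
  obtain ⟨ι, hι⟩ := hun.exists_right_inv
  set t : ZMod n := 2 ^ v * u * ι ^ k with ht
  have hs0 : t ^ (σ + 1) = 0 := by
    rw [ht, mul_pow, mul_pow, ← pow_mul, hpn, zero_mul, zero_mul]
  have htδ : t * (δ' : ZMod n) ^ k = 2 ^ v * u := by
    rw [ht, mul_assoc, ← mul_pow, mul_comm ι, hι, one_pow, mul_one]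
  obtain ⟨ψ, hψ⟩ := exists_eval_hom _ σ hs0
  have hψC : ∀ b : ℤ, ψ (C b) = (b : ZMod n) := fun b => by simp
  have h20 : (2 : ℤ⟦X⟧) ≠ 0 := by
    intro h
    have := congrArg (constantCoeff (R := ℤ)) h
    rw [map_ofNat, map_zero] at this
    exact two_ne_zero this
  have hval : ∀ i, ψ (Y i) = (x i : ZMod n) := by
    intro i
    set d : ℕ → ℤ := fun l => ((k ! : ℕ) : ℤ) / ((l : ℤ) - j i) with hd
    have hdl : ∀ l ∈ (range k).erase (j i), ((l : ℤ) - j i) * d l = ((2 ^ a * δ' : ℕ) : ℤ) :=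
      fun l hl => by rw [← hδ]; exact Int.mul_ediv_cancel' (sub_dvd_fact (hj i) hl)
    obtain ⟨w, hw⟩ := hjx i
    have e1 := red_id (S := ℤ) two_ne_zero (hj i) d hdl (x i) (2 * w) (N i * (2 ^ v * u)) (by
        have := congrArg (Nat.cast : ℕ → ℤ) hw
        push_cast at this
        rw [this]; ring) (by
        have := congrArg (Nat.cast : ℕ → ℤ) (hx i)
        push_cast at this
        rw [this]; ring)
    have e2 := red_id (S := ℤ⟦X⟧) h20 (hj i) d hdl (Y i) ((δ' : ℤ⟦X⟧) * Z i)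
      ((N i : ℤ⟦X⟧) * (δ' : ℤ⟦X⟧) ^ k * X) (by
        have := hYZ i
        rw [hδ] at this
        simp only [map_natCast] at this
        push_cast at this
        rw [this]; ring) (by
        have := hY i
        rw [hδ] at this
        simp only [map_natCast] at this
        push_cast at this
        rw [this, mul_pow, ← pow_mul]; ring)
    have e3 := congrArg (Int.cast : ℤ → ZMod n) e1
    have e4 := congrArg ψ e2
    push_cast at e3
    simp only [map_mul, map_prod, map_add, map_natCast, map_intCast, map_pow, hψ] at e4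
    have h1 : IsNilpotent ((δ' : ZMod n) * ψ (Z i)) := by
      obtain ⟨g, hg⟩ := hZ i
      rw [hg, map_mul, hψ]
      exact (Commute.all _ _).isNilpotent_mul_left
        ((Commute.all _ _).isNilpotent_mul_right ⟨_, hs0⟩)
    have h2 : IsNilpotent ((2 : ZMod n) * w) :=
      (Commute.all _ _).isNilpotent_mul_right ⟨_, hpn⟩
    have h3 := hensel2 ((range k).erase (j i)) (δ' : ZMod n) (fun l => (d l : ZMod n)) hun _ _
      h1 h2 (by
        rw [e3, e4, ← htδ]; ring)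
    have e5 := congrArg ψ (hYZ i)
    rw [map_add, map_mul, hψC, hψC, hδ] at e5
    have e6 := congrArg (Nat.cast : ℕ → ZMod n) hw
    push_cast at e5 e6
    linear_combination e5 - e6 + (2 : ZMod n) ^ a * h3
  set F := ∑ e : Fin r → Fin k, C (c e) * ∏ i, Y i ^ (e i : ℕ) with hFF
  have hF0 : ψ F = 0 := by
    have := congrArg (Int.cast : ℤ → ZMod n) hc
    push_cast at this
    rw [hFF, map_sum, ← this]
    refine sum_congr rfl fun S _ => ?_
    rw [map_mul, map_prod, hψC]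
    simp only [map_pow, hval]
  have hsplit : X ^ (σ + 1) ∣ F - C (coeff σ F) * X ^ σ := by
    rw [X_pow_dvd_iff]
    intro m hm
    rw [map_sub, coeff_C_mul, coeff_X_pow]
    rcases Nat.lt_or_ge m σ with h | h
    · rw [X_pow_dvd_iff.1 hσ m h, if_neg h.ne]; simp
    · have : m = σ := by omega
      subst this; simp
  obtain ⟨g, hg⟩ := hsplit
  have := congrArg ψ hg
  rw [map_sub, hF0, map_mul, map_mul, map_pow, map_pow, hψ, hs0, hψC, zero_mul, zero_sub,
    neg_eq_zero] at this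
  have h5 : (n : ℤ) ∣ coeff σ F * ((2 ^ v * u : ℕ) : ℤ) ^ σ := by
    rw [← ZMod.intCast_zmod_eq_zero_iff_dvd]
    push_cast
    rw [← htδ, mul_pow, ← mul_assoc, this, zero_mul]
  have h6 : ((2 ^ v : ℕ) : ℤ) * ((2 ^ v : ℕ) : ℤ) ^ σ
      ∣ (coeff σ F * (u : ℤ) ^ σ) * ((2 ^ v : ℕ) : ℤ) ^ σ := by
    convert h5 using 1
    · rw [hn]; push_cast; ring
    · push_cast; ring
  have hp0 : ((2 ^ v : ℕ) : ℤ) ^ σ ≠ 0 := by positivity
  have h7 := (mul_dvd_mul_iff_right hp0).1 h6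
  refine IsCoprime.dvd_of_dvd_mul_right ?_ h7
  rw [← Nat.cast_pow, Nat.isCoprime_iff_coprime]
  exact Nat.Coprime.pow _ _ ((Nat.Prime.coprime_iff_not_dvd Nat.prime_two).2 hu)

theorem window2 (k r h v Λ0 G : ℕ) (hk : 2 ≤ k) (x N : Fin r → ℕ)
    (hx : ∀ i, ∏ a ∈ range k, (x i + a) = N i * G) (hx1 : ∀ i, 1 ≤ x i)
    (hM : ∀ i, N i * G ≤ 2 ^ Λ0) (hN : ∀ i, N i ≤ 2 ^ h) (hG : 2 ^ (v + k ^ 2) ∣ G)
    (hch : ∀ i, ∃ q, q.Prime ∧ k < q ∧
      ∀ j, i < j → (N i).factorization q < (N j).factorization q)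
    (c1 : 4 * (r * k * k ^ r) * (h + 2 * k ^ 3) ≤ v)
    (c2 : 2 * r * (k + Λ0) < v * (k ^ r - 1)) : False := by
  classical
  have hkr : 1 < k ^ r := by
    by_contra hh
    have : k ^ r - 1 = 0 := by omega
    rw [this] at c2
    omega
  have hr0 : 0 < r := by
    rcases Nat.eq_zero_or_pos r with h | h
    · subst h; simp at hkr
    · exact h
  have hpos : ∀ i, 0 < N i * G := fun i => by
    rw [← hx]
    exact prod_pos fun a _ => by have := hx1 i; omega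
  have hNpos : ∀ i, 0 < N i := fun i => Nat.pos_of_mul_pos_right (hpos i)
  have hG0 : G ≠ 0 := (Nat.pos_of_mul_pos_left (hpos ⟨0, hr0⟩)).ne'
  set δ := k ! with hδ
  have hδ0 : 0 < δ := factorial_pos k
  obtain ⟨a, δ', hδ', hδa⟩ := Nat.exists_eq_pow_mul_and_not_dvd hδ0.ne' 2 (by norm_num)
  have hak : a ≤ k := by
    have h1 := sub_one_mul_padicValNat_factorial (p := 2) k
    have h2 : a ≤ padicValNat 2 k ! :=
      (padicValNat_dvd_iff_le hδ0.ne').1 (Dvd.intro _ hδa.symm)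
    omega
  obtain ⟨V, u, hu, hVu⟩ := Nat.exists_eq_pow_mul_and_not_dvd hG0 2 (by norm_num)
  have hV : v + k ^ 2 ≤ V := by
    rw [hVu] at hG
    exact (Nat.pow_dvd_pow_iff_le_right (by norm_num)).1
      ((Nat.Coprime.pow_left _ ((Nat.Prime.coprime_iff_not_dvd Nat.prime_two).2
        hu)).dvd_of_dvd_mul_right hG)
  have hak2 : a * k ≤ k ^ 2 := by rw [pow_two]; exact Nat.mul_le_mul_right _ hak
  obtain ⟨w, hw⟩ : ∃ w, V = a * k + w := ⟨V - a * k, by omega⟩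
  have hvw : v ≤ w := by omega
  have hv0 : 0 < v := by
    rcases Nat.eq_zero_or_pos v with h | h
    · subst h; simp at c2
    · exact h
  have hGw : G = 2 ^ (a * k) * (2 ^ w * u) := by rw [hVu, hw]; ring
  have hj : ∀ i, ∃ j < k, 2 ^ (a + 1) ∣ x i + j := by
    intro i
    by_contra hcon
    push Not at hcon
    have h1 : ∀ j ∈ range k, (x i + j).factorization 2 ≤ a := by
      intro j hj
      by_contra h2
      exact hcon j (mem_range.1 hj) ((Nat.prime_two.pow_dvd_iff_le_factorization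
        (by have := hx1 i; omega)).2 (by omega))
    have h2 : (∏ j ∈ range k, (x i + j)).factorization 2 ≤ k * a := by
      rw [Nat.factorization_prod fun j _ => by have := hx1 i; omega, Finsupp.finsetSum_apply]
      simpa using sum_le_card_nsmul _ _ _ h1
    have h3 : 2 ^ V ∣ ∏ j ∈ range k, (x i + j) := by
      rw [hx, hVu]; exact Dvd.dvd.mul_left (Dvd.intro _ rfl) _
    have h4 := (Nat.prime_two.pow_dvd_iff_le_factorization (by
      rw [hx]; exact (hpos i).ne')).1 h3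
    rw [mul_comm] at h2
    omega
  choose j hjk hjp using hj
  have hbr := fun i => branch2 k (j i) 1 1 (hjk i) le_rfl one_pos
  choose y z hyz hy hyM using hbr
  set Y : Fin r → ℤ⟦X⟧ := fun i => rescale (N i : ℤ) (y i) with hYdef
  set Z : Fin r → ℤ⟦X⟧ := fun i => rescale (N i : ℤ) (z i) with hZdef
  set Λ : ℕ := 6 * k * δ ^ k * 2 ^ h with hΛ
  have hZ : ∀ i, X ∣ Z i := by
    intro i
    obtain ⟨g, hg⟩ := (hyz i).1
    have := congrArg (rescale (N i : ℤ)) hg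
    rw [map_mul, rescale_X] at this
    exact ⟨C (N i : ℤ) * rescale (N i : ℤ) g, by rw [hZdef]; linear_combination this⟩
  have hYZ : ∀ i, Y i + C (j i : ℤ) = C ((k ! : ℕ) : ℤ) * Z i := by
    intro i
    have := congrArg (rescale (N i : ℤ)) (hyz i).2
    rwa [map_add, rescale_C', map_mul, rescale_C'] at this
  have hY : ∀ i, ∏ a ∈ range k, (Y i + C (a : ℤ)) = C ((N i * δ ^ k : ℕ) : ℤ) * X := by
    intro i
    have := congrArg (rescale (N i : ℤ)) (hy i)
    rw [map_prod, map_mul, rescale_C', rescale_X] at this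
    simp only [map_add, rescale_C'] at this
    rw [hYdef, this, ← mul_assoc, ← map_mul]
    congr 2
    push_cast
    ring
  have hYM : ∀ i, Maj (1 / (Λ : ℝ)) (Y i) (2 * k) := by
    intro i
    have := (hyM i).rescale (by positivity) (N i) (2 ^ h) (hN i) (by positivity)
    convert this using 1
    rw [hΛ, div_div]
    push_cast
    ring
  have hΛ4 : 2 * k * k ≤ Λ := by
    have h1 : k ≤ δ ^ k := (Nat.self_le_factorial k).trans (Nat.le_self_pow (by omega) _)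
    have h2 : 1 ≤ 2 ^ h := Nat.one_le_two_pow
    calc 2 * k * k ≤ 6 * k * k * 1 := by nlinarith
      _ ≤ Λ := by rw [hΛ]; gcongr
  have hk2 : k ≤ 2 ^ k := Nat.lt_two_pow_self.le
  set E := h + 2 * k ^ 3 with hE
  have hΛle : Λ ≤ 2 ^ E := by
    have h1 : δ ^ k ≤ 2 ^ (k ^ 3) := by
      calc δ ^ k ≤ (k ^ k) ^ k := Nat.pow_le_pow_left (Nat.factorial_le_pow k) k
        _ ≤ ((2 ^ k) ^ k) ^ k := by gcongr
        _ = _ := by rw [← pow_mul, ← pow_mul]; congr 1; ring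
    have h2 : 6 * k ≤ 2 ^ (k ^ 3) := by
      calc 6 * k ≤ 2 ^ 3 * 2 ^ k := by omega
        _ = 2 ^ (3 + k) := by rw [pow_add]
        _ ≤ _ := Nat.pow_le_pow_right (by norm_num) (by nlinarith [Nat.mul_le_mul hk hk])
    calc Λ ≤ 2 ^ (k ^ 3) * 2 ^ (k ^ 3) * 2 ^ h := by rw [hΛ]; gcongr
      _ = _ := by rw [hE, ← pow_add, ← pow_add]; congr 1; ring
  have hxk : ∀ i, x i ^ k ≤ 2 ^ Λ0 := by
    intro i
    calc x i ^ k = ∏ _a ∈ range k, x i := by simp
      _ ≤ ∏ a ∈ range k, (x i + a) := prod_le_prod' fun a _ => Nat.le_add_right _ _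
      _ = N i * G := hx i
      _ ≤ _ := hM i
  have hcard : Fintype.card (Fin r → Fin k) = k ^ r := by simp
  obtain ⟨c, Hc, hc0, hc, hH0, hcH, hHc⟩ := small_relation (β := Fin r → Fin k)
    (by rw [hcard]; omega) (fun e => ∏ i, x i ^ (e i : ℕ)) (2 ^ (Λ0 * r))
    (Nat.one_le_two_pow) (fun e => by
      calc ∏ i, x i ^ (e i : ℕ) ≤ ∏ _i : Fin r, 2 ^ Λ0 :=
            prod_le_prod' fun i _ =>
              (Nat.pow_le_pow_right (hx1 i) (e i).2.le).trans (hxk i)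
        _ = _ := by rw [prod_const, Finset.card_univ, Fintype.card_fin, ← pow_mul])
  rw [hcard] at hHc
  push_cast at hc hHc
  set F := ∑ e : Fin r → Fin k, C (c e) * ∏ i, Y i ^ (e i : ℕ) with hF
  have hF0 : F ≠ 0 := fun h0 => hc0 (indep2 ((1 * k ! ^ k : ℕ) : ℤ) r y (fun i => (N i : ℤ)) hy
    (fun i => by
      obtain ⟨q, hq, hkq, hlt⟩ := hch i
      refine ⟨q, (N i).factorization q, hq, ?_, ?_, ?_, fun j hj => ?_⟩
      · rw [Int.natCast_dvd_natCast, one_mul, ← Nat.Prime.coprime_iff_not_dvd hq]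
        exact Nat.Coprime.pow_right _ (hq.coprime_factorial_of_lt hkq)
      · exact_mod_cast Nat.ordProj_dvd (N i) q
      · exact_mod_cast Nat.pow_succ_factorization_not_dvd (hNpos i).ne' hq
      · exact_mod_cast (hq.pow_dvd_iff_le_factorization (hNpos j).ne').2 (hlt j hj)) c h0)
  have hex : ∃ σ, σ ≤ r * k * k ^ r ∧ coeff σ F ≠ 0 :=
    order_bound (by omega) Y (fun i => N i * δ ^ k) hY c hF0
  set σ := Nat.find hex with hσ
  obtain ⟨hσ1, hσ2⟩ : σ ≤ r * k * k ^ r ∧ coeff σ F ≠ 0 := Nat.find_spec hex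
  have hXσ : X ^ σ ∣ F := by
    rw [X_pow_dvd_iff]
    intro a ha
    by_contra h
    exact Nat.find_min hex ha ⟨by omega, h⟩
  have hdvd := dvd2 hδa hδ' hu Y Z N x j hjk hjp hZ hYZ hY (fun i => by rw [hx, hGw]) c hc hXσ
  have hkR : (2 : ℝ) ≤ k := by exact_mod_cast hk
  have hΛR : (1 : ℝ) ≤ Λ := by exact_mod_cast (by nlinarith : 1 ≤ Λ)
  have hq : (0 : ℝ) ≤ 1 / (Λ : ℝ) := by positivity
  have hFM : Maj (1 / (Λ : ℝ)) F (k ^ r * (Hc * ((2 * k) ^ k) ^ r)) := by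
    have := maj_sum (c := Hc * ((2 * k) ^ k) ^ r) hq
      (fun e : Fin r → Fin k => C (c e) * ∏ i, Y i ^ (e i : ℕ)) univ (fun e _ => by
        have b1 : ∀ i, Maj (1 / (Λ : ℝ)) (Y i ^ (e i : ℕ)) ((2 * k) ^ k) := by
          intro i
          have := maj_prod hq (fun _ => Y i) (range (e i)) fun _ _ => hYM i
          rw [prod_const, card_range] at this
          exact this.mono (pow_le_pow_right₀ (by linarith) (e i).2.le)
        have b2 := maj_prod hq (fun i => Y i ^ (e i : ℕ)) univ fun i _ => b1 i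
        rw [Finset.card_univ, Fintype.card_fin] at b2
        exact ((maj_C _ (c e)).mul hq b2).mono
          (mul_le_mul_of_nonneg_right (hcH e) (by positivity)))
    rw [Finset.card_univ, hcard] at this
    push_cast at this
    exact this
  set s := r * k * k ^ r with hs
  have h1 : (2 : ℝ) ^ w ≤ Hc * (Λ : ℝ) ^ (2 * s) := by
    have a1 : ((2 ^ w : ℕ) : ℤ) ≤ |coeff σ F| :=
      Int.le_of_dvd (abs_pos.2 hσ2) ((dvd_abs _ _).2 hdvd)
    have a2 : (2 : ℝ) ^ w ≤ |((coeff σ F : ℤ) : ℝ)| := by exact_mod_cast a1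
    have a3 := hFM.coeff_le hq σ
    rw [one_div, inv_pow, ← div_eq_mul_inv, div_le_iff₀ (by positivity)] at a3
    have a4 : (k : ℝ) ^ r * ((2 * k) ^ k) ^ r ≤ (Λ : ℝ) ^ s := by
      have b1 : (2 : ℝ) * k * k ≤ Λ := by exact_mod_cast hΛ4
      calc (k : ℝ) ^ r * ((2 * k) ^ k) ^ r ≤ ((k : ℝ) ^ k) ^ r * ((2 * k) ^ k) ^ r := by
            gcongr
            exact le_self_pow₀ (by linarith) (by omega)
        _ = (2 * k * k) ^ (r * k) := by rw [← mul_pow, ← mul_pow, ← pow_mul]; ring_nf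
        _ ≤ (Λ : ℝ) ^ (r * k) := pow_le_pow_left₀ (by positivity) b1 _
        _ ≤ _ := pow_le_pow_right₀ hΛR (Nat.le_mul_of_pos_right _ (by omega))
    have a5 : (Λ : ℝ) ^ σ ≤ (Λ : ℝ) ^ s := pow_le_pow_right₀ hΛR hσ1
    calc (2 : ℝ) ^ w ≤ k ^ r * (Hc * ((2 * k) ^ k) ^ r) * (Λ : ℝ) ^ σ := a2.trans a3
      _ = Hc * ((k ^ r * ((2 * k) ^ k) ^ r) * (Λ : ℝ) ^ σ) := by ring
      _ ≤ Hc * ((Λ : ℝ) ^ s * (Λ : ℝ) ^ s) := by gcongr
      _ = _ := by rw [← pow_add, two_mul]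
  have h2 : ((Λ : ℝ) ^ (2 * s)) ^ 2 ≤ (2 : ℝ) ^ w := by
    have a2 : (Λ ^ (2 * s)) ^ 2 ≤ 2 ^ w := by
      calc (Λ ^ (2 * s)) ^ 2 ≤ ((2 ^ E) ^ (2 * s)) ^ 2 := by gcongr
        _ = 2 ^ (4 * s * E) := by rw [← pow_mul, ← pow_mul]; congr 1; ring
        _ ≤ 2 ^ w := Nat.pow_le_pow_right (by norm_num) (c1.trans hvw)
    exact_mod_cast a2
  have hpv : (0 : ℝ) < (2 : ℝ) ^ w := by positivity
  have h3 : (2 : ℝ) ^ w ≤ Hc ^ 2 := by
    have a1 : (2 : ℝ) ^ w * (2 : ℝ) ^ w ≤ Hc ^ 2 * (2 : ℝ) ^ w := by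
      calc (2 : ℝ) ^ w * (2 : ℝ) ^ w ≤ (Hc * (Λ : ℝ) ^ (2 * s)) ^ 2 := by
            rw [pow_two]; exact mul_le_mul h1 h1 hpv.le (hpv.le.trans h1)
        _ = Hc ^ 2 * ((Λ : ℝ) ^ (2 * s)) ^ 2 := by ring
        _ ≤ _ := by gcongr
    exact le_of_mul_le_mul_right a1 hpv
  have h4 : (2 : ℝ) ^ (w * (k ^ r - 1)) ≤ (2 : ℝ) ^ (2 * r * (k + Λ0)) := by
    have a1 : (k : ℝ) ≤ 2 ^ k := by exact_mod_cast hk2
    calc (2 : ℝ) ^ (w * (k ^ r - 1)) = ((2 : ℝ) ^ w) ^ (k ^ r - 1) := by rw [← pow_mul]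
      _ ≤ (Hc ^ 2) ^ (k ^ r - 1) := by gcongr
      _ = (Hc ^ (k ^ r - 1)) ^ 2 := by rw [← pow_mul, ← pow_mul, mul_comm]
      _ ≤ ((k : ℝ) ^ r * 2 ^ (Λ0 * r)) ^ 2 := by gcongr
      _ ≤ (((2 : ℝ) ^ k) ^ r * 2 ^ (Λ0 * r)) ^ 2 := by gcongr
      _ = _ := by rw [← pow_mul, ← pow_add, ← pow_mul]; congr 1; ring
  have h5 : w * (k ^ r - 1) ≤ 2 * r * (k + Λ0) :=
    (pow_le_pow_iff_right₀ (by norm_num : (1 : ℝ) < 2)).1 h4
  have h6 := Nat.mul_le_mul_right (k ^ r - 1) hvw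
  omega

end Pool.Agent.H41Fact
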