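import Pool.Agent.MP_7a723b_nt.ProdA

/-! Few products of `k` consecutive integers are products of factorials. -/

namespace Pool.Agent.H41Fact

open Finset Nat Pool.Agent.H79Fact

lemma chain (k T : ℕ) (hT : 1 ≤ T) : ∀ (r : ℕ) (S : Finset ℕ), (∀ m ∈ S, m ≠ 0) →
    (∀ m ∈ S, ∀ q, q.Prime → q ∣ m → q ≤ T) →
    (∀ m ∈ S, ∀ m' ∈ S, ∀ p ≤ k, m.factorization p = m'.factorization p) →
    (T + 1) ^ r ≤ S.card → ∃ f : Fin r → ℕ, (∀ i, f i ∈ S) ∧ ∀ i, ∃ q, q.Prime ∧ k < q ∧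
      ∀ j, i < j → (f i).factorization q < (f j).factorization q := by
  classical
  intro r
  induction r with
  | zero => intro S _ _ _ _; exact ⟨Fin.elim0, fun i => i.elim0, fun i => i.elim0⟩
  | succ r ih =>
    intro S h0 hq hk hc
    have hp1 : 1 ≤ (T + 1) ^ r := Nat.one_le_pow _ _ (by omega)
    have hc' : (T + 1) ^ r * T + (T + 1) ^ r ≤ S.card := by rw [_root_.pow_succ] at hc; linarith
    have hne : S.Nonempty := card_pos.1 (by omega)
    set s0 := S.min' hne with hs0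
    have hs0S : s0 ∈ S := min'_mem _ _
    have hex : ∀ s ∈ S.erase s0, ∃ q, q.Prime ∧ k < q ∧ q ≤ T ∧
        s0.factorization q < s.factorization q := by
      intro s hs
      obtain ⟨hne', hsS⟩ := mem_erase.1 hs
      have hlt : s0 < s := lt_of_le_of_ne (min'_le _ _ hsS) (Ne.symm hne')
      have hnd : ¬ s ∣ s0 := fun h => absurd (Nat.le_of_dvd (Nat.pos_of_ne_zero (h0 _ hs0S)) h)
        (by omega)
      rw [← Nat.factorization_prime_le_iff_dvd (h0 _ hsS) (h0 _ hs0S)] at hnd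
      push Not at hnd
      obtain ⟨q, hq1, hq2⟩ := hnd
      refine ⟨q, hq1, ?_, hq s hsS q hq1 (Nat.dvd_of_factorization_pos (by omega)), hq2⟩
      by_contra hle
      have := hk s hsS s0 hs0S q (by omega)
      omega
    choose! ph hph using hex
    obtain ⟨q, -, hq2⟩ := exists_le_card_fiber_of_mul_le_card_of_maps_to (f := ph)
      (s := S.erase s0) (t := Icc 1 T) (n := (T + 1) ^ r) (fun s hs => by
        obtain ⟨a1, -, a3, -⟩ := hph s hs
        exact mem_Icc.2 ⟨a1.pos, a3⟩) ⟨1, mem_Icc.2 ⟨le_rfl, hT⟩⟩ (by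
        rw [Nat.card_Icc, card_erase_of_mem hs0S, Nat.add_sub_cancel, mul_comm]
        omega)
    set S' := (S.erase s0).filter (fun s => ph s = q) with hS'
    have hsub : ∀ s ∈ S', s ∈ S := fun s hs => mem_of_mem_erase (mem_filter.1 hs).1
    have hqq : ∀ s ∈ S', q.Prime ∧ k < q ∧ s0.factorization q < s.factorization q := by
      intro s hs
      obtain ⟨a1, a2⟩ := mem_filter.1 hs
      obtain ⟨b1, b2, -, b4⟩ := hph s a1
      rw [a2] at b1 b2 b4
      exact ⟨b1, b2, b4⟩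
    obtain ⟨s1, hs1⟩ : S'.Nonempty := card_pos.1 (by omega)
    obtain ⟨f, hf1, hf2⟩ := ih S' (fun m hm => h0 m (hsub m hm)) (fun m hm => hq m (hsub m hm))
      (fun m hm m' hm' => hk m (hsub m hm) m' (hsub m' hm')) hq2
    refine ⟨Fin.cons s0 f, fun i => ?_, fun i => ?_⟩
    · refine Fin.cases ?_ (fun i => ?_) i
      · simpa using hs0S
      · simpa using hsub _ (hf1 i)
    · refine Fin.cases ?_ (fun i => ?_) i
      · refine ⟨q, (hqq s1 hs1).1, (hqq s1 hs1).2.1, fun j => ?_⟩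
        refine Fin.cases (fun h => absurd h (lt_irrefl _)) (fun j _ => ?_) j
        simpa using (hqq _ (hf1 j)).2.2
      · obtain ⟨p, a1, a2, a3⟩ := hf2 i
        refine ⟨p, a1, a2, fun j => ?_⟩
        refine Fin.cases (fun h => absurd h (Fin.not_lt_zero _)) (fun j hj => ?_) j
        simpa using a3 j (Fin.succ_lt_succ_iff.1 hj)

/-- numbers with at most `m + 1` significant binary digits -/
def grid (l m : ℕ) : Finset ℕ :=
  (range (l + 1) ×ˢ range (2 ^ (m + 1))).image fun p => p.2 * 2 ^ p.1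

lemma card_grid (l m : ℕ) : (grid l m).card ≤ (l + 1) * 2 ^ (m + 1) := by
  refine card_image_le.trans ?_
  rw [card_product, card_range, card_range]

lemma round_one (l m a : ℕ) (ha1 : 1 ≤ a) (ha : a ≤ 2 ^ l) :
    ∃ γ ∈ grid l m, γ ≤ a ∧ 2 ^ m * (a - γ) ≤ a := by
  set e := Nat.log 2 a - m with he
  have h1 : Nat.log 2 a ≤ l := by
    have := Nat.log_mono_right (b := 2) ha
    rwa [Nat.log_pow (by norm_num)] at this
  have h2 : a < 2 ^ (Nat.log 2 a + 1) := Nat.lt_pow_succ_log_self (by norm_num) a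
  have h3 : 2 ^ Nat.log 2 a ≤ a := Nat.pow_log_le_self 2 (by omega)
  refine ⟨a / 2 ^ e * 2 ^ e, mem_image.2 ⟨(e, a / 2 ^ e), mem_product.2 ⟨mem_range.2 (by
    simp only; omega), mem_range.2 ?_⟩, rfl⟩, Nat.div_mul_le_self _ _, ?_⟩
  · simp only
    rw [Nat.div_lt_iff_lt_mul (by positivity), ← pow_add]
    exact h2.trans_le (Nat.pow_le_pow_right (by norm_num) (by omega))
  · have h4 : a - a / 2 ^ e * 2 ^ e = a % 2 ^ e := by
      have := Nat.div_add_mod' a (2 ^ e); omega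
    rw [h4]
    rcases Nat.eq_zero_or_pos e with h | h
    · rw [h, pow_zero, Nat.mod_one]; simp
    · calc 2 ^ m * (a % 2 ^ e) ≤ 2 ^ m * 2 ^ e :=
            Nat.mul_le_mul_left _ (Nat.mod_lt _ (by positivity)).le
        _ = 2 ^ Nat.log 2 a := by rw [← pow_add]; congr 1; omega
        _ ≤ a := h3

lemma round_all (l m : ℕ) (s : Multiset ℕ) (h : ∀ a ∈ s, 1 ≤ a ∧ a ≤ 2 ^ l) :
    ∃ (ν : ℕ → ℕ) (N : ℕ), (s.map factorial).prod = N * ∏ γ ∈ grid l m, γ ! ^ ν γ ∧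
      N ^ (2 ^ m) ≤ 2 ^ (l * s.sum) ∧ ∀ γ, ν γ ≤ s.sum := by
  classical
  induction s using Multiset.induction_on with
  | empty => exact ⟨fun _ => 0, 1, by simp, by simp, by simp⟩
  | cons a s ih =>
    obtain ⟨ν, N, h1, h2, h3⟩ := ih fun b hb => h b (Multiset.mem_cons_of_mem hb)
    obtain ⟨ha1, ha2⟩ := h a (Multiset.mem_cons_self _ _)
    obtain ⟨γ, hγ, hγa, hγ2⟩ := round_one l m a ha1 ha2
    refine ⟨fun t => ν t + if γ = t then 1 else 0, N * (γ + 1).ascFactorial (a - γ), ?_, ?_, ?_⟩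
    · have e : a ! = γ ! * (γ + 1).ascFactorial (a - γ) := by
        rw [Nat.factorial_mul_ascFactorial, Nat.add_sub_cancel' hγa]
      simp only [pow_add, prod_mul_distrib]
      rw [prod_pow_boole, if_pos hγ, Multiset.map_cons, Multiset.prod_cons, h1, e]
      ring
    · have e : (γ + 1).ascFactorial (a - γ) ≤ (2 ^ l) ^ (a - γ) :=
        (Nat.ascFactorial_le_pow_add _ _).trans (Nat.pow_le_pow_left (by omega) _)
      have e2 : (γ + 1).ascFactorial (a - γ) ^ (2 ^ m) ≤ 2 ^ (l * a) := by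
        refine (Nat.pow_le_pow_left e _).trans ?_
        rw [← pow_mul, ← pow_mul]
        refine Nat.pow_le_pow_right (by norm_num) (Nat.mul_le_mul_left _ ?_)
        rw [mul_comm]; exact hγ2
      rw [mul_pow, Multiset.sum_cons, mul_add, pow_add, mul_comm (2 ^ (l * a))]
      exact Nat.mul_le_mul h2 e2
    · intro t
      have := h3 t
      rw [Multiset.sum_cons]
      dsimp only
      split_ifs <;> omega

lemma prod_fact_le (B : ℕ) (s : Multiset ℕ) (h : ∀ a ∈ s, a ≤ B) :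
    (s.map factorial).prod ≤ B ^ s.sum := by
  induction s using Multiset.induction_on with
  | empty => simp
  | cons a s ih =>
    rw [Multiset.map_cons, Multiset.prod_cons, Multiset.sum_cons, pow_add]
    exact Nat.mul_le_mul ((Nat.factorial_le_pow a).trans
      (Nat.pow_le_pow_left (h a (Multiset.mem_cons_self _ _)) _))
      (ih fun b hb => h b (Multiset.mem_cons_of_mem hb))

lemma prime_le_of_dvd {q : ℕ} (hq : q.Prime) (s : Multiset ℕ)
    (h : q ∣ (s.map factorial).prod) : ∃ a ∈ s, q ≤ a := by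
  obtain ⟨b, hb, hqb⟩ := hq.prime.exists_mem_multiset_dvd h
  obtain ⟨a, ha, rfl⟩ := Multiset.mem_map.1 hb
  exact ⟨a, ha, hq.dvd_factorial.1 hqb⟩

lemma count_k (k l m r h v : ℕ) (hk : 2 ≤ k) (hh : l * 2 ^ l ≤ h * 2 ^ m)
    (c1 : 4 * (r * k * k ^ r) * (h + 2 * k ^ 3) ≤ v)
    (c2 : 2 * r * (k + l * 2 ^ l) < v * (k ^ r - 1)) (S : Finset ℕ)
    (hS : ∀ x ∈ S, 1 ≤ x ∧ ∃ s : Multiset ℕ, (∀ a ∈ s, 1 ≤ a) ∧ s.sum ≤ 2 ^ l ∧
      ∏ i ∈ range k, (x + i) = (s.map factorial).prod ∧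
      2 ^ (v + k ^ 2 + h) ∣ (s.map factorial).prod) :
    S.card ≤ (2 ^ l + 1) ^ r * ((2 ^ l + 1) ^ (grid l m).card * (h + 1) ^ (k + 1)) := by
  classical
  have key : ∀ x ∈ S, ∃ (ν : ℕ → ℕ) (N : ℕ),
      ∏ i ∈ range k, (x + i) = N * ∏ γ ∈ grid l m, γ ! ^ ν γ ∧ N ≤ 2 ^ h ∧
      (∀ γ, ν γ ≤ 2 ^ l) ∧ ∏ i ∈ range k, (x + i) ≤ 2 ^ (l * 2 ^ l) ∧
      (∀ q, q.Prime → q ∣ N → q ≤ 2 ^ l) ∧ 2 ^ (v + k ^ 2) ∣ ∏ γ ∈ grid l m, γ ! ^ ν γ ∧
      N ≠ 0 ∧ ∀ p, N.factorization p ≤ h := by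
    intro x hx
    obtain ⟨hx1, s, h1, h2, h3, h4⟩ := hS x hx
    have hle : ∀ a ∈ s, a ≤ 2 ^ l := fun a ha =>
      (Multiset.single_le_sum (fun _ _ => Nat.zero_le _) a ha).trans h2
    obtain ⟨ν, N, b1, b2, b3⟩ := round_all l m s fun a ha => ⟨h1 a ha, hle a ha⟩
    have hpos : 0 < ∏ i ∈ range k, (x + i) := prod_pos fun i _ => by omega
    have hN : N ≤ 2 ^ h := by
      have : N ^ (2 ^ m) ≤ (2 ^ h) ^ (2 ^ m) := by
        rw [← pow_mul]
        exact b2.trans (Nat.pow_le_pow_right (by norm_num)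
          ((Nat.mul_le_mul_left _ h2).trans hh))
      exact (Nat.pow_le_pow_iff_left (by positivity)).1 this
    rw [h3, b1] at hpos
    have hN0 : N ≠ 0 := (Nat.pos_of_mul_pos_right hpos).ne'
    have hG0 := (Nat.pos_of_mul_pos_left hpos).ne'
    have hfac : ∀ p, N.factorization p ≤ h := by
      intro p
      by_cases hp : p.Prime
      · have a1 : 2 ^ N.factorization p ≤ 2 ^ h :=
          (Nat.pow_le_pow_left hp.two_le _).trans ((Nat.ordProj_le p hN0).trans hN)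
        exact (Nat.pow_le_pow_iff_right (by norm_num)).1 a1
      · rw [Nat.factorization_eq_zero_of_not_prime _ hp]; exact Nat.zero_le _
    refine ⟨ν, N, h3.trans b1, hN, fun γ => (b3 γ).trans h2, ?_, fun q hq hqN => ?_, ?_, hN0, hfac⟩
    · rw [h3, pow_mul]
      exact (prod_fact_le _ s hle).trans (Nat.pow_le_pow_right (by positivity) h2)
    · obtain ⟨a, ha, hqa⟩ := prime_le_of_dvd hq s (by rw [b1]; exact hqN.mul_right _)
      exact hqa.trans (hle a ha)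
    · rw [b1, Nat.prime_two.pow_dvd_iff_le_factorization hpos.ne',
        Nat.factorization_mul hN0 hG0, Finsupp.add_apply] at h4
      rw [Nat.prime_two.pow_dvd_iff_le_factorization hG0]
      have := hfac 2
      omega
  choose! ν N k1 k2 k3 k4 k5 k6 k7 k8 using key
  let f : ℕ → (grid l m → ℕ) × (Fin (k + 1) → ℕ) := fun x =>
    (fun γ => ν x γ, fun p => (N x).factorization p)
  have h2 := card_le_mul_card_image_of_maps_to (f := f) (s := S)
    (t := (Fintype.piFinset fun _ : grid l m => range (2 ^ l + 1)) ×ˢ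
      (Fintype.piFinset fun _ : Fin (k + 1) => range (h + 1))) (fun x hx => by
      rw [mem_product, Fintype.mem_piFinset, Fintype.mem_piFinset]
      exact ⟨fun γ => mem_range.2 (Nat.lt_succ_of_le (k3 x hx γ)),
        fun p => mem_range.2 (Nat.lt_succ_of_le (k8 x hx p))⟩) ((2 ^ l + 1) ^ r) (by
      intro b _
      by_contra hcon
      set U := S.filter (fun x => f x = b) with hU
      have hUS : ∀ x ∈ U, x ∈ S := fun x hx => (mem_filter.1 hx).1
      have hUf : ∀ x ∈ U, ∀ x' ∈ U, f x = f x' := fun x hx x' hx' =>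
        (mem_filter.1 hx).2.trans (mem_filter.1 hx').2.symm
      have hG : ∀ x ∈ U, ∀ x' ∈ U,
          ∏ γ ∈ grid l m, γ ! ^ ν x γ = ∏ γ ∈ grid l m, γ ! ^ ν x' γ := by
        intro x hx x' hx'
        refine prod_congr rfl fun γ hγ => ?_
        have := congrFun (congrArg Prod.fst (hUf x hx x' hx')) ⟨γ, hγ⟩
        simp only [f] at this
        rw [this]
      have hmono : ∀ x ∈ U, ∀ x' ∈ U, x < x' → N x ≠ N x' := by
        intro x hx x' hx' hlt e
        have a1 : ∏ i ∈ range k, (x + i) < ∏ i ∈ range k, (x' + i) :=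
          prod_lt_prod_of_nonempty (fun i _ => by have := (hS x (hUS x hx)).1; omega)
            (fun i _ => by omega) ⟨0, mem_range.2 (by omega)⟩
        rw [k1 x (hUS x hx), k1 x' (hUS x' hx'), e, hG x hx x' hx'] at a1
        exact lt_irrefl _ a1
      have hinj : Set.InjOn N U := by
        intro x hx x' hx' e
        rcases lt_trichotomy x x' with h1 | h1 | h1
        · exact absurd e (hmono x hx x' hx' h1)
        · exact h1
        · exact absurd e.symm (hmono x' hx' x hx h1)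
      obtain ⟨g, hg1, hg2⟩ := chain k (2 ^ l) Nat.one_le_two_pow r (U.image N) (by
          intro n hn
          obtain ⟨x, hx, rfl⟩ := mem_image.1 hn
          exact k7 x (hUS x hx)) (by
          intro n hn
          obtain ⟨x, hx, rfl⟩ := mem_image.1 hn
          exact k5 x (hUS x hx)) (by
          intro n hn n' hn' p hp
          obtain ⟨x, hx, rfl⟩ := mem_image.1 hn
          obtain ⟨x', hx', rfl⟩ := mem_image.1 hn'
          exact congrFun (congrArg Prod.snd (hUf x hx x' hx')) ⟨p, by omega⟩) (by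
          rw [Finset.card_image_of_injOn hinj]; omega)
      choose x hx1 hx2 using fun i => mem_image.1 (hg1 i)
      obtain ⟨x0, hx0⟩ : U.Nonempty := card_pos.1 (by omega)
      have hx3 : ∀ i, ∏ a ∈ range k, (x i + a) = g i * ∏ γ ∈ grid l m, γ ! ^ ν x0 γ := fun i => by
        rw [k1 _ (hUS _ (hx1 i)), hx2, hG _ (hx1 i) _ hx0]
      exact window2 k r h v (l * 2 ^ l) _ hk x g hx3 (fun i => (hS _ (hUS _ (hx1 i))).1)
        (fun i => by rw [← hx3]; exact k4 _ (hUS _ (hx1 i)))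
        (fun i => by rw [← hx2]; exact k2 _ (hUS _ (hx1 i))) (k6 _ (hUS _ hx0)) hg2 c1 c2)
  rw [card_product, Fintype.card_piFinset, Fintype.card_piFinset] at h2
  simpa using h2

lemma count_l (k l : ℕ) (hk : 2 ≤ k) (hk2 : k ≤ 13 * l) (hT : 10 ^ 13 * l ^ 10 ≤ 2 ^ l)
    (S : Finset ℕ)
    (hS : ∀ x ∈ S, 1 ≤ x ∧ ∃ (s : Multiset ℕ) (W : ℕ), (∀ a ∈ s, 1 ≤ a) ∧ s.sum ≤ 2 ^ l ∧
      ∏ i ∈ range k, (x + i) = (s.map factorial).prod ∧
      2 ^ W ∣ (s.map factorial).prod ∧ 2 ^ l ≤ 96 * l * W) :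
    S.card ≤ 2 ^ (10 ^ 12 * l ^ 10) := by
  have hl : 1 ≤ l := by omega
  have hpw : ∀ a b : ℕ, a ≤ b → l ^ a ≤ l ^ b := fun a b h => Nat.pow_le_pow_right hl h
  have p1 : l ≤ l ^ 3 := by simpa using hpw 1 3 (by norm_num)
  have p2 := hpw 3 7 (by norm_num)
  have p3 := hpw 7 10 (by norm_num)
  have p4 := hpw 2 3 (by norm_num)
  have p5 := hpw 3 9 (by norm_num)
  set r := Nat.clog k (2000 * l ^ 3) with hr
  have r1 : 2000 * l ^ 3 ≤ k ^ r := Nat.le_pow_clog (by omega) _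
  have r2 : r ≤ l := Nat.clog_le_of_le_pow
    (le_trans (by omega) (Nat.pow_le_pow_left hk l))
  have r3 : k ^ r ≤ 13 * l * (2000 * l ^ 3) := by
    have a1 := Nat.pow_pred_clog_lt_self (b := k) (by omega) (x := 2000 * l ^ 3) (by omega)
    have a2 : 0 < r := Nat.clog_pos (by omega) (by omega)
    rw [← hr, Nat.pred_eq_sub_one] at a1
    have e : k ^ r = k * k ^ (r - 1) := by rw [← _root_.pow_succ']; congr 1; omega
    rw [e]
    exact Nat.mul_le_mul hk2 a1.le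
  have q0 : 1 ≤ l ^ 8 := Nat.one_le_pow _ _ hl
  set m := Nat.clog 2 (10 ^ 10 * l ^ 8) with hm
  have m1 : 10 ^ 10 * l ^ 8 ≤ 2 ^ m := Nat.le_pow_clog (by norm_num) _
  have m2 : 2 ^ (m + 1) ≤ 4 * (10 ^ 10 * l ^ 8) := by
    have a1 := Nat.pow_pred_clog_lt_self (b := 2) (by norm_num) (x := 10 ^ 10 * l ^ 8) (by omega)
    have a2 : 0 < m := Nat.clog_pos (by norm_num) (by omega)
    rw [← hm, Nat.pred_eq_sub_one] at a1
    have e : 2 ^ (m + 1) = 4 * 2 ^ (m - 1) := by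
      rw [show m + 1 = 2 + (m - 1) by omega, pow_add]; norm_num
    omega
  set T := 2 ^ l with hTd
  set g := l * T / 2 ^ m with hg
  have g1 : l * T ≤ (g + 1) * 2 ^ m := by
    have := Nat.lt_mul_div_succ (l * T) (show 0 < 2 ^ m by positivity)
    rw [mul_comm (g + 1)]; exact this.le
  have g2 : 10 ^ 10 * (l ^ 7 * g) ≤ T := by
    have a1 : g * (10 ^ 10 * l ^ 8) ≤ l * T :=
      (Nat.mul_le_mul_left _ m1).trans (Nat.div_mul_le_self _ _)
    have a2 : g * (10 ^ 10 * l ^ 8) = l * (10 ^ 10 * (l ^ 7 * g)) := by ring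
    rw [a2] at a1
    exact Nat.le_of_mul_le_mul_left a1 hl
  have g3 : l * g ≤ l ^ 7 * g := Nat.mul_le_mul_right _ (by omega)
  set v := T / (200 * l) with hv
  have v1 : 200 * (l * v) ≤ T := by
    have := Nat.mul_div_le T (200 * l)
    rwa [mul_assoc] at this
  have v2 : T < 200 * (l * v) + 200 * l := by
    have := Nat.lt_mul_div_succ T (show 0 < 200 * l by omega)
    rw [← hv, mul_add, mul_one, mul_assoc] at this
    exact this
  have v3 : 1 ≤ v := by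
    rw [hv, Nat.le_div_iff_mul_le (by omega)]; omega
  have v4 : l ≤ l * v := Nat.le_mul_of_pos_right _ v3
  have k3 : k ^ 3 ≤ 2197 * l ^ 3 := by
    have := Nat.pow_le_pow_left hk2 3
    rw [mul_pow] at this; omega
  have k2 : k ^ 2 ≤ 169 * l ^ 2 := by
    have := Nat.pow_le_pow_left hk2 2
    rw [mul_pow] at this; omega
  have c1 : 4 * (r * k * k ^ r) * (g + 1 + 2 * k ^ 3) ≤ v := by
    rw [hv, Nat.le_div_iff_mul_le (by omega)]
    calc 4 * (r * k * k ^ r) * (g + 1 + 2 * k ^ 3) * (200 * l)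
        ≤ 4 * (l * (13 * l) * (13 * l * (2000 * l ^ 3))) * (g + 4395 * l ^ 3) * (200 * l) := by
          gcongr ?_ * ?_ * _
          · gcongr
          · omega
      _ = 270400000 * (l ^ 7 * g) + 1188408000000 * l ^ 10 := by ring
      _ ≤ T := by omega
  have c2 : 2 * r * (k + l * T) < v * (k ^ r - 1) := by
    have a1 : k ≤ l * T := hk2.trans (by rw [mul_comm 13]; exact Nat.mul_le_mul_left _ (by omega))
    calc 2 * r * (k + l * T) ≤ 2 * l * (l * (400 * (l * v)) + l * (400 * (l * v))) := by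
          have : l * T ≤ l * (400 * (l * v)) := Nat.mul_le_mul_left _ (by omega)
          gcongr
          omega
      _ = v * (1600 * l ^ 3) := by ring
      _ < _ := Nat.mul_lt_mul_of_pos_left (by omega) v3
  have c3 : 96 * l * (v + k ^ 2 + (g + 1)) ≤ T := by
    calc 96 * l * (v + k ^ 2 + (g + 1)) ≤ 96 * l * (v + 169 * l ^ 2 + (g + 1)) := by gcongr
      _ = 96 * (l * v) + 16224 * l ^ 3 + 96 * (l * g) + 96 * l := by ring
      _ ≤ T := by omega
  have h1 := count_k k l m r (g + 1) v hk g1 c1 c2 S (by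
    intro x hx
    obtain ⟨a1, s, W, a2, a3, a4, a5, a6⟩ := hS x hx
    refine ⟨a1, s, a2, a3, a4, (pow_dvd_pow 2 ?_).trans a5⟩
    exact Nat.le_of_mul_le_mul_left (c3.trans a6) (by omega))
  have h2 : T + 1 ≤ 2 ^ (l + 1) := by
    have : 1 ≤ T := Nat.one_le_two_pow
    rw [_root_.pow_succ]; omega
  have h3 : g + 1 + 1 ≤ 2 ^ (l + 1) := by
    have : g ≤ l * g := Nat.le_mul_of_pos_left _ hl
    omega
  have h4 : (grid l m).card ≤ 2 * l * (4 * (10 ^ 10 * l ^ 8)) :=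
    (card_grid l m).trans (Nat.mul_le_mul (by omega) m2)
  calc S.card ≤ (T + 1) ^ r * ((T + 1) ^ (grid l m).card * (g + 1 + 1) ^ (k + 1)) := h1
    _ ≤ (2 ^ (l + 1)) ^ r * ((2 ^ (l + 1)) ^ (grid l m).card * (2 ^ (l + 1)) ^ (k + 1)) := by
        gcongr
    _ = 2 ^ ((l + 1) * (r + ((grid l m).card + (k + 1)))) := by
        rw [← pow_add, ← pow_add, ← pow_mul]
    _ ≤ _ := by
        refine Nat.pow_le_pow_right (by norm_num) ?_
        have e : 2 * l * (4 * (10 ^ 10 * l ^ 8)) = 80000000000 * l ^ 9 := by ring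
        calc (l + 1) * (r + ((grid l m).card + (k + 1)))
            ≤ (2 * l) * (10 ^ 11 * l ^ 9) := Nat.mul_le_mul (by omega) (by omega)
          _ = 200000000000 * l ^ 10 := by ring
          _ ≤ _ := by omega

lemma fac_half (a : ℕ) : a / 2 + ((a / 2)!).factorization 2 ≤ (a !).factorization 2 := by
  have h1 := Nat.factorization_factorial_mul (n := a / 2) Nat.prime_two
  have h2 := (Nat.factorization_le_iff_dvd (factorial_ne_zero _) (factorial_ne_zero _)).2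
    (Nat.factorial_dvd_factorial (Nat.mul_div_le a 2)) 2
  omega

lemma leg_lower : ∀ d a : ℕ, a < 2 ^ d → a ≤ (a !).factorization 2 + d := by
  intro d
  induction d with
  | zero => intro a h; omega
  | succ d ih =>
    intro a h
    have h1 := ih (a / 2) (by rw [_root_.pow_succ] at h; omega)
    have h2 := fac_half a
    omega

lemma part_bound (a b d : ℕ) (ha : 2 ≤ a) (hab : a ≤ b) (hb : b < 2 ^ d)
    (hd : 2 * (4 * d ^ 2 + 2) ^ 3 ≤ b) :
    a ! ^ 4 * 2 ^ (a !).factorization 2 ≤ b ^ (4 * (a !).factorization 2) := by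
  set w := (a !).factorization 2 with hw
  have h1 : a ≤ 3 * w := by have := fac_half a; omega
  have h0 : w ≤ a := by simpa using Nat.factorization_factorial_le_div_pred Nat.prime_two a
  rcases le_or_gt (2 * a ^ 3) b with h | h
  · calc a ! ^ 4 * 2 ^ w ≤ (a ^ (3 * w)) ^ 4 * 2 ^ (4 * w) := by
          gcongr
          · exact (Nat.factorial_le_pow a).trans (Nat.pow_le_pow_right (by omega) h1)
          · norm_num
          · omega
      _ = (2 * a ^ 3) ^ (4 * w) := by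
          rw [mul_pow, ← pow_mul, ← pow_mul, mul_comm]; congr 2; ring
      _ ≤ _ := Nat.pow_le_pow_left h _
  · have h2 : 4 * d ^ 2 + 2 ≤ a := by
      by_contra hc
      have := Nat.pow_le_pow_left (show a ≤ 4 * d ^ 2 + 2 by omega) 3
      omega
    have h3 := leg_lower d a (by omega)
    have h4 : 2 ^ (a / 2) * a ! ≤ b ^ w * 2 ^ (d ^ 2) := by
      calc 2 ^ (a / 2) * a ! ≤ a ^ a := two_pow_mul_fact_le a
        _ ≤ b ^ a := Nat.pow_le_pow_left hab _
        _ ≤ b ^ (w + d) := Nat.pow_le_pow_right (by omega) h3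
        _ ≤ b ^ w * (2 ^ d) ^ d := by rw [pow_add]; gcongr
        _ = _ := by rw [← pow_mul, pow_two]
    have h5 : a ! ^ 4 * 2 ^ w * 2 ^ (4 * d ^ 2) ≤ b ^ (4 * w) * 2 ^ (4 * d ^ 2) := by
      calc a ! ^ 4 * 2 ^ w * 2 ^ (4 * d ^ 2) = a ! ^ 4 * 2 ^ (w + 4 * d ^ 2) := by
            rw [pow_add, mul_assoc]
        _ ≤ a ! ^ 4 * 2 ^ (a / 2 * 4) := by
            gcongr
            · norm_num
            · omega
        _ = (2 ^ (a / 2) * a !) ^ 4 := by rw [mul_pow, ← pow_mul, mul_comm]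
        _ ≤ (b ^ w * 2 ^ (d ^ 2)) ^ 4 := Nat.pow_le_pow_left h4 _
        _ = _ := by rw [mul_pow, ← pow_mul, ← pow_mul, mul_comm w, mul_comm (d ^ 2)]
    exact Nat.le_of_mul_le_mul_right h5 (by positivity)

lemma prod_fact_ne (s : Multiset ℕ) : (s.map factorial).prod ≠ 0 := by
  refine Multiset.prod_ne_zero fun h => ?_
  obtain ⟨a, -, ha⟩ := Multiset.mem_map.1 h
  exact factorial_ne_zero a ha

lemma parts_bound (b d : ℕ) (hb : b < 2 ^ d) (hd : 2 * (4 * d ^ 2 + 2) ^ 3 ≤ b)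
    (s : Multiset ℕ) (h : ∀ a ∈ s, 2 ≤ a ∧ a ≤ b) :
    s.sum ≤ 3 * (s.map factorial).prod.factorization 2 ∧
      (s.map factorial).prod ^ 4 * 2 ^ (s.map factorial).prod.factorization 2
        ≤ b ^ (4 * (s.map factorial).prod.factorization 2) := by
  induction s using Multiset.induction_on with
  | empty => simp
  | cons a s ih =>
    obtain ⟨h1, h2⟩ := ih fun c hc => h c (Multiset.mem_cons_of_mem hc)
    obtain ⟨ha1, ha2⟩ := h a (Multiset.mem_cons_self _ _)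
    have h3 := part_bound a b d ha1 ha2 hb hd
    have h4 := fac_half a
    rw [Multiset.map_cons, Multiset.prod_cons, Multiset.sum_cons,
      Nat.factorization_mul (factorial_ne_zero a) (prod_fact_ne s), Finsupp.add_apply]
    refine ⟨by omega, ?_⟩
    rw [mul_add, pow_add, pow_add, mul_pow, mul_mul_mul_comm]
    exact Nat.mul_le_mul h3 h2

lemma shape0 (n μ l : ℕ) (hn1 : 2 ^ (μ + 2) ≤ n) (hn2 : n < 2 ^ (μ + 3))
    (hl1 : 16 * (μ + 2) ≤ 2 ^ l) (hl2 : 2 ^ l ≤ 32 * (μ + 2)) (hl3 : 200 * l ≤ μ + 2)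
    (hl4 : 1 ≤ l) (hμ : 2 * (4 * (μ + 3) ^ 2 + 2) ^ 3 ≤ 2 ^ (μ + 1)) (s : Multiset ℕ)
    (hs : ∀ a ∈ s, 2 ≤ a ∧ a + 2 ≤ n) (hp : (s.map factorial).prod = n !) :
    ∃ k x, 2 ≤ k ∧ k ≤ 13 * l ∧ n + 1 = x + k ∧ 1 ≤ x ∧
      ∃ (t : Multiset ℕ) (W : ℕ), (∀ a ∈ t, 1 ≤ a) ∧ t.sum ≤ 2 ^ l ∧
      ∏ i ∈ range k, (x + i) = (t.map factorial).prod ∧
      2 ^ W ∣ (t.map factorial).prod ∧ 2 ^ l ≤ 96 * l * W ∧
      s = (x - 1) ::ₘ t ∧ 2 ^ (μ + 1) ≤ x := by
  have e1 : 2 ^ (μ + 2) = 2 * 2 ^ (μ + 1) := by ring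
  have e0 : 1 ≤ 2 ^ (μ + 1) := Nat.one_le_two_pow
  obtain ⟨p, hpp, hp1, hp2⟩ := Nat.exists_prime_lt_and_le_two_mul (n / 2) (by omega)
  obtain ⟨a0, ha0, hpa⟩ := prime_le_of_dvd hpp s (by
    rw [hp]; exact hpp.dvd_factorial.2 (by omega))
  obtain ⟨b, hb, hmax⟩ := Multiset.exists_max_image (s := s) id (by
    rintro rfl; simp at ha0)
  simp only [id] at hmax
  obtain ⟨t, rfl⟩ := Multiset.exists_cons_of_mem hb
  have hb1 : 2 ^ (μ + 1) ≤ b := by have := hmax a0 ha0; omega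
  have hb2 := (hs b hb).2
  obtain ⟨k, rfl⟩ : ∃ k, n = b + k := ⟨n - b, by omega⟩
  set M := (t.map factorial).prod with hM
  rw [Multiset.map_cons, Multiset.prod_cons, ← hM] at hp
  have hprod : ∏ i ∈ range k, (b + 1 + i) = M := by
    rw [← Nat.factorial_mul_ascFactorial, Nat.ascFactorial_eq_prod_range] at hp
    exact (Nat.eq_of_mul_eq_mul_left (factorial_pos b) hp).symm
  set W := M.factorization 2 with hW
  have hW1 : W ≤ k + (μ + 3) := by
    have a1 := congrArg (fun c => c.factorization 2) hp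
    rw [Nat.factorization_mul (factorial_ne_zero b) (prod_fact_ne t), Finsupp.add_apply,
      ← hM, ← hW] at a1
    have a2 := leg_lower (μ + 3) b (by omega)
    have a3 : ((b + k)!).factorization 2 ≤ b + k := by
      simpa using Nat.factorization_factorial_le_div_pred Nat.prime_two (b + k)
    omega
  have ht : ∀ a ∈ t, 2 ≤ a ∧ a ≤ b := fun a ha =>
    ⟨(hs a (Multiset.mem_cons_of_mem ha)).1, hmax a (Multiset.mem_cons_of_mem ha)⟩
  obtain ⟨h1, h2⟩ := parts_bound b (μ + 3) (by omega) (hμ.trans hb1) t ht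
  rw [← hM, ← hW] at h1 h2
  have hbk : b ^ k ≤ M := by
    rw [← hprod]
    calc b ^ k = ∏ _i ∈ range k, b := by simp
      _ ≤ _ := prod_le_prod' fun i _ => by omega
  have hW2 : W ≤ 4 * (μ + 3) ^ 2 := by
    have a1 : (b ^ k) ^ 4 * 2 ^ W ≤ (b ^ k) ^ 4 * 2 ^ (4 * (μ + 3) ^ 2) := by
      calc (b ^ k) ^ 4 * 2 ^ W ≤ M ^ 4 * 2 ^ W := by gcongr
        _ ≤ b ^ (4 * W) := h2
        _ ≤ b ^ (k * 4 + 4 * (μ + 3)) := Nat.pow_le_pow_right (by omega) (by omega)
        _ ≤ (b ^ k) ^ 4 * (2 ^ (μ + 3)) ^ (4 * (μ + 3)) := by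
            rw [pow_add, pow_mul]; gcongr; omega
        _ = _ := by rw [← pow_mul 2]; congr 2; ring
    have a2 := Nat.le_of_mul_le_mul_left a1 (by have : 0 < b := by omega
                                                positivity)
    exact (Nat.pow_le_pow_iff_right (by norm_num)).1 a2
  have hlow : ∀ j, t.sum ≤ 2 ^ j → (μ + 1) * k ≤ j * (3 * W) := by
    intro j hj
    have a1 : 2 ^ ((μ + 1) * k) ≤ 2 ^ (j * t.sum) := by
      rw [pow_mul, pow_mul]
      exact (Nat.pow_le_pow_left hb1 k).trans (hbk.trans (prod_fact_le _ t fun a ha =>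
        (Multiset.single_le_sum (fun _ _ => Nat.zero_le _) a ha).trans hj))
    exact ((Nat.pow_le_pow_iff_right (by norm_num)).1 a1).trans (Nat.mul_le_mul_left _ h1)
  have hk13 : k ≤ 13 * l := by
    have a1 := hlow (2 * l) (by
      have b1 : (4 * (μ + 3)) ^ 2 ≤ (2 ^ l) ^ 2 := Nat.pow_le_pow_left (by omega) 2
      rw [← pow_mul, mul_comm l, mul_pow] at b1
      omega)
    have a2 : 2 * l * (3 * W) ≤ 2 * l * (3 * (k + (μ + 3))) := by gcongr
    by_contra hc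
    obtain ⟨ν, hν⟩ : ∃ ν, μ + 1 = 6 * l + ν := ⟨μ + 1 - 6 * l, by omega⟩
    have a3 : ν * k ≤ 6 * l * (μ + 3) := by
      have : (μ + 1) * k = 6 * l * k + ν * k := by rw [hν]; ring
      nlinarith
    have a4 : ν * (13 * l) ≤ ν * k := Nat.mul_le_mul_left _ (by omega)
    have a5 : l * (13 * ν) ≤ l * (6 * (μ + 3)) := by nlinarith
    have a6 := Nat.le_of_mul_le_mul_left a5 hl4
    omega
  have hsum : t.sum ≤ 2 ^ l := by omega
  refine ⟨k, b + 1, by omega, hk13, by omega, by omega, t, W, fun a ha => ?_, hsum, hprod,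
    Nat.ordProj_dvd M 2, ?_, rfl, by omega⟩
  · have := (ht a ha).1; omega
  · have a1 := hlow l hsum
    have a2 : (μ + 1) * 2 ≤ (μ + 1) * k := Nat.mul_le_mul_left _ (by omega)
    have a3 : 96 * l * W = 32 * (l * (3 * W)) := by ring
    omega

lemma shape (n μ l : ℕ) (hn1 : 2 ^ (μ + 2) ≤ n) (hn2 : n < 2 ^ (μ + 3))
    (hl1 : 16 * (μ + 2) ≤ 2 ^ l) (hl2 : 2 ^ l ≤ 32 * (μ + 2)) (hl3 : 200 * l ≤ μ + 2)
    (hl4 : 1 ≤ l) (hμ : 2 * (4 * (μ + 3) ^ 2 + 2) ^ 3 ≤ 2 ^ (μ + 1)) (s : Multiset ℕ)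
    (hs : ∀ a ∈ s, 2 ≤ a ∧ a + 2 ≤ n) (hp : (s.map factorial).prod = n !) :
    ∃ k x, 2 ≤ k ∧ k ≤ 13 * l ∧ n + 1 = x + k ∧ 1 ≤ x ∧
      ∃ (t : Multiset ℕ) (W : ℕ), (∀ a ∈ t, 1 ≤ a) ∧ t.sum ≤ 2 ^ l ∧
      ∏ i ∈ range k, (x + i) = (t.map factorial).prod ∧
      2 ^ W ∣ (t.map factorial).prod ∧ 2 ^ l ≤ 96 * l * W := by
  obtain ⟨k, x, h1, h2, h3, h4, t, W, h5, h6, h7, h8, h9, -⟩ :=
    shape0 n μ l hn1 hn2 hl1 hl2 hl3 hl4 hμ s hs hp
  exact ⟨k, x, h1, h2, h3, h4, t, W, h5, h6, h7, h8, h9⟩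

lemma exists_t0 : ∃ t0 : ℕ, 2 ≤ t0 ∧ ∀ t, t0 ≤ t → 10 ^ 13 * t ^ 10 ≤ 2 ^ t := by
  have h := (tendsto_pow_const_div_const_pow_of_one_lt 10 (r := 2) (by norm_num)).eventually
    (gt_mem_nhds (show (0 : ℝ) < 1 / 10 ^ 13 by norm_num))
  obtain ⟨t0, ht⟩ := Filter.eventually_atTop.1 h
  refine ⟨t0 + 2, by omega, fun t h1 => ?_⟩
  have h2 := ht t (by omega)
  rw [div_lt_div_iff₀ (by positivity) (by positivity)] at h2
  have h3 : (10 : ℝ) ^ 13 * (t : ℝ) ^ 10 ≤ 2 ^ t := by linarith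
  exact_mod_cast h3

lemma count_lam (t0 : ℕ) (h2 : 2 ≤ t0) (ht : ∀ t, t0 ≤ t → 10 ^ 13 * t ^ 10 ≤ 2 ^ t) (g : ℕ)
    (hg : 2 ^ t0 + 1 ≤ g) (S : Finset ℕ)
    (hS : ∀ n ∈ S, n ≠ 0 ∧ Nat.log 2 n = g ∧ ∃ s : Multiset ℕ, (∀ a ∈ s, 2 ≤ a ∧ a + 2 ≤ n) ∧
      (s.map factorial).prod = n !) :
    S.card ≤ (13 * (Nat.log 2 g + 5) + 1) * 2 ^ (10 ^ 12 * (Nat.log 2 g + 5) ^ 10) := by
  classical
  have t1 : t0 < 2 ^ t0 := Nat.lt_two_pow_self
  obtain ⟨μ, rfl⟩ : ∃ μ, g = μ + 2 := ⟨g - 2, by omega⟩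
  set l := Nat.log 2 (μ + 2) + 5 with hl
  have l0 : t0 ≤ Nat.log 2 (μ + 2) := Nat.le_log_of_pow_le (by norm_num) (by omega)
  have l1 : 16 * (μ + 2) ≤ 2 ^ l := by
    have := Nat.lt_pow_succ_log_self (b := 2) (by norm_num) (μ + 2)
    rw [Nat.pow_succ] at this
    rw [hl, pow_add]; omega
  have l2 : 2 ^ l ≤ 32 * (μ + 2) := by
    have := Nat.pow_log_le_self 2 (show μ + 2 ≠ 0 by omega)
    rw [hl, pow_add]; omega
  have l3 := ht l (by omega)
  have l4 : l ≤ l ^ 10 := Nat.le_self_pow (by norm_num) l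
  have hμ : 2 * (4 * (μ + 3) ^ 2 + 2) ^ 3 ≤ 2 ^ (μ + 1) := by
    refine le_trans ?_ (ht (μ + 1) (by omega))
    have a1 : 4 * (μ + 3) ^ 2 + 2 ≤ 40 * (μ + 1) ^ 2 := by nlinarith
    have a2 : (μ + 1) ^ 6 ≤ (μ + 1) ^ 10 := Nat.pow_le_pow_right (by omega) (by norm_num)
    calc 2 * (4 * (μ + 3) ^ 2 + 2) ^ 3 ≤ 2 * (40 * (μ + 1) ^ 2) ^ 3 := by gcongr
      _ = 128000 * (μ + 1) ^ 6 := by ring
      _ ≤ _ := by omega
  let T : ℕ → Finset ℕ := fun k => S.filter fun n => 2 ≤ k ∧ ∃ x, n + 1 = x + k ∧ 1 ≤ x ∧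
      ∃ (t : Multiset ℕ) (W : ℕ), (∀ a ∈ t, 1 ≤ a) ∧ t.sum ≤ 2 ^ l ∧
      ∏ i ∈ range k, (x + i) = (t.map factorial).prod ∧
      2 ^ W ∣ (t.map factorial).prod ∧ 2 ^ l ≤ 96 * l * W
  have hsub : S ⊆ (range (13 * l + 1)).biUnion T := by
    intro n hn
    obtain ⟨a1, a2, s, a3, a4⟩ := hS n hn
    obtain ⟨k, x, b1, b2, b3⟩ := shape n μ l (a2 ▸ Nat.pow_log_le_self 2 a1)
      (by have := Nat.lt_pow_succ_log_self (b := 2) (by norm_num) n
          rwa [a2] at this) l1 l2 (by omega) (by omega) hμ s a3 a4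
    exact mem_biUnion.2 ⟨k, mem_range.2 (by omega), mem_filter.2 ⟨hn, b1, x, b3⟩⟩
  have hT : ∀ k ∈ range (13 * l + 1), (T k).card ≤ 2 ^ (10 ^ 12 * l ^ 10) := by
    intro k hk
    by_cases hk2 : 2 ≤ k
    · have hinj : Set.InjOn (fun n => n + 1 - k) (T k) := by
        intro n hn n' hn' e
        obtain ⟨-, -, x, a1, -⟩ := mem_filter.1 hn
        obtain ⟨-, -, x', a2, -⟩ := mem_filter.1 hn'
        simp only at e
        omega
      rw [← Finset.card_image_of_injOn hinj]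
      refine count_l k l hk2 (by have := mem_range.1 hk; omega) l3 _ fun y hy => ?_
      obtain ⟨n, hn, rfl⟩ := mem_image.1 hy
      obtain ⟨-, -, x, a1, a2⟩ := mem_filter.1 hn
      rwa [show n + 1 - k = x by omega]
    · have : T k = ∅ := filter_eq_empty_iff.2 fun a _ h => hk2 h.1
      rw [this]; simp
  have h3 := card_biUnion_le_card_mul _ _ _ hT
  rw [card_range] at h3
  exact (card_le_card hsub).trans h3

lemma count_total : ∃ c : ℕ, ∀ (X : ℕ) (S : Finset ℕ),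
    (∀ n ∈ S, n ≤ X ∧ ∃ s : Multiset ℕ, (∀ a ∈ s, 2 ≤ a ∧ a + 2 ≤ n) ∧
      (s.map factorial).prod = n !) →
    S.card ≤ 2 ^ (c * (Nat.log 2 (Nat.log 2 X) + 5) ^ 10) := by
  classical
  obtain ⟨t0, h2, ht⟩ := exists_t0
  refine ⟨2 ^ t0 + 10 ^ 12 + 20, fun X S hS => ?_⟩
  set L := Nat.log 2 X with hL
  set l := Nat.log 2 L + 5 with hl
  let T : ℕ → Finset ℕ := fun g => S.filter fun n => n ≠ 0 ∧ Nat.log 2 n = g ∧ 2 ^ t0 + 1 ≤ g
  have hsub : S ⊆ range (2 ^ (2 ^ t0 + 1)) ∪ (range (L + 1)).biUnion T := by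
    intro n hn
    rw [mem_union, mem_range, mem_biUnion]
    rcases lt_or_ge n (2 ^ (2 ^ t0 + 1)) with h | h
    · exact Or.inl h
    · have h0 : 0 < 2 ^ (2 ^ t0 + 1) := by positivity
      exact Or.inr ⟨Nat.log 2 n, mem_range.2 (Nat.lt_succ_of_le (Nat.log_mono_right (hS n hn).1)),
        mem_filter.2 ⟨hn, by omega, rfl, Nat.le_log_of_pow_le (by norm_num) h⟩⟩
  have hT : ∀ g ∈ range (L + 1), (T g).card ≤ (13 * l + 1) * 2 ^ (10 ^ 12 * l ^ 10) := by
    intro g hg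
    by_cases hg2 : 2 ^ t0 + 1 ≤ g
    · have a1 : Nat.log 2 g + 5 ≤ l :=
        Nat.add_le_add_right (Nat.log_mono_right (by have := mem_range.1 hg; omega)) 5
      refine (count_lam t0 h2 ht g hg2 (T g) fun n hn => ?_).trans (by gcongr; norm_num)
      obtain ⟨b1, b2, b3, -⟩ := mem_filter.1 hn
      exact ⟨b2, b3, (hS n b1).2⟩
    · have : T g = ∅ := filter_eq_empty_iff.2 fun a _ h => hg2 h.2.2
      rw [this]; simp
  have h3 := card_biUnion_le_card_mul _ _ _ hT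
  have h4 := (card_le_card hsub).trans (card_union_le _ _)
  rw [card_range] at h3 h4
  have l1 : l ≤ l ^ 10 := Nat.le_self_pow (by norm_num) l
  have l2 : L + 1 ≤ 2 ^ l := by
    have := Nat.lt_pow_succ_log_self (b := 2) (by norm_num) L
    exact le_trans this (Nat.pow_le_pow_right (by norm_num) (by omega))
  have l3 : 13 * l + 1 ≤ 2 ^ (13 * l + 1) := Nat.lt_two_pow_self.le
  have l5 : 5 ≤ l := by omega
  clear_value l L
  clear hsub hT hl hL
  generalize 2 ^ t0 = A at *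
  generalize 10 ^ 12 = D at *
  have h5 : (L + 1) * ((13 * l + 1) * 2 ^ (D * l ^ 10)) ≤ 2 ^ (l + (13 * l + 1 + D * l ^ 10)) := by
    rw [pow_add 2 l, pow_add 2 (13 * l + 1)]; gcongr
  have h6 : A ≤ A * l ^ 10 := Nat.le_mul_of_pos_right _ (by omega)
  have e : (A + D + 20) * l ^ 10 = A * l ^ 10 + D * l ^ 10 + 20 * l ^ 10 := by ring
  obtain ⟨B, hB⟩ : ∃ B, (A + D + 20) * l ^ 10 = B + 1 := ⟨(A + D + 20) * l ^ 10 - 1, by omega⟩
  have h7 : 2 ^ (A + 1) ≤ 2 ^ B := Nat.pow_le_pow_right (by norm_num) (by omega)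
  have h8 : 2 ^ (l + (13 * l + 1 + D * l ^ 10)) ≤ 2 ^ B :=
    Nat.pow_le_pow_right (by norm_num) (by omega)
  rw [hB, _root_.pow_succ, mul_two]
  exact h4.trans (Nat.add_le_add h7 (h3.trans (h5.trans h8)))

theorem many_factorials : ∃ C : ℝ, ∀ X : ℕ, 16 ≤ X →
    (({n : ℕ | n ≤ X ∧ ∃ s : Multiset ℕ, (∀ a ∈ s, 2 ≤ a ∧ a + 2 ≤ n) ∧
      (s.map factorial).prod = n !}.ncard : ℕ) : ℝ)
      ≤ Real.exp (C * Real.log (Real.log X) ^ 10) := by
  obtain ⟨c, hc⟩ := count_total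
  refine ⟨c * 10 ^ 10, fun X hX => ?_⟩
  have hfin : {n : ℕ | n ≤ X ∧ ∃ s : Multiset ℕ, (∀ a ∈ s, 2 ≤ a ∧ a + 2 ≤ n) ∧
      (s.map factorial).prod = n !}.Finite := (Set.finite_le_nat X).subset fun _ h => h.1
  rw [Set.ncard_eq_toFinset_card _ hfin]
  have h1 := hc X hfin.toFinset (by
    intro m hm
    rwa [Set.Finite.mem_toFinset] at hm)
  have hl2 := Real.log_two_gt_d9
  have hlog : ∀ Y : ℕ, Y ≠ 0 → (Nat.log 2 Y : ℝ) ≤ 2 * Real.log Y := by
    intro Y hY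
    have a1 : ((2 ^ Nat.log 2 Y : ℕ) : ℝ) ≤ Y := by exact_mod_cast Nat.pow_log_le_self 2 hY
    have a2 := Real.log_le_log (by positivity) a1
    rw [Nat.cast_pow, Real.log_pow] at a2
    push_cast at a2
    have a3 : (0 : ℝ) ≤ Nat.log 2 Y := Nat.cast_nonneg _
    nlinarith
  have hX16 : Real.log 16 ≤ Real.log X := Real.log_le_log (by norm_num) (by exact_mod_cast hX)
  have h16 : Real.log 16 = 4 * Real.log 2 := by
    rw [show (16 : ℝ) = 2 ^ 4 by norm_num, Real.log_pow]; norm_num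
  have hll : 1 ≤ Real.log (Real.log X) := by
    rw [Real.le_log_iff_exp_le (by linarith)]
    have := Real.exp_one_lt_d9
    linarith
  have hL : 4 ≤ Nat.log 2 X := Nat.le_log_of_pow_le (by norm_num) (by omega)
  have h2 := hlog X (by omega)
  have h3 := hlog (Nat.log 2 X) (by omega)
  have h4 : Real.log (Nat.log 2 X : ℝ) ≤ Real.log 2 + Real.log (Real.log X) := by
    rw [← Real.log_mul (by norm_num) (by linarith)]
    exact Real.log_le_log (by exact_mod_cast (by omega : 0 < Nat.log 2 X)) h2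
  have hl3 := Real.log_two_lt_d9
  have h5 : ((Nat.log 2 (Nat.log 2 X) + 5 : ℕ) : ℝ) ≤ 10 * Real.log (Real.log X) := by
    push_cast; linarith
  calc ((hfin.toFinset.card : ℕ) : ℝ) ≤ 2 ^ (c * (Nat.log 2 (Nat.log 2 X) + 5) ^ 10) := by
        exact_mod_cast h1
    _ ≤ Real.exp 1 ^ (c * (Nat.log 2 (Nat.log 2 X) + 5) ^ 10) := by
        have := Real.add_one_le_exp (1 : ℝ)
        exact pow_le_pow_left₀ (by norm_num) (by linarith) _
    _ = Real.exp (c * ((Nat.log 2 (Nat.log 2 X) + 5 : ℕ) : ℝ) ^ 10) := by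
        rw [← Real.exp_nat_mul]; push_cast; ring_nf
    _ ≤ _ := by
        refine Real.exp_le_exp.2 ?_
        calc (c : ℝ) * ((Nat.log 2 (Nat.log 2 X) + 5 : ℕ) : ℝ) ^ 10
            ≤ c * (10 * Real.log (Real.log X)) ^ 10 := by gcongr
          _ = _ := by ring

end Pool.Agent.H41Fact
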