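import Mathlib

/-! Tools for Roth's lemma: heights, boxes, shifts, binomial operators, index. -/

namespace Pool.Agent.H41Roth

open MvPolynomial Finset

variable {σ : Type}

/-- sum of the absolute values of the coefficients -/
noncomputable def nrm (P : MvPolynomial σ ℤ) : ℕ := ∑ I ∈ P.support, (coeff I P).natAbs

lemma nrm_eq {P : MvPolynomial σ ℤ} {s : Finset (σ →₀ ℕ)} (h : P.support ⊆ s) :
    nrm P = ∑ I ∈ s, (coeff I P).natAbs :=
  sum_subset h fun I _ hI => by rw [notMem_support_iff.1 hI]; rfl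

lemma coeff_le_nrm (P : MvPolynomial σ ℤ) (I : σ →₀ ℕ) : (coeff I P).natAbs ≤ nrm P := by
  by_cases h : I ∈ P.support
  · exact single_le_sum (f := fun I => (coeff I P).natAbs) (fun _ _ => Nat.zero_le _) h
  · rw [notMem_support_iff.1 h]; exact Nat.zero_le _

lemma nrm_pos {P : MvPolynomial σ ℤ} (h : P ≠ 0) : 0 < nrm P := by
  obtain ⟨I, hI⟩ := ne_zero_iff.1 h
  exact (Int.natAbs_pos.2 hI).trans_le (coeff_le_nrm P I)

lemma nrm_add (P Q : MvPolynomial σ ℤ) : nrm (P + Q) ≤ nrm P + nrm Q := by
  classical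
  rw [nrm_eq (support_add (p := P) (q := Q)), nrm_eq (subset_union_left (s₂ := Q.support)),
    nrm_eq (P := Q) (subset_union_right (s₁ := P.support)), ← sum_add_distrib]
  exact sum_le_sum fun I _ => by rw [coeff_add]; exact Int.natAbs_add_le _ _

lemma nrm_sum {ι : Type} (s : Finset ι) (f : ι → MvPolynomial σ ℤ) :
    nrm (∑ i ∈ s, f i) ≤ ∑ i ∈ s, nrm (f i) := by
  classical
  induction s using Finset.induction_on with
  | empty => simp [nrm]
  | insert i s hi ih =>
    rw [sum_insert hi, sum_insert hi]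
    exact (nrm_add _ _).trans (Nat.add_le_add_left ih _)

lemma nrm_monomial (I : σ →₀ ℕ) (a : ℤ) : nrm (monomial I a) = a.natAbs := by
  classical
  rw [nrm_eq (support_monomial_subset), sum_singleton, coeff_monomial, if_pos rfl]

lemma nrm_mul (P Q : MvPolynomial σ ℤ) : nrm (P * Q) ≤ nrm P * nrm Q := by
  conv_lhs => rw [P.as_sum, Q.as_sum, sum_mul_sum]
  refine (nrm_sum _ _).trans ?_
  rw [nrm, nrm, sum_mul_sum]
  refine sum_le_sum fun I _ => (nrm_sum _ _).trans (sum_le_sum fun J _ => ?_)
  rw [monomial_mul, nrm_monomial, Int.natAbs_mul]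

lemma nrm_C (a : ℤ) : nrm (C a : MvPolynomial σ ℤ) = a.natAbs := nrm_monomial 0 a

lemma nrm_prod {ι : Type} (s : Finset ι) (f : ι → MvPolynomial σ ℤ) :
    nrm (∏ i ∈ s, f i) ≤ ∏ i ∈ s, nrm (f i) := by
  classical
  induction s using Finset.induction_on with
  | empty => simpa using (nrm_C (σ := σ) 1).le
  | insert i s hi ih =>
    rw [prod_insert hi, prod_insert hi]
    exact (nrm_mul _ _).trans (Nat.mul_le_mul_left _ ih)

lemma nrm_pow (P : MvPolynomial σ ℤ) (n : ℕ) : nrm (P ^ n) ≤ nrm P ^ n := by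
  simpa using nrm_prod (range n) fun _ => P

lemma supp_prod {R ι : Type} [CommSemiring R] (s : Finset ι) (f : ι → MvPolynomial σ R) :
    ∀ I ∈ (∏ i ∈ s, f i).support, ∃ g : ι → σ →₀ ℕ, (∀ i ∈ s, g i ∈ (f i).support) ∧
      I = ∑ i ∈ s, g i := by
  classical
  induction s using Finset.induction_on with
  | empty =>
    intro I hI
    refine ⟨fun _ => 0, by simp, ?_⟩
    rw [prod_empty, mem_support_iff, coeff_one] at hI
    rw [sum_empty]
    by_contra h
    exact hI (if_neg (Ne.symm h))
  | insert i s hi ih =>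
    intro I hI
    rw [prod_insert hi] at hI
    obtain ⟨a, ha, b, hb, rfl⟩ := mem_add.1 (support_mul _ _ hI)
    obtain ⟨g, hg, rfl⟩ := ih b hb
    refine ⟨Function.update g i a, fun j hj => ?_, ?_⟩
    · rcases mem_insert.1 hj with rfl | hj'
      · simpa using ha
      · rw [Function.update_of_ne (by rintro rfl; exact hi hj')]; exact hg j hj'
    · rw [sum_insert hi, Function.update_self]
      congr 1
      exact sum_congr rfl fun j hj => by rw [Function.update_of_ne (by rintro rfl; exact hi hj)]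

lemma supp_sum {R ι : Type} [CommSemiring R] (s : Finset ι) (f : ι → MvPolynomial σ R)
    {I : σ →₀ ℕ} (hI : I ∈ (∑ i ∈ s, f i).support) : ∃ i ∈ s, I ∈ (f i).support := by
  classical
  simpa using support_sum hI

lemma finsupp_ind (P : (σ →₀ ℕ) → Prop) (h0 : P 0)
    (hs : ∀ I h, P I → P (I + Finsupp.single h 1)) : ∀ I, P I := by
  intro I
  induction I using Finsupp.induction₂ with
  | zero => exact h0
  | add_single h n I _ _ hI =>
    have : ∀ n, P (I + Finsupp.single h n) := by
      intro n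
      induction n with
      | zero => simpa using hI
      | succ n ih => rw [Finsupp.single_add, ← add_assoc]; exact hs _ h ih
    exact this n

/-- the shift `X h ↦ X h + n h` -/
noncomputable def sh {R : Type} [CommRing R] (n : σ → R) :
    MvPolynomial σ R →ₐ[R] MvPolynomial σ R := aeval fun h => X h + C (n h)

@[simp] lemma sh_X {R : Type} [CommRing R] (n : σ → R) (h : σ) : sh n (X h) = X h + C (n h) := by
  simp [sh]

@[simp] lemma sh_C {R : Type} [CommRing R] (n : σ → R) (a : R) : sh n (C a) = C a := by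
  simp [sh]

lemma sh_sh {R : Type} [CommRing R] (a b : σ → R) (P : MvPolynomial σ R) :
    sh a (sh b P) = sh (a + b) P := by
  have : (sh a).comp (sh b) = sh (a + b) := by
    refine algHom_ext fun h => ?_
    simp [add_assoc]
  exact DFunLike.congr_fun this P

lemma sh_zero {R : Type} [CommRing R] (P : MvPolynomial σ R) : sh 0 P = P := by
  have : sh (0 : σ → R) = AlgHom.id R _ := by
    refine algHom_ext fun h => ?_
    simp
  rw [this]; rfl

lemma sh_ne_zero {R : Type} [CommRing R] (n : σ → R) {P : MvPolynomial σ R} (h : P ≠ 0) :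
    sh n P ≠ 0 := fun h0 => h (by rw [← sh_zero P, ← neg_add_cancel n, ← sh_sh, h0, map_zero])

lemma pderiv_sh {R : Type} [CommRing R] (n : σ → R) (h : σ) (P : MvPolynomial σ R) :
    pderiv h (sh n P) = sh n (pderiv h P) := by
  classical
  induction P using MvPolynomial.induction_on with
  | C a => simp
  | add P Q hP hQ => simp [hP, hQ]
  | mul_X P i hP =>
    simp only [map_mul, pderiv_mul, hP, sh_X, map_add, pderiv_C, add_zero, pderiv_X]
    by_cases e : h = i <;> simp [e]

lemma map_sh {R S : Type} [CommRing R] [CommRing S] (f : R →+* S) (n : σ → R)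
    (P : MvPolynomial σ R) : map f (sh n P) = sh (fun h => f (n h)) (map f P) := by
  induction P using MvPolynomial.induction_on with
  | C a => simp
  | add P Q hP hQ => simp [hP, hQ]
  | mul_X P i hP => simp [hP]

lemma sh_monomial_succ {R : Type} [CommRing R] (n : σ → R) (I : σ →₀ ℕ) (h : σ) :
    sh n (monomial (I + Finsupp.single h 1) 1) = (X h + C (n h)) * sh n (monomial I 1) := by
  rw [← sh_X, ← map_mul, X, monomial_mul, one_mul, add_comm]

/-- all partial degrees are bounded by `d` -/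
def Box {R : Type} [CommSemiring R] (d : σ → ℕ) (P : MvPolynomial σ R) : Prop :=
  ∀ I ∈ P.support, ∀ h, I h ≤ d h

lemma box_sh_monomial {R : Type} [CommRing R] (n : σ → R) (I : σ →₀ ℕ) :
    Box I (sh n (monomial I 1)) := by
  classical
  induction I using finsupp_ind with
  | h0 =>
    intro J hJ h
    rw [show (monomial (0 : σ →₀ ℕ) (1 : R)) = 1 from rfl, map_one, mem_support_iff,
      coeff_one] at hJ
    have : 0 = J := by by_contra e; exact hJ (if_neg e)
    rw [← this]
  | hs I h ih =>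
    intro J hJ i
    rw [sh_monomial_succ, add_mul] at hJ
    rcases mem_union.1 (support_add hJ) with h1 | h1
    · rw [support_X_mul] at h1
      obtain ⟨K, hK, rfl⟩ := mem_map.1 h1
      have := ih K hK i
      simp only [addLeftEmbedding_apply, Finsupp.add_apply]
      omega
    · rw [C_mul'] at h1
      have := ih J (support_smul h1) i
      simp only [Finsupp.add_apply]
      omega

lemma sh_as_sum {R : Type} [CommRing R] (n : σ → R) (P : MvPolynomial σ R) :
    sh n P = ∑ I ∈ P.support, C (coeff I P) * sh n (monomial I 1) := by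
  conv_lhs => rw [P.as_sum, map_sum]
  refine sum_congr rfl fun I _ => ?_
  rw [← sh_C n, ← map_mul, C_mul_monomial, mul_one]

lemma Box.sh {R : Type} [CommRing R] {d : σ → ℕ} {P : MvPolynomial σ R} (hP : Box d P)
    (n : σ → R) : Box d (sh n P) := by
  intro J hJ h
  rw [sh_as_sum] at hJ
  obtain ⟨I, hI, h1⟩ := supp_sum _ _ hJ
  rw [C_mul'] at h1
  exact (box_sh_monomial n I J (support_smul h1) h).trans (hP I hI h)

variable [Fintype σ]

lemma nrm_sh_monomial (n : σ → ℤ) (I : σ →₀ ℕ) :
    nrm (sh n (monomial I 1)) ≤ ∏ h, (1 + (n h).natAbs) ^ I h := by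
  classical
  induction I using finsupp_ind with
  | h0 =>
    rw [show (monomial (0 : σ →₀ ℕ) (1 : ℤ)) = C 1 from rfl, sh_C, nrm_C]; simp
  | hs I h ih =>
    rw [sh_monomial_succ]
    refine (nrm_mul _ _).trans ?_
    have h1 : nrm (X h + C (n h) : MvPolynomial σ ℤ) ≤ 1 + (n h).natAbs := by
      refine (nrm_add _ _).trans ?_
      rw [nrm_C, X, nrm_monomial]; rfl
    have h2 : ∏ i, (1 + (n i).natAbs) ^ (I + Finsupp.single h 1 : σ →₀ ℕ) i
        = (1 + (n h).natAbs) * ∏ i, (1 + (n i).natAbs) ^ I i := by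
      simp only [Finsupp.add_apply, pow_add, prod_mul_distrib, Finsupp.single_apply]
      rw [prod_pow_boole, if_pos (mem_univ _), mul_comm]
    rw [h2]
    exact Nat.mul_le_mul h1 ih

lemma nrm_sh {d : σ → ℕ} {P : MvPolynomial σ ℤ} (hP : Box d P) (n : σ → ℤ) :
    nrm (sh n P) ≤ nrm P * ∏ h, (1 + (n h).natAbs) ^ d h := by
  rw [sh_as_sum]
  refine (nrm_sum _ _).trans ?_
  rw [nrm, sum_mul]
  refine sum_le_sum fun I hI => (nrm_mul _ _).trans ?_
  rw [nrm_C]
  refine Nat.mul_le_mul_left _ ((nrm_sh_monomial n I).trans (prod_le_prod' fun h _ => ?_))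
  exact Nat.pow_le_pow_right (by omega) (hP I hI h)

lemma dvd_coeff_sh_monomial (n : σ → ℤ) (I : σ →₀ ℕ) :
    ∀ J : σ →₀ ℕ, ∏ h, n h ^ (I h - J h) ∣ coeff J (sh n (monomial I 1)) := by
  classical
  induction I using finsupp_ind with
  | h0 => intro J; simp
  | hs I h ih =>
    intro J
    rw [sh_monomial_succ, add_mul, coeff_add, coeff_C_mul, coeff_X_mul']
    refine dvd_add ?_ ?_
    · split_ifs with hJ
      · refine dvd_trans (prod_dvd_prod_of_dvd _ _ fun i _ => pow_dvd_pow _ ?_) (ih _)
        have := Finsupp.mem_support_iff.1 hJ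
        simp only [Finsupp.add_apply, Finsupp.tsub_apply, Finsupp.single_apply]
        split_ifs with e
        · subst e; omega
        · omega
      · exact dvd_zero _
    · refine dvd_trans ?_ (mul_dvd_mul_left (n h) (ih J))
      have : n h * ∏ i, n i ^ (I i - J i) = ∏ i, n i ^ (I i - J i + if h = i then 1 else 0) := by
        simp only [pow_add, prod_mul_distrib]
        rw [prod_pow_boole, if_pos (mem_univ _), mul_comm]
      rw [this]
      refine prod_dvd_prod_of_dvd _ _ fun i _ => pow_dvd_pow _ ?_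
      simp only [Finsupp.add_apply, Finsupp.single_apply]
      split_ifs <;> omega

/-- weighted degree -/
noncomputable def wt (d : σ → ℕ) (I : σ →₀ ℕ) : ℝ := ∑ h, (I h : ℝ) / d h

lemma wt_add (d : σ → ℕ) (I J : σ →₀ ℕ) : wt d (I + J) = wt d I + wt d J := by
  simp [wt, add_div, sum_add_distrib]

lemma wt_zero (d : σ → ℕ) : wt d 0 = 0 := by simp [wt]

lemma wt_nonneg (d : σ → ℕ) (I : σ →₀ ℕ) : 0 ≤ wt d I :=
  sum_nonneg fun _ _ => by positivity

lemma wt_sum {ι : Type} (d : σ → ℕ) (s : Finset ι) (g : ι → σ →₀ ℕ) :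
    wt d (∑ i ∈ s, g i) = ∑ i ∈ s, wt d (g i) := by
  classical
  induction s using Finset.induction_on with
  | empty => simp [wt_zero]
  | insert i s hi ih => rw [sum_insert hi, sum_insert hi, wt_add, ih]

/-- the index at `n` is at least `θ` -/
def Ind (n : σ → ℤ) (d : σ → ℕ) (θ : ℝ) (P : MvPolynomial σ ℤ) : Prop :=
  ∀ I ∈ (sh n P).support, θ ≤ wt d I

/-- product of binomial coefficients -/
def bin (I μ : σ →₀ ℕ) : ℕ := ∏ h, (I h).choose (μ h)

/-- the operator `x ^ μ ∂ ^ μ / μ!` -/
noncomputable def Bop {R : Type} [CommRing R] (μ : σ →₀ ℕ) (P : MvPolynomial σ R) :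
    MvPolynomial σ R := ∑ I ∈ P.support, monomial I ((bin I μ : R) * coeff I P)

lemma coeff_Bop {R : Type} [CommRing R] (μ : σ →₀ ℕ) (P : MvPolynomial σ R) (I : σ →₀ ℕ) :
    coeff I (Bop μ P) = (bin I μ : R) * coeff I P := by
  classical
  rw [Bop, coeff_sum, sum_eq_single I]
  · simp
  · intro J _ hJ
    rw [coeff_monomial, if_neg hJ]
  · intro h
    simp [notMem_support_iff.1 h]

lemma supp_Bop {R : Type} [CommRing R] (μ : σ →₀ ℕ) (P : MvPolynomial σ R) :
    (Bop μ P).support ⊆ P.support := by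
  intro I hI
  rw [mem_support_iff] at hI ⊢
  rw [coeff_Bop] at hI
  exact right_ne_zero_of_mul hI

lemma bin_zero (I : σ →₀ ℕ) : bin I 0 = 1 := by simp [bin]

lemma bin_succ (I μ : σ →₀ ℕ) (h : σ) :
    bin I (μ + Finsupp.single h 1) * (μ h + 1) + μ h * bin I μ = I h * bin I μ := by
  classical
  have e : ∏ i ∈ univ.erase h, (I i).choose ((μ + Finsupp.single h 1 : σ →₀ ℕ) i)
      = ∏ i ∈ univ.erase h, (I i).choose (μ i) :=
    prod_congr rfl fun i hi => by
      rw [Finsupp.add_apply, Finsupp.single_eq_of_ne (ne_of_mem_erase hi), add_zero]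
  rw [bin, bin, ← mul_prod_erase _ _ (mem_univ h), ← mul_prod_erase _ _ (mem_univ h), e,
    Finsupp.add_apply, Finsupp.single_eq_same]
  have h1 := Nat.choose_succ_right_eq (I h) (μ h)
  have h2 : (I h).choose (μ h + 1) * (μ h + 1) + μ h * (I h).choose (μ h)
      = I h * (I h).choose (μ h) := by
    rw [h1]
    rcases le_or_gt (μ h) (I h) with h3 | h3
    · obtain ⟨c, hc⟩ := Nat.exists_eq_add_of_le h3
      rw [hc, Nat.add_sub_cancel_left]; ring
    · rw [Nat.choose_eq_zero_of_lt h3]; simp
  calc _ = ((I h).choose (μ h + 1) * (μ h + 1) + μ h * (I h).choose (μ h))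
        * ∏ i ∈ univ.erase h, (I i).choose (μ i) := by ring
    _ = _ := by rw [h2]; ring

lemma nrm_Bop {d : σ → ℕ} {P : MvPolynomial σ ℤ} (hP : Box d P) (μ : σ →₀ ℕ) :
    nrm (Bop μ P) ≤ 2 ^ (∑ h, d h) * nrm P := by
  rw [nrm_eq (supp_Bop μ P), nrm, mul_sum]
  refine sum_le_sum fun I hI => ?_
  rw [coeff_Bop, Int.natAbs_mul, Int.natAbs_natCast, ← prod_pow_eq_pow_sum]
  exact Nat.mul_le_mul_right _ (prod_le_prod' fun h _ => (Nat.choose_le_two_pow _ _).trans
    (Nat.pow_le_pow_right (by norm_num) (hP I hI h)))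

omit [Fintype σ] in
lemma coeff_euler (h : σ) (G : MvPolynomial σ ℤ) (I : σ →₀ ℕ) :
    coeff I (X h * pderiv h G) = I h * coeff I G := by
  classical
  rw [coeff_X_mul']
  split_ifs with hI
  · have h1 := Finsupp.mem_support_iff.1 hI
    rw [coeff_pderiv, tsub_add_cancel_of_le (Finsupp.single_le_iff.2 (by omega)),
      Finsupp.tsub_apply, Finsupp.single_eq_same, mul_comm]
    congr 1
    rw [Nat.cast_sub (by omega)]; simp
  · rw [Finsupp.notMem_support_iff.1 hI]; simp

lemma Ind.Bop {n : σ → ℤ} {d : σ → ℕ} {θ : ℝ} {P : MvPolynomial σ ℤ} (hP : Ind n d θ P)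
    (μ : σ →₀ ℕ) : Ind n d (θ - wt d μ) (Bop μ P) := by
  classical
  induction μ using finsupp_ind with
  | h0 =>
    have : H41Roth.Bop 0 P = P := by ext I; rw [coeff_Bop, bin_zero]; simp
    rw [this, wt_zero, sub_zero]; exact hP
  | hs μ h ih =>
    set G := H41Roth.Bop μ P with hG
    have e : C ((μ h : ℤ) + 1) * H41Roth.Bop (μ + Finsupp.single h 1) P
        = X h * pderiv h G - C (μ h : ℤ) * G := by
      ext I
      rw [coeff_sub, coeff_C_mul, coeff_C_mul, coeff_euler, hG, coeff_Bop, coeff_Bop]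
      have := congrArg (Nat.cast : ℕ → ℤ) (bin_succ I μ h)
      push_cast at this
      linear_combination coeff I P * this
    have hw := wt_nonneg d (Finsupp.single h 1)
    have h1 : ∀ J ∈ (pderiv h (sh n G)).support, θ - wt d μ - wt d (Finsupp.single h 1)
        ≤ wt d J := by
      intro J hJ
      rw [mem_support_iff, coeff_pderiv] at hJ
      have := ih _ (mem_support_iff.2 (left_ne_zero_of_mul hJ))
      rw [wt_add] at this
      linarith
    intro I hI
    have h2 : I ∈ (sh n (X h * pderiv h G - C (μ h : ℤ) * G)).support := by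
      rw [← e, map_mul, sh_C, mem_support_iff, coeff_C_mul]
      exact mul_ne_zero (by positivity) (mem_support_iff.1 hI)
    rw [map_sub, map_mul, map_mul, sh_C, ← pderiv_sh, sub_eq_add_neg] at h2
    rw [wt_add]
    rcases mem_union.1 (support_add h2) with h3 | h3
    · obtain ⟨a, -, b, hb, rfl⟩ := mem_add.1 (support_mul _ _ h3)
      have := h1 b hb
      have := wt_nonneg d a
      rw [wt_add]; linarith
    · rw [support_neg, C_mul'] at h3
      have := ih I (support_smul h3)
      linarith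

end Pool.Agent.H41Roth
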