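import Pool.Agent.MP_7a723b_nt.RothA

/-! Generalised Wronskians and Roth's lemma at integer points. -/

namespace Pool.Agent.H41Roth

open MvPolynomial Finset

section wronsk

variable {σ : Type} [Fintype σ]

lemma interp {k : ℕ} (lam : Fin k → σ →₀ ℕ) (hinj : Function.Injective lam) :
    ∃ μ : Fin k → σ →₀ ℕ, (∀ r, ∑ h, μ r h ≤ k - 1) ∧
      (Matrix.of fun r t => (bin (lam t) (μ r) : ℚ)).det ≠ 0 := by
  classical
  let A : ℕ → Set (Fin k → ℚ) := fun j =>
    {v | ∃ μ : σ →₀ ℕ, ∑ h, μ h ≤ j ∧ v = fun t => (bin (lam t) μ : ℚ)}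
  let M : ℕ → Submodule ℚ (Fin k → ℚ) := fun j => Submodule.span ℚ (A j)
  have hmul : ∀ j h (c : ℚ), ∀ f ∈ M j, (fun t => ((lam t h : ℚ) - c) * f t) ∈ M (j + 1) := by
    intro j h c f hf
    induction hf using Submodule.span_induction with
    | mem v hv =>
      obtain ⟨μ, h1, rfl⟩ := hv
      have e : (fun t => ((lam t h : ℚ) - c) * (bin (lam t) μ : ℚ))
          = ((μ h : ℚ) + 1) • (fun t => (bin (lam t) (μ + Finsupp.single h 1) : ℚ))
            + ((μ h : ℚ) - c) • fun t => (bin (lam t) μ : ℚ) := by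
        funext t
        have := congrArg (Nat.cast : ℕ → ℚ) (bin_succ (lam t) μ h)
        push_cast at this
        simp only [Pi.add_apply, Pi.smul_apply, smul_eq_mul]
        linear_combination -this
      rw [e]
      refine add_mem (Submodule.smul_mem _ _ (Submodule.subset_span ⟨_, ?_, rfl⟩))
        (Submodule.smul_mem _ _ (Submodule.subset_span ⟨μ, by omega, rfl⟩))
      simp only [Finsupp.add_apply, sum_add_distrib, Finsupp.single_apply, sum_ite_eq, mem_univ,
        if_true]
      omega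
    | zero =>
      have e : (fun t => ((lam t h : ℚ) - c) * (0 : Fin k → ℚ) t) = 0 := by funext t; simp
      rw [e]; exact zero_mem _
    | add u v _ _ hu hv =>
      have := add_mem hu hv
      convert this using 1
      funext t; simp [mul_add]
    | smul a u _ hu =>
      have := Submodule.smul_mem _ a hu
      convert this using 1
      funext t; simp only [Pi.smul_apply, smul_eq_mul]; ring
  have hkill : ∀ t0, ∀ S : Finset (Fin k), t0 ∉ S →
      ∃ f ∈ M S.card, f t0 ≠ 0 ∧ ∀ t ∈ S, f t = 0 := by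
    intro t0 S
    induction S using Finset.induction_on with
    | empty =>
      intro _
      exact ⟨_, Submodule.subset_span ⟨0, by simp, rfl⟩, by simp [bin_zero], by simp⟩
    | insert a S ha ih =>
      intro h0
      obtain ⟨f, h1, h2, h3⟩ := ih fun h => h0 (mem_insert_of_mem h)
      have hne : lam t0 ≠ lam a := fun e => h0 (by rw [hinj e]; exact mem_insert_self _ _)
      obtain ⟨h, hh⟩ := DFunLike.ne_iff.1 hne
      have hh' : (lam t0 h : ℚ) ≠ lam a h := by exact_mod_cast hh
      refine ⟨fun t => ((lam t h : ℚ) - lam a h) * f t,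
        by rw [card_insert_of_notMem ha]; exact hmul _ h (lam a h) f h1,
        mul_ne_zero (sub_ne_zero.2 hh') h2, fun t ht => ?_⟩
      rcases mem_insert.1 ht with rfl | ht
      · simp
      · simp [h3 t ht]
  have htop : M (k - 1) = ⊤ := by
    rw [eq_top_iff]
    intro v _
    rw [← univ_sum_single v]
    refine Submodule.sum_mem _ fun t0 _ => ?_
    obtain ⟨f, h1, h2, h3⟩ := hkill t0 (univ.erase t0) (notMem_erase _ _)
    rw [card_erase_of_mem (mem_univ _), card_univ, Fintype.card_fin] at h1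
    have := Submodule.smul_mem _ (v t0 / f t0) h1
    convert this using 1
    funext t
    by_cases e : t = t0
    · subst e; simp [h2]
    · simp [Pi.single_eq_of_ne e, h3 t (mem_erase.2 ⟨e, mem_univ _⟩)]
  have hrk : Module.finrank ℚ (Submodule.span ℚ (A (k - 1))) = k := by
    have : Submodule.span ℚ (A (k - 1)) = ⊤ := htop
    rw [this]; simp
  obtain ⟨f, hf1, -, hf3⟩ := Submodule.exists_fun_fin_finrank_span_eq ℚ (A (k - 1))
  choose μ hμ1 hμ2 using hf1
  refine ⟨fun r => μ (Fin.cast hrk.symm r), fun r => hμ1 _, ?_⟩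
  have h4 : LinearIndependent ℚ (Matrix.of fun r t =>
      (bin (lam t) (μ (Fin.cast hrk.symm r)) : ℚ)).row := by
    have e : (Matrix.of fun r t => (bin (lam t) (μ (Fin.cast hrk.symm r)) : ℚ)).row
        = f ∘ Fin.cast hrk.symm := funext fun r => (hμ2 _).symm
    rw [e]
    exact hf3.comp (Fin.cast hrk.symm) (Fin.cast_injective _)
  exact ((Matrix.isUnit_iff_isUnit_det _).1 (Matrix.linearIndependent_rows_iff_isUnit.1 h4)).ne_zero

omit [Fintype σ] in
lemma coeff_prod_top (mo : MonomialOrder σ) {ι : Type} (s : Finset ι) (g : ι → MvPolynomial σ ℚ)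
    (lam : ι → σ →₀ ℕ) (h : ∀ t, mo.toSyn (mo.degree (g t)) ≤ mo.toSyn (lam t)) :
    mo.toSyn (mo.degree (∏ t ∈ s, g t)) ≤ mo.toSyn (∑ t ∈ s, lam t) ∧
      coeff (∑ t ∈ s, lam t) (∏ t ∈ s, g t) = ∏ t ∈ s, coeff (lam t) (g t) := by
  classical
  induction s using Finset.induction_on with
  | empty => simp
  | insert a s ha ih =>
    rw [prod_insert ha, sum_insert ha, prod_insert ha]
    refine ⟨mo.degree_mul_le.trans ?_, ?_⟩
    · rw [map_add, map_add]; exact add_le_add (h a) ih.1
    · rw [mo.coeff_mul_of_add_of_degree_le (h a) ih.1, ih.2]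

lemma Bop_sum {ι : Type} (μ : σ →₀ ℕ) (s : Finset ι) (c : ι → ℚ) (f : ι → MvPolynomial σ ℚ) :
    Bop μ (∑ i ∈ s, c i • f i) = ∑ i ∈ s, Bop μ (f i) * C (c i) := by
  ext I
  rw [coeff_Bop, coeff_sum, coeff_sum, mul_sum]
  refine sum_congr rfl fun i _ => ?_
  rw [mul_comm (Bop μ (f i)), coeff_C_mul, coeff_Bop, coeff_smul, smul_eq_mul]; ring

lemma wronsk (mo : MonomialOrder σ) {k : ℕ} (f : Fin k → MvPolynomial σ ℚ)
    (hf : LinearIndependent ℚ f) :
    ∃ μ : Fin k → σ →₀ ℕ, (∀ r, ∑ h, μ r h ≤ k - 1) ∧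
      (Matrix.of fun r t => Bop (μ r) (f t)).det ≠ 0 := by
  classical
  let F : (Fin k → ℚ) → MvPolynomial σ ℚ := fun c => ∑ s, c s • f s
  let Dg : Finset (σ →₀ ℕ) := (univ.biUnion fun s => (f s).support).filter
    fun l => ∃ c, F c ≠ 0 ∧ mo.degree (F c) = l
  let L : (Fin k → ℚ) →ₗ[ℚ] (Dg → ℚ) :=
    LinearMap.pi fun l : Dg => (lcoeff ℚ l.1).comp (Fintype.linearCombination ℚ f)
  have hL : ∀ c l, L c l = coeff l.1 (F c) := fun c l => by
    simp [L, F, Fintype.linearCombination_apply, coeff_sum]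
  have hLi : Function.Injective L := by
    rw [injective_iff_map_eq_zero]
    intro c hc
    by_contra h0
    have h1 : F c ≠ 0 := fun e => h0 (funext (Fintype.linearIndependent_iff.1 hf c e))
    have h2 := mo.degree_mem_support h1
    obtain ⟨s, -, hs⟩ := supp_sum _ _ h2
    have h3 : mo.degree (F c) ∈ Dg :=
      mem_filter.2 ⟨mem_biUnion.2 ⟨s, mem_univ _, support_smul hs⟩, c, h1, rfl⟩
    have h4 := hL c ⟨_, h3⟩
    rw [hc] at h4
    exact mem_support_iff.1 h2 h4.symm
  have hk : k ≤ Dg.card := by simpa using LinearMap.finrank_le_finrank_of_injective hLi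
  obtain ⟨e⟩ : Nonempty (Fin k ↪ Dg) := Function.Embedding.nonempty_of_card_le (by simpa using hk)
  choose c hc1 hc2 using fun t => (mem_filter.1 (e t).2).2
  obtain ⟨μ, hμ1, hμ2⟩ := interp (fun t => (e t).1) (Subtype.val_injective.comp e.injective)
  refine ⟨μ, hμ1, fun h0 => ?_⟩
  have h1 : (Matrix.of fun r t => Bop (μ r) (F (c t))) = (Matrix.of fun r t => Bop (μ r) (f t))
      * Matrix.of fun s t => C (c t s) := by
    refine Matrix.ext fun r t => ?_
    rw [Matrix.mul_apply]
    exact Bop_sum _ _ _ _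
  have h2 : (Matrix.of fun r t => Bop (μ r) (F (c t))).det = 0 := by
    rw [h1, Matrix.det_mul, h0, zero_mul]
  have h3 := congrArg (coeff (∑ t, (e t).1)) h2
  rw [Matrix.det_apply', coeff_sum, coeff_zero] at h3
  have h4 : ∀ p : Equiv.Perm (Fin k), coeff (∑ t, (e t).1)
      (((Equiv.Perm.sign p : ℤ) : MvPolynomial σ ℚ) *
        ∏ t, (Matrix.of fun r t => Bop (μ r) (F (c t))) (p t) t)
      = (((Equiv.Perm.sign p : ℤ) : ℚ) *
        ∏ t, (Matrix.of fun r t => (bin (e t).1 (μ r) : ℚ)) (p t) t)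
        * ∏ t, coeff (e t).1 (F (c t)) := by
    intro p
    rw [← map_intCast (C : ℚ →+* MvPolynomial σ ℚ), coeff_C_mul,
      (coeff_prod_top mo univ _ (fun t => (e t).1) fun t => ?_).2, mul_assoc, ← prod_mul_distrib]
    · simp only [Matrix.of_apply, coeff_Bop]
    · rw [← hc2 t]
      exact mo.degree_le_iff.2 fun I hI => mo.le_degree (supp_Bop _ _ hI)
  rw [sum_congr rfl fun p _ => h4 p, ← sum_mul, ← Matrix.det_apply'] at h3
  refine mul_ne_zero hμ2 (prod_ne_zero_iff.2 fun t _ => ?_) h3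
  rw [← hc2 t]
  exact mo.coeff_degree_ne_zero_iff.2 (hc1 t)

end wronsk

section tens

variable {R : Type} [CommRing R] {m : ℕ}

/-- product of a polynomial in the variable `0` and a polynomial in the other variables -/
noncomputable def tens (V : MvPolynomial Unit R) (U : MvPolynomial (Fin m) R) :
    MvPolynomial (Fin (m + 1)) R := rename Fin.succ U * rename (fun _ => 0) V

lemma coeff_tens (V : MvPolynomial Unit R) (U : MvPolynomial (Fin m) R) (i : ℕ)
    (I : Fin m →₀ ℕ) :
    coeff (Finsupp.cons i I) (tens V U) = coeff (Finsupp.single () i) V * coeff I U := by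
  have h1 : finSuccEquiv R m (rename Fin.succ U) = Polynomial.C U := by
    induction U using MvPolynomial.induction_on with
    | C a => simp [finSuccEquiv_apply]
    | add P Q hP hQ => simp only [map_add, hP, hQ]
    | mul_X P i hP => simp only [map_mul, hP, rename_X, finSuccEquiv_X_succ]
  have h2 : finSuccEquiv R m (rename (fun _ => 0) V)
      = (uniqueAlgEquiv R Unit V).map (C : R →+* MvPolynomial (Fin m) R) := by
    induction V using MvPolynomial.induction_on with
    | C a => simp [finSuccEquiv_apply]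
    | add P Q hP hQ => simp only [map_add, hP, hQ, Polynomial.map_add]
    | mul_X P i hP =>
      simp only [map_mul, hP, rename_X, finSuccEquiv_X_zero, Polynomial.map_mul]
      simp
  rw [← finSuccEquiv_coeff_coeff, tens, map_mul, h1, h2, Polynomial.coeff_C_mul,
    Polynomial.coeff_map, mul_comm U, coeff_C_mul, coeff_uniqueAlgEquiv]

lemma sh_rename {σ τ : Type} (f : σ → τ) (n : τ → R) (P : MvPolynomial σ R) :
    sh n (rename f P) = rename f (sh (fun h => n (f h)) P) := by
  induction P using MvPolynomial.induction_on with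
  | C a => simp
  | add P Q hP hQ => simp [hP, hQ]
  | mul_X P i hP => simp [hP]

lemma sh_tens (n : Fin (m + 1) → R) (V : MvPolynomial Unit R) (U : MvPolynomial (Fin m) R) :
    sh n (tens V U) = tens (sh (fun _ => n 0) V) (sh (fun h => n h.succ) U) := by
  rw [tens, tens, map_mul, sh_rename, sh_rename]

lemma Bop_tens {ι : Type} [Fintype ι] (ν : Unit →₀ ℕ) (μ : Fin m →₀ ℕ)
    (V : ι → MvPolynomial Unit R) (U : ι → MvPolynomial (Fin m) R) :
    Bop (Finsupp.cons (ν ()) μ) (∑ t, tens (V t) (U t))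
      = ∑ t, tens (Bop ν (V t)) (Bop μ (U t)) := by
  ext I
  rw [← Finsupp.cons_tail I, coeff_Bop, coeff_sum, coeff_sum, mul_sum]
  refine sum_congr rfl fun t _ => ?_
  rw [coeff_tens, coeff_tens, coeff_Bop, coeff_Bop]
  simp only [bin, Fin.prod_univ_succ, Finsupp.cons_zero, Finsupp.cons_succ, univ_unique,
    prod_singleton, PUnit.default_eq_unit, Finsupp.single_eq_same]
  push_cast
  ring

lemma unique_sh (n : R) (V : MvPolynomial Unit R) :
    uniqueAlgEquiv R Unit (sh (fun _ => n) V)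
      = (uniqueAlgEquiv R Unit V).comp (Polynomial.X + Polynomial.C n) := by
  induction V using MvPolynomial.induction_on with
  | C a => simp
  | add P Q hP hQ => simp only [map_add, hP, hQ, Polynomial.add_comp]
  | mul_X P i hP =>
    simp only [map_mul, hP, sh_X, map_add, Polynomial.mul_comp]
    simp

end tens

open Polynomial in
lemma one_var (B : ℤ[X]) (hB : B ≠ 0) (n : ℤ) (hn : n ≠ 0) :
    ∃ e, (B.comp (Polynomial.X + Polynomial.C n)).coeff e ≠ 0 ∧
      ∃ i, n.natAbs ^ e ≤ (B.coeff i).natAbs := by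
  obtain ⟨Q, h1, h2⟩ := exists_eq_pow_rootMultiplicity_mul_and_not_dvd B hB n
  set e := B.rootMultiplicity n
  refine ⟨e, ?_, B.natTrailingDegree, ?_⟩
  · rw [h1, Polynomial.mul_comp, Polynomial.pow_comp, Polynomial.sub_comp, Polynomial.X_comp,
      Polynomial.C_comp, add_sub_cancel_right]
    have := Polynomial.coeff_X_pow_mul (Q.comp (Polynomial.X + Polynomial.C n)) e 0
    rw [zero_add] at this
    rw [this, Polynomial.coeff_zero_eq_eval_zero, Polynomial.eval_comp]
    rw [Polynomial.dvd_iff_isRoot] at h2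
    simpa [Polynomial.IsRoot] using h2
  · have hQ : Q ≠ 0 := by rintro rfl; simp at h2
    have h3 : ∀ j : ℕ, ((Polynomial.X - Polynomial.C n) ^ j).trailingCoeff = (-n) ^ j := by
      intro j
      have h4 : ((Polynomial.X - Polynomial.C n) ^ j).coeff 0 = (-n) ^ j := by
        rw [Polynomial.coeff_zero_eq_eval_zero]; simp
      rw [Polynomial.trailingCoeff_eq_coeff_zero (by rw [h4]; simp [hn]), h4]
    have h5 : B.trailingCoeff = (-n) ^ e * Q.trailingCoeff := by
      rw [← h3, ← Polynomial.trailingCoeff_mul, ← h1]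
    rw [← Polynomial.trailingCoeff, h5, Int.natAbs_mul, Int.natAbs_pow, Int.natAbs_neg]
    exact Nat.le_mul_of_pos_right _ (Int.natAbs_pos.2 (mt Polynomial.trailingCoeff_eq_zero.1 hQ))

lemma sum_max {k d : ℕ} (hk : 1 ≤ k) (hkd : k ≤ d + 1) (hd : 0 < d) {θ : ℝ} (hθ : 0 ≤ θ) :
    k * min (θ / 2) (θ ^ 2 / 4) ≤ ∑ j ∈ range k, max (θ - (j : ℝ) / d) 0 := by
  have hdR : (0 : ℝ) < d := by exact_mod_cast hd
  have h1 : ∀ t : ℕ, ∑ j ∈ range (t + 1), (θ - (j : ℝ) / d) = (t + 1) * (θ - t / (2 * d)) := by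
    intro t
    induction t with
    | zero => simp
    | succ t ih => rw [sum_range_succ, ih]; push_cast; field_simp; ring
  have h2 : ∀ t : ℕ, t + 1 ≤ k → (t : ℝ) ≤ θ * d →
      (t + 1) * (θ / 2) ≤ ∑ j ∈ range k, max (θ - (j : ℝ) / d) 0 := by
    intro t ht1 ht2
    have a1 : (t : ℝ) / (2 * d) ≤ θ / 2 := by rw [div_le_iff₀ (by positivity)]; linarith
    calc ((t : ℝ) + 1) * (θ / 2) ≤ (t + 1) * (θ - t / (2 * d)) := by gcongr; linarith
      _ = ∑ j ∈ range (t + 1), (θ - (j : ℝ) / d) := (h1 t).symm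
      _ ≤ ∑ j ∈ range (t + 1), max (θ - (j : ℝ) / d) 0 := sum_le_sum fun _ _ => le_max_left _ _
      _ ≤ _ := sum_le_sum_of_subset_of_nonneg (range_subset_range.2 ht1)
          fun _ _ _ => le_max_right _ _
  obtain ⟨k, rfl⟩ : ∃ j, k = j + 1 := ⟨k - 1, by omega⟩
  rcases le_or_gt (k : ℝ) (θ * d) with h | h
  · refine le_trans ?_ (h2 k le_rfl h)
    push_cast
    gcongr
    exact min_le_left _ _
  · have a1 : ⌊θ * d⌋₊ < k := (Nat.floor_lt (by positivity)).2 h
    have a2 := h2 ⌊θ * d⌋₊ (by omega) (Nat.floor_le (by positivity))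
    have a3 := Nat.lt_floor_add_one (θ * d)
    have a4 : (k : ℝ) ≤ d := by exact_mod_cast (by omega : k ≤ d)
    have a5 : (1 : ℝ) ≤ k := by exact_mod_cast (by omega : 1 ≤ k)
    refine le_trans ?_ a2
    push_cast
    calc ((k : ℝ) + 1) * min (θ / 2) (θ ^ 2 / 4) ≤ (2 * d) * (θ ^ 2 / 4) := by
          gcongr
          · linarith
          · exact min_le_right _ _
      _ = (θ * d) * (θ / 2) := by ring
      _ ≤ _ := by gcongr

end Pool.Agent.H41Roth
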