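import Pool.Agent.MP_7a723b_nt.RothB

/-! Roth's lemma at integer points. -/

namespace Pool.Agent.H41Roth

open MvPolynomial Finset

variable {m : ℕ}

lemma decomp (P : MvPolynomial (Fin (m + 1)) ℚ) (d0 : ℕ) (hd : ∀ I ∈ P.support, I 0 ≤ d0) :
    ∃ k ≤ d0 + 1, ∃ (φ : Fin k → MvPolynomial (Fin m) ℚ) (ψ : Fin k → MvPolynomial Unit ℚ),
      LinearIndependent ℚ φ ∧ LinearIndependent ℚ ψ ∧ P = ∑ t, tens (ψ t) (φ t) := by
  classical
  let Q : Fin (d0 + 1) → MvPolynomial (Fin m) ℚ := fun i => (finSuccEquiv ℚ m P).coeff i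
  have := Module.Finite.span_of_finite ℚ (Set.finite_range Q)
  obtain ⟨φ, h1, h2, h3⟩ := Submodule.exists_fun_fin_finrank_span_eq ℚ (Set.range Q)
  have h4 : ∀ i, ∃ c : _ → ℚ, ∑ t, c t • φ t = Q i := fun i =>
    (Submodule.mem_span_range_iff_exists_fun ℚ).1 (by
      rw [h2]; exact Submodule.subset_span ⟨i, rfl⟩)
  choose c hc using h4
  let ψ : _ → MvPolynomial Unit ℚ := fun t =>
    ∑ i : Fin (d0 + 1), monomial (Finsupp.single () (i : ℕ)) (c i t)
  have hψ : ∀ t (j : ℕ), coeff (Finsupp.single () j) (ψ t)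
      = if h : j < d0 + 1 then c ⟨j, h⟩ t else 0 := by
    intro t j
    simp only [ψ, coeff_sum, coeff_monomial, (Finsupp.single_injective ()).eq_iff]
    split_ifs with h
    · rw [sum_eq_single ⟨j, h⟩ (fun b _ hb => if_neg fun e => hb (Fin.ext e)) (by simp), if_pos rfl]
    · exact sum_eq_zero fun b _ => if_neg fun e : (b : ℕ) = j => h (e ▸ b.2)
  refine ⟨Module.finrank ℚ (Submodule.span ℚ (Set.range Q)),
    (finrank_range_le_card (R := ℚ) Q).trans (by simp), φ, ψ, h3, ?_, ?_⟩
  · rw [Fintype.linearIndependent_iff]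
    intro a ha s
    obtain ⟨i, hi⟩ := h1 s
    have e1 : c i = Pi.single s 1 := by
      have e2 : ∑ t, (c i t - (Pi.single s 1 : _ → ℚ) t) • φ t = 0 := by
        simp only [sub_smul, sum_sub_distrib, hc, hi]
        simp [Pi.single_apply]
      funext t
      exact sub_eq_zero.1 (Fintype.linearIndependent_iff.1 h3 _ e2 t)
    have e3 := congrArg (coeff (Finsupp.single () (i : ℕ))) ha
    simp only [coeff_sum, coeff_smul, hψ, dif_pos i.2, Fin.eta, e1, coeff_zero] at e3
    simpa [Pi.single_apply] using e3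
  · ext I
    rw [← Finsupp.cons_tail I, coeff_sum]
    simp only [coeff_tens, hψ]
    by_cases h : I 0 < d0 + 1
    · simp only [dif_pos h]
      have := congrArg (coeff I.tail) (hc ⟨I 0, h⟩)
      simp only [coeff_sum, coeff_smul, smul_eq_mul, Q, finSuccEquiv_coeff_coeff] at this
      exact this.symm
    · simp only [dif_neg h, zero_mul, sum_const_zero, Finsupp.cons_tail]
      by_contra h0
      have := hd I (mem_support_iff.2 h0)
      omega

lemma map_Bop {σ R S : Type} [Fintype σ] [CommRing R] [CommRing S] (f : R →+* S) (μ : σ →₀ ℕ)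
    (P : MvPolynomial σ R) : map f (Bop μ P) = Bop μ (map f P) := by
  ext I
  simp [coeff_map, coeff_Bop]

lemma supp_det {σ : Type} {k : ℕ} (M : Matrix (Fin k) (Fin k) (MvPolynomial σ ℤ)) :
    ∀ I ∈ M.det.support, ∃ (p : Equiv.Perm (Fin k)) (g : Fin k → σ →₀ ℕ),
      (∀ s, g s ∈ (M (p s) s).support) ∧ I = ∑ s, g s := by
  intro I hI
  rw [Matrix.det_apply] at hI
  obtain ⟨p, -, hp⟩ := supp_sum _ _ hI
  obtain ⟨g, h1, h2⟩ := supp_prod _ _ I (support_smul hp)
  exact ⟨p, g, fun s => h1 s (mem_univ _), h2⟩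

lemma nrm_det {σ : Type} {k : ℕ} (M : Matrix (Fin k) (Fin k) (MvPolynomial σ ℤ)) {A : ℕ}
    (h : ∀ r s, nrm (M r s) ≤ A) : nrm M.det ≤ k.factorial * A ^ k := by
  rw [Matrix.det_apply']
  refine (nrm_sum _ _).trans ?_
  have : ∀ p : Equiv.Perm (Fin k), nrm (((Equiv.Perm.sign p : ℤ) : MvPolynomial σ ℤ)
      * ∏ s, M (p s) s) ≤ A ^ k := by
    intro p
    refine (nrm_mul _ _).trans ?_
    rw [← map_intCast (C : ℤ →+* MvPolynomial σ ℤ), nrm_C, Int.cast_id, Int.units_natAbs, one_mul]
    refine (nrm_prod _ _).trans ?_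
    simpa using prod_le_pow_card univ _ A fun s _ => h (p s) s
  refine (sum_le_card_nsmul _ _ _ fun p _ => this p).trans ?_
  simp [Fintype.card_perm]

lemma wdet {d : Fin (m + 1) → ℕ} {P : MvPolynomial (Fin (m + 1)) ℤ} (hP : P ≠ 0) (hB : Box d P)
    (hd : ∀ h, 0 < d h) :
    ∃ k, 1 ≤ k ∧ k ≤ d 0 + 1 ∧ ∃ (W : MvPolynomial (Fin (m + 1)) ℤ) (V : MvPolynomial Unit ℚ)
      (U : MvPolynomial (Fin m) ℚ), V ≠ 0 ∧ U ≠ 0 ∧ map (Int.castRingHom ℚ) W = tens V U ∧
      Box (fun h => k * d h) W ∧ nrm W ≤ k.factorial * (2 ^ (∑ h, d h) * nrm P) ^ k ∧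
      ∀ (n : Fin (m + 1) → ℤ) (θ ω : ℝ), Ind n d θ P → 0 ≤ ω →
        (∀ h : Fin m, (d 0 : ℝ) ≤ ω * d h.succ) →
        Ind n d (∑ j ∈ range k, max (θ - (j : ℝ) / d 0) 0 - k * ω) W := by
  classical
  obtain ⟨k, hk, φ, ψ, hφ, hψ, hdec⟩ := decomp (map (Int.castRingHom ℚ) P) (d 0)
    fun I hI => hB I (support_map_subset _ _ hI) 0
  have hk1 : 1 ≤ k := by
    rcases k with _ | k
    · exact absurd (map_injective (Int.castRingHom ℚ) Int.cast_injective (by simpa using hdec)) hP
    · omega
  obtain ⟨μ, hμ1, hμ2⟩ := wronsk MonomialOrder.lex φ hφ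
  obtain ⟨ν, hν1, hν2⟩ := wronsk (σ := Unit) MonomialOrder.lex ψ hψ
  have hν3 : ∀ s, ν s () < k := fun s => by
    have : ν s () ≤ k - 1 := by simpa using hν1 s
    omega
  have hν4 : Function.Injective fun s => ν s () := by
    intro s s' e
    by_contra hne
    have e' : ν s = ν s' := Finsupp.ext fun _ => e
    exact hν2 (Matrix.det_zero_of_row_eq hne (by funext t; simp [e']))
  let M : Matrix (Fin k) (Fin k) (MvPolynomial (Fin (m + 1)) ℤ) :=
    Matrix.of fun r s => Bop (Finsupp.cons (ν s ()) (μ r)) P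
  refine ⟨k, hk1, hk, M.det, _, _, hν2, hμ2, ?_, ?_, ?_, ?_⟩
  · have e : (map (Int.castRingHom ℚ)).mapMatrix M
        = (rename Fin.succ).toRingHom.mapMatrix (Matrix.of fun r t => Bop (μ r) (φ t))
          * ((rename fun _ => 0).toRingHom.mapMatrix
            (Matrix.of fun r t => Bop (ν r) (ψ t))).transpose := by
      refine Matrix.ext fun r s => ?_
      rw [Matrix.mul_apply]
      change map (Int.castRingHom ℚ) (Bop _ P) = _
      rw [map_Bop, hdec, Bop_tens]
      rfl
    rw [RingHom.map_det, e, Matrix.det_mul, Matrix.det_transpose, ← RingHom.map_det,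
      ← RingHom.map_det]
    rfl
  · intro I hI h
    obtain ⟨p, g, h1, rfl⟩ := supp_det M I hI
    rw [Finsupp.finsetSum_apply]
    simpa using sum_le_card_nsmul univ _ (d h) fun s _ => hB _ (supp_Bop _ _ (h1 s)) h
  · exact nrm_det M fun r s => nrm_Bop hB _
  · intro n θ ω hI hω hdd I hIs
    rw [show sh n M.det = ((sh n).toRingHom.mapMatrix M).det from
      RingHom.map_det (sh n).toRingHom M] at hIs
    obtain ⟨p, g, h1, rfl⟩ := supp_det _ I hIs
    have hd0 : (0 : ℝ) < d 0 := by exact_mod_cast hd 0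
    have h2 : ∀ s, max (θ - (ν s () : ℝ) / d 0) 0 - ω ≤ wt d (g s) := by
      intro s
      have a1 := hI.Bop (Finsupp.cons (ν s ()) (μ (p s))) (g s) (h1 s)
      have a2 : wt d (Finsupp.cons (ν s ()) (μ (p s))) ≤ (ν s () : ℝ) / d 0 + ω := by
        simp only [wt, Fin.sum_univ_succ, Finsupp.cons_zero, Finsupp.cons_succ]
        gcongr
        have b1 : ((∑ h, μ (p s) h : ℕ) : ℝ) ≤ d 0 := by
          exact_mod_cast (hμ1 (p s)).trans (by omega)
        calc ∑ h : Fin m, (μ (p s) h : ℝ) / d h.succ ≤ ∑ h : Fin m, (μ (p s) h : ℝ) * (ω / d 0) := by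
              refine sum_le_sum fun h _ => ?_
              have b2 : (0 : ℝ) < d h.succ := by exact_mod_cast hd _
              rw [div_eq_mul_one_div]
              refine mul_le_mul_of_nonneg_left ?_ (by positivity)
              rw [div_le_div_iff₀ b2 hd0, one_mul]
              exact hdd h
          _ = ((∑ h, μ (p s) h : ℕ) : ℝ) * (ω / d 0) := by rw [← sum_mul]; push_cast; rfl
          _ ≤ d 0 * (ω / d 0) := by gcongr
          _ = ω := by field_simp
      have a3 := wt_nonneg d (g s)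
      rcases le_total (θ - (ν s () : ℝ) / d 0) 0 with a4 | a4
      · rw [max_eq_right a4]; linarith
      · rw [max_eq_left a4]; linarith
    have h3 : ∑ s, max (θ - (ν s () : ℝ) / d 0) 0 = ∑ j ∈ range k, max (θ - (j : ℝ) / d 0) 0 := by
      rw [← sum_image (s := univ) (g := fun s => ν s ())
        (f := fun j : ℕ => max (θ - (j : ℝ) / d 0) 0) hν4.injOn]
      congr 1
      refine eq_of_subset_of_card_le (fun j hj => ?_) ?_
      · obtain ⟨s, -, rfl⟩ := mem_image.1 hj
        exact mem_range.2 (hν3 s)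
      · rw [card_image_of_injective _ hν4]; simp
    rw [wt_sum, ← h3]
    have := sum_le_sum fun s (_ : s ∈ univ) => h2 s
    rw [sum_sub_distrib] at this
    simpa using this

lemma log_fact_le (k : ℕ) : Real.log k.factorial ≤ k * ((k : ℝ) - 1) := by
  rcases Nat.eq_zero_or_pos k with rfl | hk
  · simp
  have h0 : (0 : ℝ) < k := by exact_mod_cast hk
  calc Real.log k.factorial ≤ Real.log ((k : ℝ) ^ k) :=
        Real.log_le_log (by positivity) (by exact_mod_cast Nat.factorial_le_pow k)
    _ = k * Real.log k := Real.log_pow _ _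
    _ ≤ _ := by gcongr; exact Real.log_le_sub_one_of_pos h0

theorem roth_lemma : ∀ (m : ℕ) (η : ℝ), 0 < η → η ≤ 1 / 2 → ∀ (d : Fin m → ℕ) (n : Fin m → ℤ)
    (P : MvPolynomial (Fin m) ℤ), P ≠ 0 → Box d P → (∀ h, 0 < d h) →
    (∀ h h', h < h' → (d h : ℝ) ≤ η ^ 2 ^ m * d h') → (∀ h, 2 ≤ n h) →
    (∀ h, Real.log (nrm P) + 4 * m * ∑ h, (d h : ℝ) ≤ η ^ 2 ^ m * d h * Real.log (n h)) →
    ∃ I ∈ (sh n P).support, wt d I ≤ 3 * m * η := by
  intro m
  induction m with
  | zero =>
    intro η _ _ d n P hP _ _ _ _ _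
    obtain ⟨I, hI⟩ := ne_zero_iff.1 (sh_ne_zero n hP)
    exact ⟨I, mem_support_iff.2 hI, by simp [wt]⟩
  | succ m ih =>
    intro η hη hη2 d n P hP hB hd hdd hn hH
    classical
    by_contra hcon
    have hI : Ind n d (3 * ((m : ℝ) + 1) * η) P := fun I hI => by
      by_contra h
      exact hcon ⟨I, hI, by push_cast; linarith⟩
    have hωe : η ^ 2 ^ (m + 1) = (η ^ 2) ^ 2 ^ m := by rw [← pow_mul, pow_succ']
    set ω := η ^ 2 ^ (m + 1) with hω
    have hω0 : 0 < ω := by positivity
    have hη3 : η ^ 2 ≤ 1 / 2 := by nlinarith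
    have hω1 : ω ≤ η ^ 2 := by
      rw [hωe]
      exact pow_le_of_le_one (by positivity) (by linarith) (by positivity)
    obtain ⟨k, hk1, hk2, W, V, U, hV, hU, hW, hWB, hWn, hWI⟩ := wdet hP hB hd
    have hkR : (0 : ℝ) < k := by exact_mod_cast hk1
    have hco : ∀ i I, ((coeff (Finsupp.cons i I) W : ℤ) : ℚ)
        = coeff (Finsupp.single () i) V * coeff I U := fun i I => by
      rw [← coeff_tens, ← hW, coeff_map]; rfl
    obtain ⟨i0', hi0⟩ := ne_zero_iff.1 hV
    obtain ⟨i0, rfl⟩ : ∃ i, i0' = Finsupp.single () i := ⟨i0' (), Finsupp.ext fun _ => by simp⟩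
    obtain ⟨I0, hI0⟩ := ne_zero_iff.1 hU
    have hS0 : (0 : ℝ) ≤ ∑ h : Fin m, (d h.succ : ℝ) := sum_nonneg fun _ _ => by positivity
    have hd0 : (0 : ℝ) < d 0 := by exact_mod_cast hd 0
    have hlog : ∀ a : ℕ, 0 < a → a ≤ nrm W →
        Real.log a ≤ k * (Real.log (nrm P) + 2 * ∑ h, (d h : ℝ)) := by
      intro a ha1 ha2
      have b0 : (0 : ℝ) < nrm P := by exact_mod_cast nrm_pos hP
      have b1 : Real.log a ≤ Real.log (k.factorial * (2 ^ (∑ h, d h) * nrm P) ^ k) :=
        Real.log_le_log (by exact_mod_cast ha1) (by exact_mod_cast ha2.trans hWn)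
      rw [Real.log_mul (by positivity) (by positivity), Real.log_pow,
        Real.log_mul (by positivity) (by positivity), Real.log_pow] at b1
      have b2 := log_fact_le k
      have b3 : (k : ℝ) - 1 ≤ ∑ h, (d h : ℝ) := by
        rw [Fin.sum_univ_succ]
        have : (k : ℝ) ≤ d 0 + 1 := by exact_mod_cast hk2
        linarith
      have b4 : ((∑ h, d h : ℕ) : ℝ) * Real.log 2 ≤ ∑ h, (d h : ℝ) := by
        push_cast
        have := Real.log_two_lt_d9
        exact mul_le_of_le_one_right (sum_nonneg fun _ _ => by positivity) (by linarith)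
      nlinarith
    -- the slice in the last `m` variables
    let U' : MvPolynomial (Fin m) ℤ := (finSuccEquiv ℤ m W).coeff i0
    have hU1 : ∀ I, coeff I U' = coeff (Finsupp.cons i0 I) W := fun I =>
      finSuccEquiv_coeff_coeff _ _ _
    have hU2 : map (Int.castRingHom ℚ) U' = C (coeff (Finsupp.single () i0) V) * U := by
      ext I
      rw [coeff_map, coeff_C_mul, hU1, ← hco]; rfl
    have hU3 : U' ≠ 0 := by
      intro e
      have := congrArg (coeff I0) hU2
      rw [e, map_zero, coeff_zero, coeff_C_mul] at this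
      exact mul_ne_zero hi0 hI0 this.symm
    have hU4 : nrm U' ≤ nrm W := by
      rw [nrm, nrm]
      simp only [hU1]
      rw [← sum_image (s := U'.support) (g := fun I => Finsupp.cons i0 I)
        (f := fun I => (coeff I W).natAbs) (Finsupp.cons_right_injective i0).injOn]
      refine sum_le_sum_of_subset fun J hJ => ?_
      obtain ⟨I, hI, rfl⟩ := mem_image.1 hJ
      rw [mem_support_iff] at hI ⊢
      rwa [← hU1]
    obtain ⟨J, hJ1, hJ2⟩ := ih (η ^ 2) (by positivity) hη3 (fun h => k * d h.succ)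
      (fun h => n h.succ) U' hU3
      (fun I hI h => by
        have := hWB (Finsupp.cons i0 I) (by rw [mem_support_iff] at hI ⊢; rwa [← hU1]) h.succ
        simpa using this)
      (fun h => Nat.mul_pos hk1 (hd _))
      (fun h h' hh => by
        have := hdd h.succ h'.succ (Fin.succ_lt_succ_iff.2 hh)
        rw [← hωe]; push_cast; nlinarith)
      (fun h => hn _)
      (fun h => by
        have a1 := hlog _ (nrm_pos hU3) hU4
        have a2 := mul_le_mul_of_nonneg_left (hH h.succ) hkR.le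
        rw [← hωe]
        push_cast at a2 ⊢
        rw [← mul_sum]
        rw [Fin.sum_univ_succ] at a1 a2
        have a3 : 0 ≤ (k : ℝ) * (m * d 0) := by positivity
        have a4 : 0 ≤ (k : ℝ) * d 0 := by positivity
        have a5 := mul_nonneg hkR.le hS0
        nlinarith)
    have hJ3 : coeff J (sh (fun h => ((n h.succ : ℤ) : ℚ)) U) ≠ 0 := by
      intro e
      have := congrArg (coeff J) (map_sh (Int.castRingHom ℚ) (fun h => n h.succ) U')
      rw [hU2, map_mul, sh_C, coeff_C_mul, coeff_map] at this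
      simp only [eq_intCast] at this
      rw [e, mul_zero] at this
      exact mem_support_iff.1 hJ1 (by exact_mod_cast this)
    have hJ4 : wt (fun h => d h.succ) J ≤ k * (3 * m * η ^ 2) := by
      have : wt (fun h => d h.succ) J = k * wt (fun h => k * d h.succ) J := by
        simp only [wt, mul_sum]
        refine sum_congr rfl fun h _ => ?_
        push_cast; field_simp
      rw [this]; gcongr
    -- the slice in the first variable
    let B : Polynomial ℤ := ∑ i ∈ (finSuccEquiv ℤ m W).support,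
      Polynomial.monomial i (coeff (Finsupp.cons i I0) W)
    have hB1 : ∀ i, B.coeff i = coeff (Finsupp.cons i I0) W := by
      intro i
      simp only [B, Polynomial.finsetSum_coeff, Polynomial.coeff_monomial, sum_ite_eq']
      split_ifs with h
      · rfl
      · rw [← finSuccEquiv_coeff_coeff, Polynomial.notMem_support_iff.1 h, coeff_zero]
    have hB2 : B.map (Int.castRingHom ℚ)
        = Polynomial.C (coeff I0 U) * uniqueAlgEquiv ℚ Unit V := by
      ext i
      rw [Polynomial.coeff_map, Polynomial.coeff_C_mul, hB1, coeff_uniqueAlgEquiv, mul_comm,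
        ← hco]; rfl
    have hB3 : B ≠ 0 := by
      intro e
      have := hco i0 I0
      rw [← hB1, e] at this
      exact mul_ne_zero hi0 hI0 (by simpa using this.symm)
    have hn0 := hn 0
    obtain ⟨e, he1, i, he2⟩ := one_var B hB3 (n 0) (by omega)
    have he3 : coeff (Finsupp.single () e) (sh (fun _ => ((n 0 : ℤ) : ℚ)) V) ≠ 0 := by
      intro e0
      have := congrArg (fun Q => (Q.comp (Polynomial.X + Polynomial.C ((n 0 : ℤ) : ℚ))).coeff e) hB2
      simp only [Polynomial.mul_comp, Polynomial.C_comp, Polynomial.coeff_C_mul] at this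
      rw [← unique_sh, coeff_uniqueAlgEquiv, e0, mul_zero] at this
      apply he1
      have e1 := congrArg (fun Q => Q.coeff e) (Polynomial.map_comp (Int.castRingHom ℚ) B
        (Polynomial.X + Polynomial.C (n 0)))
      simp only [Polynomial.map_add, Polynomial.map_X, Polynomial.map_C, Polynomial.coeff_map] at e1
      exact Int.cast_eq_zero.1 (e1.trans this)
    have he4 : (e : ℝ) / d 0 ≤ k * ω := by
      have a0 : (2 : ℝ) ≤ n 0 := by exact_mod_cast hn0
      have a1 := hlog _ (pow_pos (Int.natAbs_pos.2 (by omega : n 0 ≠ 0)) e)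
        (he2.trans (by rw [hB1]; exact coeff_le_nrm _ _))
      rw [Nat.cast_pow, Real.log_pow, Nat.cast_natAbs, abs_of_pos (by omega)] at a1
      have a2 := mul_le_mul_of_nonneg_left (hH 0) hkR.le
      have a3 : 0 < Real.log (n 0) := Real.log_pos (by linarith)
      have a4 : 0 ≤ ∑ h, (d h : ℝ) := sum_nonneg fun _ _ => by positivity
      have a5 : 0 ≤ (k : ℝ) * (m * ∑ h, (d h : ℝ)) := by positivity
      have a6 := mul_nonneg hkR.le a4
      rw [div_le_iff₀ hd0]
      refine le_of_mul_le_mul_right ?_ a3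
      push_cast at a2
      nlinarith
    have hm : Finsupp.cons e J ∈ (sh n W).support := by
      rw [mem_support_iff]
      intro e0
      have := congrArg (coeff (Finsupp.cons e J)) (map_sh (Int.castRingHom ℚ) n W)
      rw [hW, sh_tens, coeff_tens, coeff_map, e0, map_zero] at this
      exact mul_ne_zero he3 hJ3 this.symm
    have h1 := hWI n _ ω hI hω0.le (fun h => hdd 0 h.succ (Fin.succ_pos h)) _ hm
    have h2 := sum_max hk1 hk2 (hd 0) (θ := 3 * ((m : ℝ) + 1) * η) (by positivity)
    have h3 : wt d (Finsupp.cons e J) = (e : ℝ) / d 0 + wt (fun h => d h.succ) J := by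
      simp only [wt, Fin.sum_univ_succ, Finsupp.cons_zero, Finsupp.cons_succ]
    have hm0 : (0 : ℝ) ≤ m := by positivity
    have h4 : (3 * m + 2) * η ^ 2
        < min (3 * ((m : ℝ) + 1) * η / 2) ((3 * ((m : ℝ) + 1) * η) ^ 2 / 4) := by
      have c1 : 0 < η ^ 2 := by positivity
      refine lt_min ?_ ?_
      · have : η ^ 2 ≤ η / 2 := by nlinarith
        nlinarith
      · nlinarith [mul_nonneg hm0 c1.le, mul_nonneg (mul_nonneg hm0 hm0) c1.le]
    have h5 := mul_lt_mul_of_pos_left h4 hkR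
    have h6 := mul_le_mul_of_nonneg_left hω1 hkR.le
    nlinarith

end Pool.Agent.H41Roth
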