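import Pool.Agent.MP_7a723b_nt.RothC

/-! A Ridout-type theorem: a natural number cannot be close to small integers, `p`-adically,
at too many primes at once. -/

namespace Pool.Agent.H41Roth

open MvPolynomial Finset

lemma siegel_int {α γ : Type} [Fintype α] [Fintype γ] (A : Matrix α γ ℤ) (D : ℤ) (hD : 1 ≤ D)
    (hA : ∀ i j, |A i j| ≤ D) (hlt : Fintype.card α < Fintype.card γ)
    (he : 2 * Fintype.card α ≤ Fintype.card γ) :
    ∃ t : γ → ℤ, t ≠ 0 ∧ A.mulVec t = 0 ∧ ∀ j, |t j| ≤ Fintype.card γ * D := by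
  classical
  have hγ : (1 : ℤ) ≤ Fintype.card γ := by exact_mod_cast (Nat.zero_le _).trans_lt hlt
  rcases Nat.eq_zero_or_pos (Fintype.card α) with h0 | h0
  · have : IsEmpty α := Fintype.card_eq_zero_iff.1 h0
    refine ⟨fun _ => 1, ?_, Subsingleton.elim _ _, fun j => ?_⟩
    · have : Nonempty γ := Fintype.card_pos_iff.1 ((Nat.zero_le _).trans_lt hlt)
      intro h
      simpa using congrFun h (Classical.arbitrary γ)
    · simpa using one_le_mul_of_one_le_of_one_le hγ hD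
  let : SeminormedAddCommGroup (Matrix α γ ℤ) := Matrix.seminormedAddCommGroup
  obtain ⟨t, h1, h2, h3⟩ := Int.Matrix.exists_ne_zero_int_vec_norm_le A hlt h0
  refine ⟨t, h1, h2, fun j => ?_⟩
  have hD' : (1 : ℝ) ≤ D := by exact_mod_cast hD
  have hγ' : (1 : ℝ) ≤ Fintype.card γ := by exact_mod_cast hγ
  have hn : ‖A‖ ≤ D := (Matrix.norm_le_iff (by linarith)).2 fun i j => by
    rw [Int.norm_eq_abs]; exact_mod_cast hA i j
  have hpos : (0 : ℝ) < (Fintype.card γ : ℝ) - Fintype.card α := by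
    rw [sub_pos]; exact_mod_cast hlt
  have h4 : ‖t j‖ ≤ (Fintype.card γ : ℝ) * D := by
    calc ‖t j‖ ≤ ‖t‖ := norm_le_pi_norm t j
      _ ≤ _ := h3
      _ ≤ ((Fintype.card γ : ℝ) * D) ^
          ((Fintype.card α : ℝ) / (Fintype.card γ - Fintype.card α)) := by
        gcongr
        exact max_le hD' hn
      _ ≤ ((Fintype.card γ : ℝ) * D) ^ (1 : ℝ) := by
        refine Real.rpow_le_rpow_of_exponent_le (one_le_mul_of_one_le_of_one_le hγ' hD') ?_
        rw [div_le_iff₀ hpos]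
        have : ((2 * Fintype.card α : ℕ) : ℝ) ≤ Fintype.card γ := by exact_mod_cast he
        push_cast at this
        linarith
      _ = _ := Real.rpow_one _
  rw [Int.norm_eq_abs] at h4
  exact_mod_cast h4

section box

variable {σ : Type} [Fintype σ] [DecidableEq σ]

/-- the exponents bounded by `d` -/
noncomputable def box (d : σ → ℕ) : Finset (σ →₀ ℕ) :=
  (Fintype.piFinset fun h => range (d h + 1)).map Finsupp.equivFunOnFinite.symm.toEmbedding

lemma mem_box {d : σ → ℕ} {I : σ →₀ ℕ} : I ∈ box d ↔ ∀ h, I h ≤ d h := by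
  simp [box]

lemma card_box (d : σ → ℕ) : (box d).card = ∏ h, (d h + 1) := by simp [box]

lemma bad_count {m : ℕ} (hm : Fintype.card σ = 4 * m) {d : σ → ℕ} (hd : ∀ h, 0 < d h) :
    128 ^ m * ((box d).filter fun J => wt d J < (m : ℝ) / 2).card ≤ 81 ^ m * (box d).card := by
  let g : σ → ℕ → ℕ := fun h j => if 2 * j < d h then 2 else 1
  have h1 : ∀ h, 2 * ∑ j ∈ range (d h + 1), g h j ≤ 3 * (d h + 1) := by
    intro h
    have a1 : ∑ j ∈ range (d h + 1), g h j
        = ∑ j ∈ range (d h + 1), (1 + if 2 * j < d h then 1 else 0) :=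
      sum_congr rfl fun j _ => by simp only [g]; split_ifs <;> rfl
    have a2 : ((range (d h + 1)).filter fun j => 2 * j < d h).card ≤ (d h + 1) / 2 := by
      rw [← card_range ((d h + 1) / 2)]
      refine card_le_card fun j hj => ?_
      have := (mem_filter.1 hj).2
      rw [mem_range]; omega
    rw [a1, sum_add_distrib, ← card_filter, sum_const, card_range, smul_eq_mul]
    omega
  have h2 : 16 ^ m * ∑ J ∈ box d, ∏ h, g h (J h) ≤ 81 ^ m * (box d).card := by
    have a1 : ∑ J ∈ box d, ∏ h, g h (J h) = ∏ h, ∑ j ∈ range (d h + 1), g h j := by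
      rw [prod_univ_sum, box, sum_map]; rfl
    have a2 := prod_le_prod' (s := univ) fun h _ => h1 h
    rw [prod_mul_distrib, prod_mul_distrib, prod_const, prod_const, card_univ, hm, pow_mul,
      pow_mul] at a2
    rw [a1, card_box]
    exact a2
  have h3 : ∀ J : σ →₀ ℕ, wt d J < (m : ℝ) / 2 → 8 ^ m ≤ ∏ h, g h (J h) := by
    intro J hJ
    have a1 : ((univ.filter fun h => ¬ 2 * J h < d h).card : ℝ) * (1 / 2) ≤ wt d J := by
      rw [← nsmul_eq_mul, wt]
      refine (card_nsmul_le_sum _ (fun h => (J h : ℝ) / d h) _ fun h hh => ?_).trans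
        (sum_le_sum_of_subset_of_nonneg (filter_subset _ _) fun _ _ _ => by positivity)
      have b1 : (d h : ℝ) ≤ 2 * J h := by exact_mod_cast not_lt.1 (mem_filter.1 hh).2
      rw [le_div_iff₀ (by exact_mod_cast hd h)]
      linarith
    have a2 : (univ.filter fun h => ¬ 2 * J h < d h).card < m := by
      have : ((univ.filter fun h => ¬ 2 * J h < d h).card : ℝ) < m := by linarith
      exact_mod_cast this
    have a3 := card_filter_add_card_filter_not (s := univ) fun h => 2 * J h < d h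
    rw [card_univ, hm] at a3
    simp only [g]
    rw [prod_ite, prod_const, prod_const_one, mul_one, show 8 = 2 ^ 3 from rfl, ← pow_mul]
    exact Nat.pow_le_pow_right two_pos (by omega)
  refine le_trans ?_ h2
  rw [show 128 = 16 * 8 from rfl, mul_pow, mul_assoc]
  refine Nat.mul_le_mul_left _ ?_
  rw [mul_comm, ← smul_eq_mul]
  exact (card_nsmul_le_sum _ _ _ fun J hJ => h3 J (mem_filter.1 hJ).2).trans
    (sum_le_sum_of_subset (filter_subset _ _))

lemma aux_poly {ι : Type} (S : Finset ι) {m : ℕ} (hm : Fintype.card σ = 4 * m)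
    (hS : 4 * S.card ≤ m) {d : σ → ℕ} (hd : ∀ h, 0 < d h) (j : ι → σ → ℤ) {A : ℕ} (hA1 : 1 ≤ A)
    (hA : ∀ p ∈ S, ∏ h, (1 + (j p h).natAbs) ^ d h ≤ A) :
    ∃ P : MvPolynomial σ ℤ, P ≠ 0 ∧ Box d P ∧ nrm P ≤ (∏ h, (d h + 1)) ^ 2 * A ∧
      ∀ p ∈ S, Ind (j p) d ((m : ℝ) / 2) P := by
  classical
  set bad := (box d).filter fun J => wt d J < (m : ℝ) / 2 with hbad
  have h0 : ∀ t : ℕ, (2 + t) * 81 ^ t ≤ 2 * 128 ^ t := by
    intro t
    induction t with
    | zero => simp
    | succ t ih => rw [pow_succ, pow_succ]; nlinarith [Nat.zero_le (t * 81 ^ t), Nat.zero_le (81 ^ t)]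
  have h1 : 2 * (S.card * bad.card) ≤ (box d).card := by
    have a1 := bad_count hm hd
    rw [← hbad] at a1
    have a2 : 2 * S.card * 81 ^ m ≤ 128 ^ m := by have := h0 m; nlinarith [Nat.zero_le (81 ^ m)]
    refine Nat.le_of_mul_le_mul_left (c := 128 ^ m) ?_ (by positivity)
    calc 128 ^ m * (2 * (S.card * bad.card)) = 2 * S.card * (128 ^ m * bad.card) := by ring
      _ ≤ 2 * S.card * (81 ^ m * (box d).card) := by gcongr
      _ = (2 * S.card * 81 ^ m) * (box d).card := by ring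
      _ ≤ _ := by gcongr
  have h2 : 0 < (box d).card := by rw [card_box]; positivity
  let M : Matrix (S × bad) (box d) ℤ := fun u I => coeff u.2.1 (sh (j u.1) (monomial I.1 1))
  obtain ⟨t, ht0, ht1, ht2⟩ := siegel_int M A (by exact_mod_cast hA1) (fun u I => by
      rw [← Int.natCast_natAbs, Nat.cast_le]
      refine (coeff_le_nrm _ _).trans ((nrm_sh_monomial _ _).trans (le_trans ?_ (hA _ u.1.2)))
      exact prod_le_prod' fun h _ => Nat.pow_le_pow_right (by omega) (mem_box.1 I.2 h))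
    (by simp only [Fintype.card_prod, Fintype.card_coe]; omega)
    (by simpa only [Fintype.card_prod, Fintype.card_coe] using h1)
  let P : MvPolynomial σ ℤ := ∑ I : box d, monomial I.1 (t I)
  have hB : Box d P := fun I hI => by
    obtain ⟨I', -, h⟩ := supp_sum _ _ hI
    rw [mem_singleton.1 (support_monomial_subset h)]
    exact mem_box.1 I'.2
  refine ⟨P, fun e => ht0 (funext fun I => ?_), hB, (nrm_sum _ _).trans ?_, fun p hp J hJ => ?_⟩
  · have := congrArg (coeff I.1) e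
    simpa [P, coeff_sum, coeff_monomial, Subtype.val_inj] using this
  · rw [sq, mul_assoc, ← card_box]
    simp only [Fintype.card_coe] at ht2
    refine (sum_le_card_nsmul _ _ ((box d).card * A) fun I _ => ?_).trans (by simp)
    rw [nrm_monomial]
    have := ht2 I
    rw [← Int.natCast_natAbs] at this
    exact_mod_cast this
  · by_contra hlt
    have hJ' : J ∈ bad := mem_filter.2 ⟨mem_box.2 (hB.sh _ J hJ), not_le.1 hlt⟩
    apply mem_support_iff.1 hJ
    have := congrFun ht1 (⟨p, hp⟩, ⟨J, hJ'⟩)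
    simp only [Matrix.mulVec, dotProduct, M, Pi.zero_apply] at this
    rw [← this, map_sum, coeff_sum]
    refine sum_congr rfl fun I _ => ?_
    rw [show monomial I.1 (t I) = C (t I) * monomial I.1 1 by rw [C_mul_monomial, mul_one],
      map_mul, sh_C, coeff_C_mul, mul_comm]

omit [DecidableEq σ] in
lemma dvd_step {x j : σ → ℤ} {d v : σ → ℕ} {θ : ℝ} {P : MvPolynomial σ ℤ} (hP : Ind j d θ P)
    {p : ℤ} (hv : ∀ h, p ^ v h ∣ x h - j h) (J : σ →₀ ℕ) {e : ℕ}
    (he : ∀ I, θ ≤ wt d I → e ≤ ∑ h, v h * (I h - J h)) : p ^ e ∣ coeff J (sh x P) := by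
  rw [← sub_add_cancel x j, ← sh_sh, sh_as_sum (x - j), coeff_sum]
  refine dvd_sum fun I hI => ?_
  rw [coeff_C_mul]
  refine Dvd.dvd.mul_left (((pow_dvd_pow p (he I (hP I hI))).trans ?_).trans
    (dvd_coeff_sh_monomial _ I J)) _
  rw [← prod_pow_eq_pow_sum]
  exact prod_dvd_prod_of_dvd _ _ fun h _ => by rw [pow_mul]; exact pow_dvd_pow_of_dvd (hv h) _

end box

lemma exists_seq {T : Set ℕ} (hT : T.Infinite) (L : ℝ) {C : ℝ} (hC : 1 ≤ C) :
    ∃ y : ℕ → ℕ, (∀ i, y i ∈ T) ∧ (∀ i, L ≤ Real.log (y i)) ∧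
      ∀ i i', i < i' → C * Real.log (y i) ≤ Real.log (y i') := by
  have h : ∀ r : ℝ, ∃ t ∈ T, r ≤ Real.log t := by
    intro r
    obtain ⟨t, h1, h2⟩ := hT.exists_gt ⌈Real.exp r⌉₊
    refine ⟨t, h1, ?_⟩
    have := (Nat.le_ceil (Real.exp r)).trans (Nat.cast_le.2 h2.le)
    exact (Real.le_log_iff_exp_le ((Real.exp_pos r).trans_le this)).2 this
  choose f h1 h2 using h
  obtain ⟨y, y0, y1⟩ : ∃ y : ℕ → ℕ, y 0 = f L ∧ ∀ i, y (i + 1) = f (C * Real.log (y i)) :=
    ⟨fun i => Nat.rec (motive := fun _ => ℕ) (f L) (fun _ a => f (C * Real.log a)) i, rfl,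
      fun _ => rfl⟩
  have h3 : ∀ i, C * Real.log (y i) ≤ Real.log (y (i + 1)) := fun i => y1 i ▸ h2 _
  have h4 : ∀ i, Real.log (y i) ≤ C * Real.log (y i) := fun i =>
    le_mul_of_one_le_left (Real.log_natCast_nonneg _) hC
  refine ⟨y, fun i => by cases i <;> simp only [y0, y1, h1], fun i => ?_, fun i i' hi => ?_⟩
  · induction i with
    | zero => exact y0 ▸ h2 _
    | succ i ih => exact ih.trans ((h4 i).trans (h3 i))
  · induction i', hi using Nat.le_induction with
    | base => exact h3 i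
    | succ i' _ ih => exact ih.trans ((h4 i').trans (h3 i'))

theorem ridout (S : Finset ℕ) (hS : ∀ p ∈ S, p.Prime) (μ : ℕ → ℝ) (hμ : ∀ p ∈ S, 0 ≤ μ p)
    (hμS : 64 ≤ ∑ p ∈ S, μ p) :
    ∃ δ : ℝ, 0 < δ ∧ {x : ℕ | ∀ p ∈ S, ∃ (j : ℤ) (v : ℕ),
      Real.log (1 + j.natAbs) ≤ δ * Real.log x ∧ (p : ℤ) ^ v ∣ x - j ∧
        μ p * Real.log x ≤ v * Real.log p}.Finite := by
  obtain ⟨k, hk⟩ : ∃ k, k = 4 * S.card + 1 := ⟨_, rfl⟩
  obtain ⟨m, hm⟩ : ∃ m, m = 4 * k := ⟨_, rfl⟩
  obtain ⟨ω, hω⟩ : ∃ ω : ℝ, ω = (1 / 48) ^ 2 ^ m := ⟨_, rfl⟩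
  have hω0 : 0 < ω := by rw [hω]; positivity
  have hω1 : ω ≤ 1 := by rw [hω]; exact pow_le_one₀ (by norm_num) (by norm_num)
  have hkR : (1 : ℝ) ≤ k := by exact_mod_cast (by omega : 1 ≤ k)
  have hmR : (m : ℝ) = 4 * k := by exact_mod_cast hm
  have hm0 : (0 : ℝ) < m := by linarith
  refine ⟨ω / (4 * m), by positivity, ?_⟩
  by_contra hT
  obtain ⟨y, hy1, hy2, hy3⟩ := exists_seq hT (24 * m ^ 2 / ω) (C := 2 / ω)
    (by rw [le_div_iff₀ hω0]; linarith)
  have hL : 1 ≤ 24 * (m : ℝ) ^ 2 / ω := by rw [le_div_iff₀ hω0]; nlinarith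
  obtain ⟨x, hx⟩ : ∃ x : Fin m → ℕ, ∀ h, x h = y h.rev := ⟨_, fun _ => rfl⟩
  obtain ⟨D, hD⟩ : ∃ D, D = Real.log (y m) := ⟨_, rfl⟩
  have hl1 : ∀ h, 1 ≤ Real.log (x h) := fun h => hx h ▸ hL.trans (hy2 _)
  have hl2 : ∀ h, Real.log (x h) ≤ D := fun h => by
    have a1 := hy3 h.rev m h.rev.2
    rw [← hx, ← hD, div_mul_eq_mul_div, div_le_iff₀ hω0] at a1
    nlinarith [hl1 h]
  have hD0 : 1 ≤ D := hD ▸ hL.trans (hy2 _)
  have hx2 : ∀ h, 2 ≤ x h := fun h => by
    by_contra hc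
    have a1 := hl1 h
    have : x h = 0 ∨ x h = 1 := by omega
    rcases this with e | e <;> rw [e] at a1 <;> norm_num at a1
  obtain ⟨d, hd⟩ : ∃ d : Fin m → ℕ, ∀ h, d h = ⌈D / Real.log (x h)⌉₊ := ⟨_, fun _ => rfl⟩
  have hd1 : ∀ h, D ≤ d h * Real.log (x h) := fun h => by
    rw [← div_le_iff₀ (by linarith [hl1 h]), hd]; exact Nat.le_ceil _
  have hd2 : ∀ h, d h * Real.log (x h) ≤ 2 * D := fun h => by
    have a0 : 0 < Real.log (x h) := by linarith [hl1 h]
    have a1 := (Nat.ceil_lt_add_one (show 0 ≤ D / Real.log (x h) by positivity)).le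
    rw [← hd, ← sub_le_iff_le_add, le_div_iff₀ a0] at a1
    linarith [hl2 h]
  have hd0 : ∀ h, 0 < d h := fun h => by
    by_contra hc
    have := hd1 h
    rw [show d h = 0 by omega] at this
    simp at this
    linarith
  have hsum : ∀ (f : Fin m → ℝ) (c : ℝ), (∀ h, f h ≤ c) → ∑ h, f h ≤ m * c := fun f c hf => by
    simpa using sum_le_card_nsmul univ f c fun h _ => hf h
  have hd3 : 12 * m * ∑ h, (d h : ℝ) ≤ ω * D := by
    have a1 := hsum (fun h => (d h : ℝ)) (ω * D / (12 * m ^ 2)) fun h => by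
      have b1 := hy2 h.rev
      rw [← hx, div_le_iff₀ hω0] at b1
      rw [le_div_iff₀ (by positivity)]
      have b2 := mul_le_mul_of_nonneg_left b1 (Nat.cast_nonneg (α := ℝ) (d h))
      nlinarith [mul_le_mul_of_nonneg_left (hd2 h) hω0.le]
    calc 12 * m * ∑ h, (d h : ℝ) ≤ 12 * m * (m * (ω * D / (12 * m ^ 2))) := by gcongr
      _ = _ := by field_simp
  have hd4 : (0 : ℝ) ≤ ∑ h, (d h : ℝ) := sum_nonneg fun _ _ => by positivity
  have hT' : ∀ h, ∀ p ∈ S, ∃ (j : ℤ) (v : ℕ),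
      Real.log (1 + j.natAbs) ≤ ω / (4 * m) * Real.log (x h) ∧ (p : ℤ) ^ v ∣ x h - j ∧
        μ p * Real.log (x h) ≤ v * Real.log p := fun h => hx h ▸ hy1 h.rev
  choose! j v hj1 hj2 hj3 using hT'
  have hlp : ∀ a : Fin m → ℕ, Real.log ((∏ h, (1 + a h) ^ d h : ℕ) : ℝ)
      = ∑ h, d h * Real.log (1 + a h) := fun a => by
    push_cast
    rw [Real.log_prod fun h _ => by positivity]
    simp only [Real.log_pow]
  obtain ⟨P, hP0, hPB, hPn, hPI⟩ := aux_poly S (m := k) (by simp [hm]) (by omega) hd0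
    (fun p h => j h p) (A := ⌊Real.exp (ω * D / 2)⌋₊)
    (Nat.le_floor (by simpa using Real.one_le_exp (by positivity)))
    (fun p hp => Nat.le_floor (by
      rw [← Real.log_le_iff_le_exp (by positivity), hlp]
      refine (hsum _ (ω / (4 * m) * (2 * D)) fun h => ?_).trans (le_of_eq (by field_simp; ring))
      calc d h * Real.log (1 + ((j h p).natAbs : ℝ)) ≤ d h * (ω / (4 * m) * Real.log (x h)) := by
            gcongr; exact hj1 h p hp
        _ = ω / (4 * m) * (d h * Real.log (x h)) := by ring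
        _ ≤ _ := mul_le_mul_of_nonneg_left (hd2 h) (by positivity)))
  have hP1 : (0 : ℝ) < nrm P := by exact_mod_cast nrm_pos hP0
  have hPl : Real.log (nrm P) + 4 * m * ∑ h, (d h : ℝ) ≤ ω * D := by
    have a1 : (nrm P : ℝ) ≤ (∏ h, ((d h : ℝ) + 1)) ^ 2 * Real.exp (ω * D / 2) :=
      calc (nrm P : ℝ) ≤ (∏ h, ((d h : ℝ) + 1)) ^ 2 * ⌊Real.exp (ω * D / 2)⌋₊ := by
            exact_mod_cast hPn
        _ ≤ _ := by gcongr; exact Nat.floor_le (by positivity)
    have a2 := Real.log_le_log hP1 a1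
    rw [Real.log_mul (by positivity) (by positivity), Real.log_exp, Real.log_pow,
      Real.log_prod fun h _ => by positivity] at a2
    have a3 : ∑ h, Real.log ((d h : ℝ) + 1) ≤ ∑ h, (d h : ℝ) := sum_le_sum fun h _ => by
      linarith [Real.log_le_sub_one_of_pos (show 0 < (d h : ℝ) + 1 by positivity)]
    push_cast at a2
    nlinarith
  obtain ⟨J, hJ1, hJ2⟩ := roth_lemma m (1 / 48) (by norm_num) (by norm_num) d (fun h => x h) P hP0
    hPB hd0
    (fun h h' hh => by
      have a1 := hy3 h'.rev h.rev (Fin.rev_lt_rev.2 hh)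
      rw [← hx, ← hx, div_mul_eq_mul_div, div_le_iff₀ hω0] at a1
      rw [← hω]
      refine le_of_mul_le_mul_right ?_ (show 0 < Real.log (x h) by linarith [hl1 h])
      nlinarith [hd1 h', hd2 h, mul_le_mul_of_nonneg_left a1 (Nat.cast_nonneg (α := ℝ) (d h'))])
    (fun h => by exact_mod_cast hx2 h)
    (fun h => by
      rw [← hω, mul_assoc ω, Int.cast_natCast]
      exact hPl.trans (mul_le_mul_of_nonneg_left (hd1 h) hω0.le))
  obtain ⟨q, hq⟩ : ∃ q, q = coeff J (sh (fun h => (x h : ℤ)) P) := ⟨_, rfl⟩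
  have hq0 : 0 < q.natAbs := Int.natAbs_pos.2 (hq ▸ mem_support_iff.1 hJ1)
  have hq1 : Real.log q.natAbs ≤ 3 * m * D := by
    have a1 : q.natAbs ≤ nrm P * ∏ h, (1 + x h) ^ d h := by
      simpa using (hq ▸ coeff_le_nrm _ J).trans (nrm_sh hPB fun h => (x h : ℤ))
    have a2 : Real.log q.natAbs ≤ Real.log (nrm P * (∏ h, (1 + x h) ^ d h : ℕ)) :=
      Real.log_le_log (by exact_mod_cast hq0) (by exact_mod_cast a1)
    rw [Real.log_mul hP1.ne' (by positivity), hlp] at a2
    have a3 : ∑ h, d h * Real.log (1 + x h) ≤ ∑ h, (d h * Real.log (x h) + d h) :=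
      sum_le_sum fun h _ => by
        have b1 : (2 : ℝ) ≤ x h := by exact_mod_cast hx2 h
        have b2 : Real.log (1 + x h) ≤ Real.log (x h * 2) := Real.log_le_log (by linarith) (by linarith)
        rw [Real.log_mul (by linarith) (by norm_num)] at b2
        have b3 := Real.log_two_lt_d9
        rw [← mul_add_one]
        gcongr
        linarith
    rw [sum_add_distrib] at a3
    have a4 := hsum _ _ hd2
    nlinarith
  let e : ℕ → ℕ := fun p => ⌈μ p * D * k / (4 * Real.log p)⌉₊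
  have hlog : ∀ p ∈ S, 0 < Real.log p := fun p hp =>
    Real.log_pos (by exact_mod_cast (hS p hp).one_lt)
  have hq2 : ∀ p ∈ S, (p : ℤ) ^ e p ∣ q := fun p hp => by
    rw [hq]
    refine dvd_step (hPI p hp) (fun h => hj2 h p hp) J fun I hI => Nat.ceil_le.2 ?_
    rw [div_le_iff₀ (by linarith [hlog p hp])]
    have a1 : ∀ h, μ p * D * ((I h : ℝ) / d h - (J h : ℝ) / d h)
        ≤ ((v h p * (I h - J h) : ℕ) : ℝ) * Real.log p := fun h => by
      have b0 : (0 : ℝ) < d h := by exact_mod_cast hd0 h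
      have b1 : (I h : ℝ) - J h ≤ ((I h - J h : ℕ) : ℝ) := by
        rw [sub_le_iff_le_add]; exact_mod_cast le_tsub_add
      have b2 : D / d h ≤ Real.log (x h) := by rw [div_le_iff₀ b0, mul_comm]; exact hd1 h
      have b3 := hμ p hp
      calc μ p * D * ((I h : ℝ) / d h - (J h : ℝ) / d h) = μ p * (D / d h) * (I h - J h) := by ring
        _ ≤ μ p * (D / d h) * ((I h - J h : ℕ) : ℝ) := by gcongr
        _ ≤ μ p * Real.log (x h) * ((I h - J h : ℕ) : ℝ) := by gcongr
        _ ≤ v h p * Real.log p * ((I h - J h : ℕ) : ℝ) :=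
            mul_le_mul_of_nonneg_right (hj3 h p hp) (by positivity)
        _ = _ := by push_cast; ring
    have a2 := sum_le_sum fun h (_ : h ∈ univ) => a1 h
    rw [← mul_sum, sum_sub_distrib, ← sum_mul, ← Nat.cast_sum] at a2
    change μ p * D * (wt d I - wt d J) ≤ _ at a2
    have a3 : μ p * D * (k / 4) ≤ μ p * D * (wt d I - wt d J) := by
      have := hμ p hp
      gcongr
      linarith
    linarith
  have hq3 : ∏ p ∈ S, p ^ e p ≤ q.natAbs := by
    refine Nat.le_of_dvd hq0 (Int.natCast_dvd.1 ?_)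
    push_cast
    refine prod_dvd_of_coprime (fun p hp p' hp' hne => ?_) hq2
    exact (Nat.isCoprime_iff_coprime.2 ((Nat.coprime_primes (hS p hp) (hS p' hp')).2 hne)).pow
  have hq4 : ∑ p ∈ S, e p * Real.log p ≤ Real.log q.natAbs := by
    have a1 : ∀ p ∈ S, (0 : ℝ) < (p : ℝ) ^ e p := fun p hp => by
      have := (hS p hp).pos
      positivity
    have a2 := Real.log_le_log (prod_pos a1) (show _ ≤ (q.natAbs : ℝ) by exact_mod_cast hq3)
    rw [Real.log_prod fun p hp => (a1 p hp).ne'] at a2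
    simpa only [Real.log_pow] using a2
  have hq5 : ∑ p ∈ S, μ p * (D * k / 4) ≤ ∑ p ∈ S, e p * Real.log p := sum_le_sum fun p hp => by
    have a1 := Nat.le_ceil (μ p * D * k / (4 * Real.log p))
    rw [div_le_iff₀ (by linarith [hlog p hp])] at a1
    simp only [e]
    linarith
  rw [← sum_mul] at hq5
  have := mul_le_mul_of_nonneg_right hμS (show 0 ≤ D * k / 4 by positivity)
  nlinarith

end Pool.Agent.H41Roth
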