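import Pool.Agent.MP_7a723b_nt.RothD
import Pool.Agent.MP_7a723b_nt.ProdB

/-! In a nontrivial solution of `n! = a₁! a₂! ⋯`, `n - a₁ = o(log log n)`, `a₂ = o(log n)`. -/

namespace Pool.Agent.H41Roth

open Finset Nat Filter Pool.Agent.H41Fact

lemma exists_primes (c : ℝ) : ∃ S : Finset ℕ, (∀ p ∈ S, p.Prime) ∧ c ≤ ∑ p ∈ S, 1 / (p : ℝ) := by
  by_contra h
  refine not_summable_one_div_on_primes (summable_of_sum_le (c := c)
    (fun n => Set.indicator_nonneg (fun _ _ => by positivity) n) fun u => ?_)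
  by_contra h1
  refine h ⟨u.filter Nat.Prime, fun p hp => (mem_filter.1 hp).2, ?_⟩
  rw [sum_filter]
  refine (not_le.1 h1).le.trans (le_of_eq (sum_congr rfl fun n _ => ?_))
  simp [Set.indicator_apply]

lemma val_lower {p y : ℕ} (hp : p.Prime) (hy : p ≤ y) (t : Multiset ℕ) :
    (t.filter (y ≤ ·)).sum ≤ 2 * p * (t.map factorial).prod.factorization p := by
  induction t using Multiset.induction_on with
  | empty => simp
  | cons a t ih =>
    rw [Multiset.map_cons, Multiset.prod_cons,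
      Nat.factorization_mul (factorial_ne_zero a) (prod_fact_ne t), Finsupp.add_apply, mul_add]
    by_cases h : y ≤ a
    · rw [Multiset.filter_cons_of_pos _ h, Multiset.sum_cons]
      refine Nat.add_le_add ?_ ih
      have h1 := Nat.factorization_factorial_mul (n := a / p) hp
      have h2 := (Nat.factorization_le_iff_dvd (factorial_ne_zero _) (factorial_ne_zero _)).2
        (Nat.factorial_dvd_factorial (Nat.mul_div_le a p)) p
      have h3 := Nat.lt_mul_div_succ a hp.pos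
      have h4 : 1 ≤ a / p := Nat.div_pos (hy.trans h) hp.pos
      have h5 : p * (a / p + 1) ≤ p * (2 * (a !).factorization p) :=
        Nat.mul_le_mul_left _ (by omega)
      linarith
    · rw [Multiset.filter_cons_of_neg _ h]
      exact ih.trans (Nat.le_add_left _ _)

lemma one_term {p x k : ℕ} (hp : p.Prime) (hx : 1 ≤ x) (hk : 1 ≤ k) :
    ∃ j < k, (∏ i ∈ range k, (x + i)).factorization p ≤ (x + j).factorization p + k * k := by
  obtain ⟨j, hj, hmax⟩ := exists_max_image (range k) (fun i => (x + i).factorization p)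
    ⟨0, mem_range.2 hk⟩
  refine ⟨j, mem_range.1 hj, ?_⟩
  rw [Nat.factorization_prod_apply fun i _ => by omega, ← add_sum_erase _ _ hj]
  refine Nat.add_le_add_left ((sum_le_card_nsmul _ _ k fun i hi => ?_).trans ?_) _
  · obtain ⟨h1, h2⟩ := mem_erase.1 hi
    have h3 := Nat.ordProj_dvd (x + i) p
    have h4 := (pow_dvd_pow p (hmax i h2)).trans (Nat.ordProj_dvd (x + j) p)
    have h5 := Nat.lt_pow_self (n := (x + i).factorization p) hp.one_lt
    have h6 := mem_range.1 h2
    have h7 := mem_range.1 hj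
    rcases lt_or_gt_of_ne h1 with h | h
    · have := Nat.le_of_dvd (by omega) (Nat.dvd_sub h4 h3)
      omega
    · have := Nat.le_of_dvd (by omega) (Nat.dvd_sub h3 h4)
      omega
  · rw [smul_eq_mul]
    exact Nat.mul_le_mul_right _ ((card_erase_le).trans (by simp))

lemma big_parts {η : ℝ} (hη : 0 < η) : ∃ (y : ℕ) (κ : ℝ), 1 ≤ y ∧ 0 < κ ∧ ∃ x₀ : ℕ, ∀ x, x₀ ≤ x →
    ∀ (k : ℕ) (t : Multiset ℕ), 1 ≤ k → (k : ℝ) ^ 2 ≤ κ * Real.log x →
      ∏ i ∈ range k, (x + i) = (t.map factorial).prod →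
      ((t.filter (y ≤ ·)).sum : ℝ) ≤ η * Real.log x := by
  obtain ⟨S, hS, hS1⟩ := exists_primes (512 / η)
  obtain ⟨δ, hδ, hfin⟩ := ridout S hS (fun p => η / (8 * p)) (fun p _ => by positivity) (by
    have e : ∑ p ∈ S, η / (8 * (p : ℝ)) = η / 8 * ∑ p ∈ S, 1 / (p : ℝ) := by
      rw [mul_sum]; exact sum_congr rfl fun p _ => by ring
    rw [e]
    rw [div_le_iff₀ hη] at hS1
    linarith)
  obtain ⟨x₀, hx₀⟩ := hfin.bddAbove
  refine ⟨S.sup id + 1, min δ (η / (4 * (S.sup id + 1 : ℕ))), by omega,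
    lt_min hδ (by positivity), x₀ + 1, fun x hx k t hk hκ hM => ?_⟩
  by_contra hB
  refine absurd (hx₀ (a := x) fun p hp => ?_) (by omega)
  have hl : 0 ≤ Real.log x := Real.log_natCast_nonneg x
  have hpy : p ≤ S.sup id + 1 := (le_sup (f := id) hp).trans (Nat.le_succ _)
  have hp0 : (2 : ℝ) ≤ p := by exact_mod_cast (hS p hp).two_le
  obtain ⟨j, hj, h1⟩ := one_term (hS p hp) (show 1 ≤ x by omega) hk
  have h2 := val_lower (hS p hp) hpy t
  rw [← hM] at h2
  have hk1 : (1 : ℝ) ≤ k := by exact_mod_cast hk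
  refine ⟨-(j : ℤ), (x + j).factorization p, ?_, ?_, ?_⟩
  · have a1 : (1 : ℝ) + j ≤ k := by exact_mod_cast (by omega : 1 + j ≤ k)
    have a2 := Real.log_le_sub_one_of_pos (show (0 : ℝ) < 1 + j by positivity)
    have a3 := mul_le_mul_of_nonneg_right (min_le_left δ (η / (4 * (S.sup id + 1 : ℕ)))) hl
    simp only [Int.natAbs_neg, Int.natAbs_natCast]
    nlinarith
  · rw [sub_neg_eq_add]
    exact_mod_cast Nat.ordProj_dvd (x + j) p
  · set v := (x + j).factorization p
    have a1 : (((t.filter (S.sup id + 1 ≤ ·)).sum : ℕ) : ℝ) ≤ 2 * p * (v + k ^ 2) := by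
      rw [sq]
      exact_mod_cast h2.trans (Nat.mul_le_mul_left _ h1)
    have a2 : (k : ℝ) ^ 2 ≤ η / (4 * p) * Real.log x := by
      refine hκ.trans (mul_le_mul_of_nonneg_right ((min_le_right _ _).trans ?_) hl)
      gcongr
    have a3 : 2 * p * (η / (4 * p) * Real.log x) = η * Real.log x / 2 := by field_simp; ring
    have a4 := mul_le_mul_of_nonneg_left a2 (show (0 : ℝ) ≤ 2 * p by positivity)
    have a5 : η * Real.log x ≤ 4 * p * v := by linarith [not_le.1 hB]
    have a6 : 1 / 2 ≤ Real.log p := by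
      linarith [Real.log_le_log two_pos hp0, Real.log_two_gt_d9]
    rw [div_mul_eq_mul_div, div_le_iff₀ (by positivity)]
    nlinarith [mul_le_mul_of_nonneg_left a6 (show (0 : ℝ) ≤ p * v by positivity)]

theorem small_gap (ε : ℝ) (hε : 0 < ε) : ∃ n₀ : ℕ, ∀ n : ℕ, n₀ ≤ n → ∀ s : Multiset ℕ,
    (∀ a ∈ s, a + 2 ≤ n) → (s.map factorial).prod = n ! →
    ∃ b ∈ s, (n : ℝ) - b ≤ ε * Real.log (Real.log n) ∧
      ∀ a ∈ s.erase b, (a : ℝ) ≤ ε * Real.log n := by
  obtain ⟨y, κ, hy, hκ, x₀, hbig⟩ := big_parts (show 0 < ε / 6 by positivity)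
  obtain ⟨t0, h2, ht⟩ := exists_t0
  have T1 : Tendsto (fun n : ℕ => Real.log n) atTop atTop :=
    Real.tendsto_log_atTop.comp tendsto_natCast_atTop_atTop
  have T2 := Real.tendsto_log_atTop.comp T1
  have T3 := T1.eventually ((Real.isLittleO_pow_log_id_atTop (n := 2)).def
    (show 0 < κ / 3042 by positivity))
  obtain ⟨n₀, hn₀⟩ := eventually_atTop.1 ((eventually_ge_atTop (2 ^ (2 ^ t0 + 1))).and
    ((eventually_ge_atTop (4 * x₀)).and ((T2.eventually_ge_atTop 7).and
    ((T2.eventually_ge_atTop (192 * Real.log y / ε)).and (T3.and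
    ((T1.eventually_ge_atTop ((y + 2) / ε)).and (T1.eventually_ge_atTop 4)))))))
  refine ⟨n₀, fun n hn s hs hp => ?_⟩
  obtain ⟨E1, E2, E3, E4, E5, E6, E7⟩ := hn₀ n hn
  simp only [Function.comp, id, Real.norm_eq_abs] at E3 E4 E5
  rw [abs_of_nonneg (by positivity), abs_of_nonneg (by linarith)] at E5
  have hn0 : n ≠ 0 := by
    have : 0 < 2 ^ (2 ^ t0 + 1) := by positivity
    omega
  have hg : 2 ^ t0 + 1 ≤ Nat.log 2 n := Nat.le_log_of_pow_le (by norm_num) E1
  have t1 : t0 < 2 ^ t0 := Nat.lt_two_pow_self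
  obtain ⟨μ, hμ0⟩ : ∃ μ, Nat.log 2 n = μ + 2 := ⟨Nat.log 2 n - 2, by omega⟩
  obtain ⟨l, hl⟩ : ∃ l, l = Nat.log 2 (μ + 2) + 5 := ⟨_, rfl⟩
  have l0 : t0 ≤ Nat.log 2 (μ + 2) := Nat.le_log_of_pow_le (by norm_num) (by omega)
  have l1 : 16 * (μ + 2) ≤ 2 ^ l := by
    have := Nat.lt_pow_succ_log_self (b := 2) (by norm_num) (μ + 2)
    rw [Nat.pow_succ] at this
    rw [hl, pow_add]; omega
  have l2 : 2 ^ l ≤ 32 * (μ + 2) := by
    have := Nat.pow_log_le_self 2 (show μ + 2 ≠ 0 by omega)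
    rw [hl, pow_add]; omega
  have l3 := ht l (by omega)
  have l4 : l ≤ l ^ 10 := Nat.le_self_pow (by norm_num) l
  have hμ : 2 * (4 * (μ + 3) ^ 2 + 2) ^ 3 ≤ 2 ^ (μ + 1) := by
    refine le_trans ?_ (ht (μ + 1) (by omega))
    have a1 : 4 * (μ + 3) ^ 2 + 2 ≤ 40 * (μ + 1) ^ 2 := by nlinarith
    have a2 : (μ + 1) ^ 6 ≤ (μ + 1) ^ 10 := Nat.pow_le_pow_right (by omega) (by norm_num)
    calc 2 * (4 * (μ + 3) ^ 2 + 2) ^ 3 ≤ 2 * (40 * (μ + 1) ^ 2) ^ 3 := by gcongr
      _ = 128000 * (μ + 1) ^ 6 := by ring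
      _ ≤ _ := by omega
  have n1 : 2 ^ (μ + 2) ≤ n := hμ0 ▸ Nat.pow_log_le_self 2 hn0
  have n2 : n < 2 ^ (μ + 3) := by
    have := Nat.lt_pow_succ_log_self (b := 2) (by norm_num) n
    rwa [hμ0] at this
  have hsplit := Multiset.filter_add_not (2 ≤ ·) s
  have hone : ((s.filter fun a => ¬ 2 ≤ a).map factorial).prod = 1 :=
    Multiset.prod_eq_one fun c hc => by
      obtain ⟨a, ha, rfl⟩ := Multiset.mem_map.1 hc
      have := (Multiset.mem_filter.1 ha).2
      exact Nat.factorial_eq_one.2 (by omega)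
  obtain ⟨k, x, k1, k2, k3, k4, t, W, -, k5, k6, -, -, k7, k8⟩ := shape0 n μ l n1 n2 l1 l2
    (by omega) (by omega) hμ (s.filter (2 ≤ ·))
    (fun a ha => ⟨(Multiset.mem_filter.1 ha).2, hs a (Multiset.mem_filter.1 ha).1⟩)
    (by rw [← hp]; conv_rhs => rw [← hsplit, Multiset.map_add, Multiset.prod_add, hone, mul_one])
  have x1 : n < 4 * x := by
    have : 2 ^ (μ + 3) = 4 * 2 ^ (μ + 1) := by ring
    omega
  have c1 := Real.log_two_gt_d9
  have c2 := Real.log_two_lt_d9
  have hx0 : (0 : ℝ) < x := by exact_mod_cast k4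
  have hnR : (0 : ℝ) < n := by positivity
  have x2 : Real.log x ≤ Real.log n := Real.log_le_log hx0 (by exact_mod_cast (by omega : x ≤ n))
  have x3 : Real.log n ≤ 2 * Real.log x := by
    have a1 : Real.log n ≤ Real.log (2 ^ 2 * x) :=
      Real.log_le_log hnR (by norm_num; exact_mod_cast x1.le)
    rw [Real.log_mul (by norm_num) hx0.ne', Real.log_pow] at a1
    push_cast at a1
    linarith
  have g1 : (μ : ℝ) + 2 ≤ 3 * Real.log x := by
    have a1 : Real.log (2 ^ (μ + 1)) ≤ Real.log x :=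
      Real.log_le_log (by positivity) (by exact_mod_cast k8)
    rw [Real.log_pow] at a1
    push_cast at a1
    nlinarith [Nat.cast_nonneg (α := ℝ) μ]
  have g2 : (l : ℝ) ≤ 3 * Real.log (Real.log n) := by
    have a0 : Real.log (2 ^ (μ + 2)) ≤ Real.log n :=
      Real.log_le_log (by positivity) (by exact_mod_cast n1)
    rw [Real.log_pow] at a0
    push_cast at a0
    have a1 : Real.log (2 ^ l) ≤ Real.log (2 ^ 6 * Real.log n) := by
      refine Real.log_le_log (by positivity) ?_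
      have : (2 : ℝ) ^ l ≤ 32 * (μ + 2) := by exact_mod_cast l2
      nlinarith [Nat.cast_nonneg (α := ℝ) μ]
    rw [Real.log_pow, Real.log_mul (by norm_num) (by linarith), Real.log_pow] at a1
    push_cast at a1
    nlinarith [Nat.cast_nonneg (α := ℝ) l]
  have hB := hbig x (by omega) k t (by omega) (by
    have a1 : (k : ℝ) ≤ 39 * Real.log (Real.log n) := by
      have : (k : ℝ) ≤ 13 * l := by exact_mod_cast k2
      linarith
    have a2 := pow_le_pow_left₀ (by positivity) a1 2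
    nlinarith) k6
  have hs' : s = (x - 1) ::ₘ (t + s.filter fun a => ¬ 2 ≤ a) := by
    rw [← Multiset.cons_add, ← k7, hsplit]
  refine ⟨x - 1, by rw [hs']; exact Multiset.mem_cons_self _ _, ?_, fun a ha => ?_⟩
  · have e : (n : ℝ) - (x - 1 : ℕ) = k := by
      rw [show n = (x - 1) + k by omega]; push_cast; ring
    rw [e]
    set B := (t.filter (y ≤ ·)).sum with hBd
    have ts := Multiset.filter_add_not (y ≤ ·) t
    have a1 : x ^ k ≤ (2 ^ l) ^ B * y ^ 2 ^ l := by
      calc x ^ k = ∏ _i ∈ range k, x := by simp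
        _ ≤ ∏ i ∈ range k, (x + i) := prod_le_prod' fun i _ => by omega
        _ = _ := k6
        _ ≤ (2 ^ l) ^ B * y ^ (t.filter fun a => ¬ y ≤ a).sum := by
          conv_lhs => rw [← ts, Multiset.map_add, Multiset.prod_add]
          refine Nat.mul_le_mul (prod_fact_le _ _ fun a ha => ?_) (prod_fact_le _ _ fun a ha => ?_)
          · exact (Multiset.single_le_sum (fun _ _ => Nat.zero_le _) a
              (Multiset.mem_of_mem_filter ha)).trans k5
          · exact (not_le.1 (Multiset.mem_filter.1 ha).2).le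
        _ ≤ _ := by
          have := congrArg Multiset.sum ts
          rw [Multiset.sum_add] at this
          exact Nat.mul_le_mul_left _ (Nat.pow_le_pow_right hy (by omega))
    have hy0 : (1 : ℝ) ≤ y := by exact_mod_cast hy
    have a2 : Real.log (x ^ k) ≤ Real.log ((2 ^ l) ^ B * y ^ 2 ^ l) :=
      Real.log_le_log (by positivity) (by exact_mod_cast a1)
    rw [Real.log_pow, Real.log_mul (by positivity) (by positivity), Real.log_pow, Real.log_pow,
      Real.log_pow] at a2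
    have a3 : ((2 ^ l : ℕ) : ℝ) ≤ 96 * Real.log x := by
      have : ((2 ^ l : ℕ) : ℝ) ≤ 32 * (μ + 2) := by exact_mod_cast l2
      linarith
    have a4 := mul_le_mul_of_nonneg_right a3 (Real.log_nonneg hy0)
    have a5 : (B : ℝ) * (l * Real.log 2) ≤ ε / 6 * Real.log x * (3 * Real.log (Real.log n)) := by
      refine mul_le_mul hB ?_ (by positivity) (by nlinarith)
      nlinarith [Nat.cast_nonneg (α := ℝ) l]
    rw [div_le_iff₀ hε] at E4
    refine le_of_mul_le_mul_right ?_ (show 0 < Real.log x by linarith)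
    nlinarith [mul_le_mul_of_nonneg_right E4 (show 0 ≤ Real.log x by linarith)]
  · rw [div_le_iff₀ hε] at E6
    by_cases h : y + 2 ≤ a
    · rw [hs', Multiset.erase_cons_head, Multiset.mem_add] at ha
      have a1 : a ∈ t.filter (y ≤ ·) := Multiset.mem_filter.2
        ⟨ha.resolve_right fun h' => (Multiset.mem_filter.1 h').2 (by omega), by omega⟩
      have a2 : (a : ℝ) ≤ ((t.filter (y ≤ ·)).sum : ℕ) := by
        exact_mod_cast Multiset.single_le_sum (fun _ _ => Nat.zero_le _) a a1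
      nlinarith
    · have : (a : ℝ) ≤ y + 2 := by exact_mod_cast (by omega : a ≤ y + 2)
      linarith

end Pool.Agent.H41Roth
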